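import Pool.Agent.Lib.MP_28b8de_an.LQDefs

/-!
MP_28b8de_an, module Approx (MSW-AP): the sets of controls `UU`, `DD T`.

PROOFS. convex: |x u + y v| ≤ x + y = 1; `SmoothNear T` is stable under linear combinations
(minimum of the two radii), so SwSet T (x u + y v) ⊆ SwSet T u ∪ SwSet T v.
om_UU: |∫_0^t u| ≤ t ≤ T.
dense: n with 2 T / n ≤ ε (n ≥ 1), h = T/n, v t = (1/h) ∫_{⌊t/h⌋ h}^{(⌊t/h⌋+1) h} u (measurable:
a measurable function of `Int.floor (t/h)`, `|v| ≤ 1`).  ∫_0^{ih} v = ∫_0^{ih} u for i ∈ ℕ, so for t in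
[ih,(i+1)h]: |∫_0^t (v - u)| = |∫_{ih}^t (v-u)| ≤ 2h ≤ ε.  SwSet T v ⊆ {i h | i ∈ ℤ} countable
(off these points v is locally constant).
-/

namespace Pool.Agent.Lib.MP_28b8de_an

open Filter Topology Set MeasureTheory

theorem DD_subset (T : ℝ) : DD T ⊆ UU := fun _ h => h.1

theorem convex_UU : Convex ℝ UU := by
  intro u hu v hv a b ha hb hab t
  have h1 : (a • u + b • v : BM).1 t = a * u.1 t + b * v.1 t := rfl
  rw [h1]
  have h2 : |a * u.1 t + b * v.1 t| ≤ a * |u.1 t| + b * |v.1 t| := by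
    refine (abs_add_le _ _).trans ?_
    rw [abs_mul, abs_mul, abs_of_nonneg ha, abs_of_nonneg hb]
  have h3 : a * |u.1 t| ≤ a * 1 := mul_le_mul_of_nonneg_left (hu t) ha
  have h4 : b * |v.1 t| ≤ b * 1 := mul_le_mul_of_nonneg_left (hv t) hb
  linarith

private theorem Approx_smooth {T : ℝ} {u v : ℝ → ℝ} {t : ℝ} (a b : ℝ) (hu : SmoothNear T u t)
    (hv : SmoothNear T v t) : SmoothNear T (fun r => a * u r + b * v r) t := by
  obtain ⟨e1, he1, f, hf, hfa⟩ := hu
  obtain ⟨e2, he2, g, hg, hga⟩ := hv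
  have hs1 : Ioo (t - min e1 e2) (t + min e1 e2) ⊆ Ioo (t - e1) (t + e1) := by
    apply Ioo_subset_Ioo <;> linarith [min_le_left e1 e2]
  have hs2 : Ioo (t - min e1 e2) (t + min e1 e2) ⊆ Ioo (t - e2) (t + e2) := by
    apply Ioo_subset_Ioo <;> linarith [min_le_right e1 e2]
  refine ⟨min e1 e2, lt_min he1 he2, fun r => a * f r + b * g r, ?_, ?_⟩
  · exact (contDiffOn_const.mul (hf.mono hs1)).add (contDiffOn_const.mul (hg.mono hs2))
  · filter_upwards [hfa, hga] with r h1 h2 h3 h4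
    show a * u r + b * v r = a * f r + b * g r
    rw [h1 (hs1 h3) h4, h2 (hs2 h3) h4]

theorem convex_DD (T : ℝ) : Convex ℝ (DD T) := by
  intro u hu v hv a b ha hb hab
  refine ⟨convex_UU hu.1 hv.1 ha hb hab, ?_⟩
  apply (hu.2.union hv.2).mono
  intro t ht
  by_contra hcon
  rw [mem_union, not_or] at hcon
  have h1 : SmoothNear T u.1 t := by
    by_contra h
    exact hcon.1 ⟨ht.1, h⟩
  have h2 : SmoothNear T v.1 t := by
    by_contra h
    exact hcon.2 ⟨ht.1, h⟩
  exact ht.2 (Approx_smooth a b h1 h2)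

theorem om_UU {T : ℝ} (hT : 0 ≤ T) {u : BM} (hu : u ∈ UU) : om T u ≤ T := by
  rw [om_le hT]
  intro t ht
  have h1 := intervalIntegral.norm_integral_le_of_norm_le_const (a := (0 : ℝ)) (b := t)
    (f := u.1) (C := 1) (fun x _ => hu x)
  rw [Real.norm_eq_abs] at h1
  refine h1.trans ?_
  rw [one_mul, sub_zero, abs_of_nonneg ht.1]
  exact ht.2

theorem dense_DD {T : ℝ} (hT : 0 < T) {u : BM} (hu : u ∈ UU) {ε : ℝ} (hε : 0 < ε) :
    ∃ v ∈ DD T, om T (v - u) ≤ ε := by
  obtain ⟨n, hn⟩ := exists_nat_gt (2 * T / ε)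
  have hn0 : (0 : ℝ) < n := lt_trans (by positivity) hn
  set h : ℝ := T / n with hh
  have hpos : 0 < h := div_pos hT hn0
  have h2e : 2 * h ≤ ε := by
    rw [hh]
    rw [div_lt_iff₀ hε] at hn
    rw [← mul_div_assoc, div_le_iff₀ hn0]
    linarith
  -- primitive
  set U : ℝ → ℝ := fun t => ∫ s in (0 : ℝ)..t, u.1 s with hU
  have hUd : ∀ a b : ℝ, U b - U a = ∫ s in a..b, u.1 s := by
    intro a b
    exact intervalIntegral.integral_interval_sub_left (BM_int u _ _) (BM_int u _ _)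
  have hUb : ∀ a b : ℝ, |U b - U a| ≤ |b - a| := by
    intro a b
    rw [hUd]
    have h1 := intervalIntegral.norm_integral_le_of_norm_le_const (a := a) (b := b)
      (f := u.1) (C := 1) (fun x _ => hu x)
    rw [Real.norm_eq_abs, one_mul] at h1
    exact h1
  set g : ℤ → ℝ := fun i => (U (((i : ℝ) + 1) * h) - U ((i : ℝ) * h)) / h with hg
  have hgb : ∀ i : ℤ, |g i| ≤ 1 := by
    intro i
    rw [hg]
    show |(U (((i : ℝ) + 1) * h) - U ((i : ℝ) * h)) / h| ≤ 1
    rw [abs_div, abs_of_pos hpos, div_le_one hpos]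
    refine (hUb _ _).trans ?_
    have : ((i : ℝ) + 1) * h - (i : ℝ) * h = h := by ring
    rw [this, abs_of_pos hpos]
  set vf : ℝ → ℝ := fun t => g ⌊t / h⌋ with hvf
  have hvm : Measurable vf :=
    (measurable_of_countable g).comp (Int.measurable_floor.comp (measurable_id.div_const h))
  have hvb : ∀ t, |vf t| ≤ 1 := fun t => hgb _
  have hcell : ∀ (i : ℤ) (t : ℝ), (i : ℝ) * h ≤ t → t < ((i : ℝ) + 1) * h → vf t = g i := by
    intro i t h1 h2
    show g ⌊t / h⌋ = g i
    congr 1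
    rw [Int.floor_eq_iff]
    constructor
    · rw [le_div_iff₀ hpos]; exact h1
    · rw [div_lt_iff₀ hpos]; exact h2
  set v : BM := ⟨vf, hvm, 1, hvb⟩ with hv
  have hvint : ∀ a b : ℝ, IntervalIntegrable vf volume a b := fun a b => BM_int v a b
  have hcellint : ∀ i : ℤ, ∫ s in ((i : ℝ) * h)..(((i : ℝ) + 1) * h), vf s
      = U (((i : ℝ) + 1) * h) - U ((i : ℝ) * h) := by
    intro i
    have h1 : ∫ s in ((i : ℝ) * h)..(((i : ℝ) + 1) * h), vf s
        = ∫ _ in ((i : ℝ) * h)..(((i : ℝ) + 1) * h), g i := by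
      apply intervalIntegral.integral_congr_ae
      have h2 : ∀ᵐ x : ℝ, x ∉ ({((i : ℝ) + 1) * h} : Set ℝ) :=
        (countable_singleton _).ae_notMem volume
      filter_upwards [h2] with x hx hxI
      have hle : (i : ℝ) * h ≤ ((i : ℝ) + 1) * h := by linarith
      rw [uIoc_of_le hle] at hxI
      exact hcell i x hxI.1.le (lt_of_le_of_ne hxI.2 hx)
    rw [h1, intervalIntegral.integral_const, smul_eq_mul]
    have h3 : ((i : ℝ) + 1) * h - (i : ℝ) * h = h := by ring
    rw [h3]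
    show h * ((U (((i : ℝ) + 1) * h) - U ((i : ℝ) * h)) / h) = _
    field_simp
  have hnode : ∀ i : ℕ, ∫ s in (0 : ℝ)..((i : ℝ) * h), vf s = U ((i : ℝ) * h) := by
    intro i
    induction i with
    | zero =>
      rw [Nat.cast_zero, zero_mul, intervalIntegral.integral_same]
      show (0 : ℝ) = ∫ s in (0 : ℝ)..(0 : ℝ), u.1 s
      rw [intervalIntegral.integral_same]
    | succ i ih =>
      have h1 := intervalIntegral.integral_add_adjacent_intervals
        (hvint 0 ((i : ℝ) * h)) (hvint ((i : ℝ) * h) (((i : ℝ) + 1) * h))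
      have h2 := hcellint (i : ℤ)
      rw [Int.cast_natCast] at h2
      rw [ih, h2] at h1
      push_cast
      rw [← h1]
      ring
  refine ⟨v, ⟨hvb, ?_⟩, ?_⟩
  · apply (countable_range (fun i : ℤ => (i : ℝ) * h)).mono
    intro t ht
    by_contra hcon
    apply ht.2
    set i : ℤ := ⌊t / h⌋ with hi
    have h1 : (i : ℝ) * h ≤ t := by
      rw [← le_div_iff₀ hpos]; exact Int.floor_le _
    have h2 : t < ((i : ℝ) + 1) * h := by
      rw [← div_lt_iff₀ hpos]; exact Int.lt_floor_add_one _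
    have h3 : (i : ℝ) * h < t := lt_of_le_of_ne h1 (fun hEq => hcon ⟨i, hEq⟩)
    refine ⟨min (t - (i : ℝ) * h) (((i : ℝ) + 1) * h - t),
      lt_min (by linarith) (by linarith), fun _ => g i, contDiffOn_const, ?_⟩
    refine Eventually.of_forall fun r hr _ => ?_
    apply hcell i r
    · have := min_le_left (t - (i : ℝ) * h) (((i : ℝ) + 1) * h - t)
      linarith [hr.1]
    · have := min_le_right (t - (i : ℝ) * h) (((i : ℝ) + 1) * h - t)
      linarith [hr.2]
  · rw [om_le hε.le]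
    intro t ht
    set i : ℤ := ⌊t / h⌋ with hi
    have h1 : (i : ℝ) * h ≤ t := by
      rw [← le_div_iff₀ hpos]; exact Int.floor_le _
    have h2 : t < ((i : ℝ) + 1) * h := by
      rw [← div_lt_iff₀ hpos]; exact Int.lt_floor_add_one _
    have hi0 : 0 ≤ i := Int.floor_nonneg.mpr (div_nonneg ht.1 hpos.le)
    obtain ⟨m, hm⟩ := Int.eq_ofNat_of_zero_le hi0
    have him : (i : ℝ) = (m : ℝ) := by rw [hm]; simp
    have hsub : ∫ s in (0 : ℝ)..t, (v - u).1 s = (∫ s in (0 : ℝ)..t, vf s) - U t := by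
      show ∫ s in (0 : ℝ)..t, (vf s - u.1 s) = _
      rw [intervalIntegral.integral_sub (hvint _ _) (BM_int u _ _)]
    have hadj := intervalIntegral.integral_add_adjacent_intervals
        (hvint 0 ((m : ℝ) * h)) (hvint ((m : ℝ) * h) t)
    rw [hnode m] at hadj
    rw [hsub, ← hadj]
    rw [him] at h1 h2
    have hb1 : |∫ s in ((m : ℝ) * h)..t, vf s| ≤ h := by
      have h3 := intervalIntegral.norm_integral_le_of_norm_le_const (a := (m : ℝ) * h) (b := t)
        (f := vf) (C := 1) (fun x _ => hvb x)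
      rw [Real.norm_eq_abs, one_mul, abs_of_nonneg (sub_nonneg.mpr h1)] at h3
      linarith
    have hb2 : |U t - U ((m : ℝ) * h)| ≤ h := by
      refine (hUb _ _).trans ?_
      rw [abs_of_nonneg (sub_nonneg.mpr h1)]
      linarith
    have h4 : U ((m : ℝ) * h) + (∫ s in ((m : ℝ) * h)..t, vf s) - U t
        = (∫ s in ((m : ℝ) * h)..t, vf s) - (U t - U ((m : ℝ) * h)) := by ring
    rw [h4]
    refine (abs_sub _ _).trans ?_
    linarith

end Pool.Agent.Lib.MP_28b8de_an
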