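import Pool.Agent.Lib.MP_28b8de_an.CoreB

/-!
MP_28b8de_an, module Core: the core theorem.
-/

namespace Pool.Agent.Lib.MP_28b8de_an

open Filter Topology Set MeasureTheory

/-- the pairing of multipliers with values -/
def pairN {k m : ℕ} (x : Fin k → ℝ) (y : Fin m → ℝ) : Mul k m →ₗ[ℝ] ℝ where
  toFun ν := ∑ i, ν.1 i * x i + ∑ j, ν.2 j * y j
  map_add' ν ν' := by
    simp only [Prod.fst_add, Prod.snd_add, Pi.add_apply, add_mul, Finset.sum_add_distrib]
    ring
  map_smul' r ν := by
    simp only [Prod.smul_fst, Prod.smul_snd, Pi.smul_apply, smul_eq_mul, RingHom.id_apply, mul_add,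
      Finset.mul_sum, mul_assoc]

theorem pairN_apply {k m : ℕ} (x : Fin k → ℝ) (y : Fin m → ℝ) (ν : Mul k m) :
    pairN x y ν = ∑ i, ν.1 i * x i + ∑ j, ν.2 j * y j := rfl

/-- `ξ_i(T)` as a linear map of the control -/
noncomputable def xiM {k : ℕ} {b : Fin k → ℝ → ℝ} (hb : ∀ i, AnalyticOnNhd ℝ (b i) univ) (T : ℝ)
    (i : Fin k) : BM →ₗ[ℝ] ℝ where
  toFun u := xi b u.1 i T
  map_add' u v := xi_add hb i u v T
  map_smul' r u := xi_smul i r u T

variable {k m : ℕ} {b : Fin k → ℝ → ℝ} {D : Fin m → Dat k} {T : ℝ}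

theorem varN_zero (hb : ∀ i, AnalyticOnNhd ℝ (b i) univ) (hD : ∀ j, (D j).An) (hT : 0 ≤ T)
    {u : BM} {ν : Mul k m} (hν : ∀ t ∈ Icc 0 T, phiN b D T u.1 ν t = 0) (w : BM) :
    varN b D T u.1 ν w.1 = 0 := by
  rw [varN_eq hb hD]
  have : ∫ t in (0 : ℝ)..T, phiN b D T u.1 ν t * w.1 t = ∫ _t in (0 : ℝ)..T, (0 : ℝ) := by
    apply intervalIntegral.integral_congr
    intro t ht
    rw [uIcc_of_le hT] at ht
    show phiN b D T u.1 ν t * w.1 t = 0
    rw [hν t ht, zero_mul]
  rw [this]
  simp

theorem quad_zero (hb : ∀ i, AnalyticOnNhd ℝ (b i) univ) (hD : ∀ j, (D j).An)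
    {ν : Mul k m} (hν : ∀ t s, kerN b D ν t s = 0) (w : BM) (hη : ∀ i, xi b w.1 i T = 0) :
    ∑ j, ν.2 j * bilJ b (D j) T w.1 w.1 = 0 := by
  obtain ⟨K, hK0, hK⟩ := BM_bdd w
  have h1 : ∀ j, ν.2 j * bilJ b (D j) T w.1 w.1
      = (1 / 2) * ∫ t in (0 : ℝ)..T,
        ν.2 j * ((∑ i, aJ b (D j) i t * xi (cJ b (D j)) w.1 i t) * w.1 t) := by
    intro j
    rw [intervalIntegral.integral_const_mul, ← two_bilJ hb (hD j) T w hη]
    ring
  have hcx : ∀ j, Continuous fun t => ∑ i, aJ b (D j) i t * xi (cJ b (D j)) w.1 i t := by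
    intro j
    apply continuous_finsetSum
    intro i _
    exact (continuous_of_analytic (aJ_an hb (hD j) i)).mul
      (xi_cont (cJ_an hb (hD j)) (BM_meas w) hK i)
  rw [Finset.sum_congr rfl (fun j _ => h1 j), ← Finset.mul_sum,
    ← intervalIntegral.integral_finsetSum
      (fun j _ => (intInt (hcx j) (BM_meas w) hK 0 T).const_mul _)]
  have h2 : ∀ t, ∑ j, ν.2 j * ((∑ i, aJ b (D j) i t * xi (cJ b (D j)) w.1 i t) * w.1 t) = 0 := by
    intro t
    have h3 := ker_sum (a := aN b D ν) (cN_an hb hD) (BM_meas w) hK t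
    have h4 : ∫ s in (0 : ℝ)..t, (∑ x, aN b D ν x t * cN b D x s) * w.1 s = 0 := by
      have : (fun s => (∑ x, aN b D ν x t * cN b D x s) * w.1 s) = fun _ => (0 : ℝ) := by
        ext s
        rw [kerN_eq, hν t s, zero_mul]
      rw [this]
      simp
    rw [h4, Fintype.sum_prod_type] at h3
    have h5 : ∑ j, ν.2 j * ((∑ i, aJ b (D j) i t * xi (cJ b (D j)) w.1 i t) * w.1 t)
        = (∑ j, ∑ i, aN b D ν (j, i) t * xi (cN b D) w.1 (j, i) t) * w.1 t := by
      rw [Finset.sum_mul]
      apply Finset.sum_congr rfl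
      intro j _
      rw [← mul_assoc, Finset.mul_sum]
      congr 1
      apply Finset.sum_congr rfl
      intro i _
      rw [← mul_assoc]
      rfl
    rw [h5, h3, zero_mul]
  rw [intervalIntegral.integral_congr (fun t _ => h2 t)]
  simp

/-- **Core theorem.** -/
theorem core (hb : ∀ i, AnalyticOnNhd ℝ (b i) univ) (hD : ∀ j, (D j).An) {u : BM}
    (hu : u ∈ UU) :
    ∃ v : BM, v ∈ UU ∧ (SwSet T v.1).Countable ∧ (∀ i, xi b v.1 i T = xi b u.1 i T) ∧
      ∀ j, linJ b (D j) T v.1 + bilJ b (D j) T v.1 v.1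
        = linJ b (D j) T u.1 + bilJ b (D j) T u.1 u.1 := by
  by_cases hunc : (SwSet T u.1).Countable
  · exact ⟨u, hu, hunc, fun _ => rfl, fun _ => rfl⟩
  have hT : 0 < T := by
    by_contra hT
    push Not at hT
    apply hunc
    apply (countable_singleton (0 : ℝ)).mono
    intro t ht
    exact le_antisymm (ht.1.2.trans hT) ht.1.1
  choose Lin hLin CL hCL0 hCL using fun j => exists_linM hb (hD j) hT.le
  choose Bil hBil CB hCB0 hCB using fun j => exists_bilM hb (hD j) hT.le
  obtain ⟨Cx, hCx0, hCx⟩ := xi_bound hb hT.le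
  -- expansion of the functionals
  have hval : ∀ (ν : Mul k m) (w : BM), valN b D T ν (u + w).1
      = valN b D T ν u.1 + varN b D T u.1 ν w.1 + ∑ j, ν.2 j * bilJ b (D j) T w.1 w.1 := by
    intro ν w
    unfold valN varN
    have h1 : ∀ i, xi b (u + w).1 i T = xi b u.1 i T + xi b w.1 i T := fun i =>
      xi_add hb i u w T
    have h2 : ∀ j, linJ b (D j) T (u + w).1 + bilJ b (D j) T (u + w).1 (u + w).1
        = (linJ b (D j) T u.1 + bilJ b (D j) T u.1 u.1)
          + (linJ b (D j) T w.1 + bilJ b (D j) T u.1 w.1 + bilJ b (D j) T w.1 u.1)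
          + bilJ b (D j) T w.1 w.1 := by
      intro j
      simp only [← hLin, ← hBil, map_add, LinearMap.add_apply]
      ring
    simp only [h1, h2, mul_add, Finset.sum_add_distrib]
    ring
  -- subspaces
  obtain ⟨L1, hcompl, hX⟩ := exists_sub (Lam0 b D T u.1) (XX k m)
  set bas := Module.finBasis ℝ L1 with hbas
  set p := Module.finrank ℝ L1 with hp
  set nu : Fin p → Mul k m := fun r => (bas r : Mul k m) with hnu
  set l : BM →ₗ[ℝ] (Fin p → ℝ) :=
    LinearMap.pi fun r => ∑ i, (nu r).1 i • xiM hb T i + ∑ j, (nu r).2 j • Lin j with hl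
  set B : BM →ₗ[ℝ] BM →ₗ[ℝ] (Fin p → ℝ) :=
    LinearMap.mk₂ ℝ (fun v w => fun r => ∑ j, (nu r).2 j * Bil j v w)
      (by
        intro v v' w
        ext r
        simp only [map_add, LinearMap.add_apply, mul_add, Finset.sum_add_distrib, Pi.add_apply])
      (by
        intro s v w
        ext r
        simp only [map_smul, LinearMap.smul_apply, smul_eq_mul, Pi.smul_apply, Finset.mul_sum]
        apply Finset.sum_congr rfl
        intro j _
        ring)
      (by
        intro v w w'
        ext r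
        simp only [map_add, mul_add, Finset.sum_add_distrib, Pi.add_apply])
      (by
        intro s v w
        ext r
        simp only [map_smul, smul_eq_mul, Pi.smul_apply, Finset.mul_sum]
        apply Finset.sum_congr rfl
        intro j _
        ring) with hB
  have hlr : ∀ v r, l v r = ∑ i, (nu r).1 i * xi b v.1 i T
      + ∑ j, (nu r).2 j * linJ b (D j) T v.1 := by
    intro v r
    simp only [hl, LinearMap.pi_apply, LinearMap.add_apply, LinearMap.sum_apply,
      LinearMap.smul_apply, smul_eq_mul, hLin]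
    rfl
  have hBr : ∀ v w r, B v w r = ∑ j, (nu r).2 j * bilJ b (D j) T v.1 w.1 := by
    intro v w r
    simp only [hB, LinearMap.mk₂_apply, hBil]
  -- constants
  set Cr : Fin p → ℝ := fun r =>
    ∑ i, |(nu r).1 i| * Cx + ∑ j, |(nu r).2 j| * (CL j + CB j) with hCr
  have hCr0 : ∀ r, 0 ≤ Cr r := by
    intro r
    apply add_nonneg
    · exact Finset.sum_nonneg fun i _ => mul_nonneg (abs_nonneg _) hCx0
    · exact Finset.sum_nonneg fun j _ => mul_nonneg (abs_nonneg _) (add_nonneg (hCL0 j) (hCB0 j))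
  set C : ℝ := ∑ r, Cr r + T with hC
  have hCrC : ∀ r, Cr r ≤ C := by
    intro r
    have := Finset.single_le_sum (f := Cr) (fun r _ => hCr0 r) (Finset.mem_univ r)
    linarith
  have hC0 : 0 ≤ C := by
    have : 0 ≤ ∑ r, Cr r := Finset.sum_nonneg fun r _ => hCr0 r
    linarith
  have hTC : T ≤ C := by
    have : 0 ≤ ∑ r, Cr r := Finset.sum_nonneg fun r _ => hCr0 r
    linarith
  have hbdl : ∀ v, ‖l v‖ ≤ C * om T v := by
    intro v
    have hom0 : 0 ≤ om T v := apply_nonneg _ _
    rw [pi_norm_le_iff_of_nonneg (mul_nonneg hC0 hom0)]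
    intro r
    rw [Real.norm_eq_abs, hlr]
    calc |∑ i, (nu r).1 i * xi b v.1 i T + ∑ j, (nu r).2 j * linJ b (D j) T v.1|
        ≤ |∑ i, (nu r).1 i * xi b v.1 i T| + |∑ j, (nu r).2 j * linJ b (D j) T v.1| :=
          abs_add_le _ _
      _ ≤ ∑ i, |(nu r).1 i| * Cx * om T v + ∑ j, |(nu r).2 j| * (CL j + CB j) * om T v := by
          apply add_le_add
          · apply (Finset.abs_sum_le_sum_abs _ _).trans
            apply Finset.sum_le_sum
            intro i _
            rw [abs_mul, mul_assoc]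
            exact mul_le_mul_of_nonneg_left (hCx i v T ⟨hT.le, le_rfl⟩) (abs_nonneg _)
          · apply (Finset.abs_sum_le_sum_abs _ _).trans
            apply Finset.sum_le_sum
            intro j _
            rw [abs_mul, mul_assoc]
            apply mul_le_mul_of_nonneg_left _ (abs_nonneg _)
            have h1 := hCL j v
            have h2 := mul_nonneg (hCB0 j) hom0
            linarith
      _ = Cr r * om T v := by
          rw [hCr, add_mul, Finset.sum_mul, Finset.sum_mul]
      _ ≤ C * om T v := mul_le_mul_of_nonneg_right (hCrC r) hom0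
  have hbdB : ∀ v w : BM, ∀ y : ℝ, 0 ≤ y → (∀ j, |bilJ b (D j) T v.1 w.1| ≤ CB j * y) →
      ‖B v w‖ ≤ C * y := by
    intro v w y hy hvw
    rw [pi_norm_le_iff_of_nonneg (mul_nonneg hC0 hy)]
    intro r
    rw [Real.norm_eq_abs, hBr]
    calc |∑ j, (nu r).2 j * bilJ b (D j) T v.1 w.1|
        ≤ ∑ j, |(nu r).2 j| * (CL j + CB j) * y := by
          apply (Finset.abs_sum_le_sum_abs _ _).trans
          apply Finset.sum_le_sum
          intro j _
          rw [abs_mul, mul_assoc]
          apply mul_le_mul_of_nonneg_left _ (abs_nonneg _)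
          have h1 := hvw j
          have h2 := mul_nonneg (hCL0 j) hy
          linarith
      _ = (∑ j, |(nu r).2 j| * (CL j + CB j)) * y := by rw [Finset.sum_mul]
      _ ≤ Cr r * y := by
          apply mul_le_mul_of_nonneg_right _ hy
          have : 0 ≤ ∑ i, |(nu r).1 i| * Cx :=
            Finset.sum_nonneg fun i _ => mul_nonneg (abs_nonneg _) hCx0
          rw [hCr]
          linarith
      _ ≤ C * y := mul_le_mul_of_nonneg_right (hCrC r) hy
  -- apply the open mapping lemma
  obtain ⟨v, hvD, hv⟩ := open_map (om T) l B convex_UU (convex_DD T) (DD_subset T)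
    (fun u hu ε hε => dense_DD hT hu hε) hC0
    (fun u hu => (om_UU hT.le hu).trans hTC) hbdl
    (fun u hu v => hbdB u v _ (apply_nonneg _ _) fun j => (hCB j u hu v).1)
    (fun u hu v => hbdB v u _ (apply_nonneg _ _) fun j => (hCB j u hu v).2) hu
    (by
      intro lam hlam
      set x : L1 := bas.equivFun.symm lam with hx
      have hx0 : x ≠ 0 := by
        intro h0
        apply hlam
        have := congrArg bas.equivFun h0
        rw [hx, LinearEquiv.apply_symm_apply, map_zero] at this
        exact this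
      have hxsum : (x : Mul k m) = ∑ r, lam r • nu r := by
        rw [hx, Module.Basis.equivFun_symm_apply]
        simp [hnu]
      have hxL : (x : Mul k m) ∉ Lam0 b D T u.1 := by
        intro h
        apply hx0
        have h1 : (x : Mul k m) ∈ Lam0 b D T u.1 ⊓ L1 := ⟨h, x.2⟩
        rw [hcompl.inf_eq_bot, Submodule.mem_bot] at h1
        exact Subtype.ext h1
      obtain ⟨w, hwU, hw⟩ := ascent hb hD hT hu hunc (ν := (x : Mul k m)) hxL
      refine ⟨w, hwU, ?_⟩
      have hlin : varN b D T u.1 (x : Mul k m) (w - u).1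
          = ∑ r, lam r * varN b D T u.1 (nu r) (w - u).1 := by
        have h1 : ∀ ν : Mul k m, varN b D T u.1 ν (w - u).1
            = pairN (fun i => xi b (w - u).1 i T) (fun j => linJ b (D j) T (w - u).1
              + bilJ b (D j) T u.1 (w - u).1 + bilJ b (D j) T (w - u).1 u.1) ν := fun _ => rfl
        rw [h1, hxsum, map_sum]
        apply Finset.sum_congr rfl
        intro r _
        rw [map_smul, smul_eq_mul, h1]
      rw [hlin] at hw
      convert hw using 1
      apply Finset.sum_congr rfl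
      intro r _
      congr 1
      simp only [Pi.add_apply]
      rw [hlr, hBr, hBr]
      unfold varN
      simp only [mul_add, Finset.sum_add_distrib]
      ring)
  -- the coincidence subspace
  set S : Submodule ℝ (Mul k m) := LinearMap.eqLocus
    (pairN (fun i => xi b v.1 i T) (fun j => linJ b (D j) T v.1 + bilJ b (D j) T v.1 v.1))
    (pairN (fun i => xi b u.1 i T) (fun j => linJ b (D j) T u.1 + bilJ b (D j) T u.1 u.1)) with hS
  have hmemS : ∀ ν : Mul k m, ν ∈ S ↔ valN b D T ν v.1 = valN b D T ν u.1 := fun _ => Iff.rfl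
  have hL1S : L1 ≤ S := by
    have h1 : (pairN (fun i => xi b v.1 i T)
          (fun j => linJ b (D j) T v.1 + bilJ b (D j) T v.1 v.1)).comp L1.subtype
        = (pairN (fun i => xi b u.1 i T)
          (fun j => linJ b (D j) T u.1 + bilJ b (D j) T u.1 u.1)).comp L1.subtype := by
      apply bas.ext
      intro r
      show valN b D T (nu r) v.1 = valN b D T (nu r) u.1
      have h2 := congrFun hv r
      simp only [Pi.add_apply] at h2
      rw [hlr, hlr, hBr, hBr] at h2
      unfold valN
      simp only [mul_add, Finset.sum_add_distrib]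
      linarith
    intro ν hν
    exact LinearMap.congr_fun h1 ⟨ν, hν⟩
  set w : BM := v - u with hw
  have hvw : v = u + w := by rw [hw]; abel
  have hLX : Lam0 b D T u.1 ⊓ XX k m ≤ S := by
    rintro ν ⟨hν1, hν2⟩
    rw [hmemS, hvw, hval, varN_zero hb hD hT.le hν1.1 w]
    have : ν.2 = 0 := hν2
    simp [this]
  have hXS : XX k m ≤ S :=
    hX.trans (sup_le hLX (inf_le_left.trans hL1S))
  have hxi : ∀ i, xi b v.1 i T = xi b u.1 i T := by
    intro i
    have h1 : ((Pi.single i 1, 0) : Mul k m) ∈ XX k m := by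
      rw [mem_XX]
    have h2 := (hmemS _).1 (hXS h1)
    unfold valN at h2
    simpa [Pi.single_apply] using h2
  have hη : ∀ i, xi b w.1 i T = 0 := by
    intro i
    have h1 := xi_add hb i u w T
    rw [← hvw, hxi i] at h1
    linarith
  have hL0S : Lam0 b D T u.1 ≤ S := by
    intro ν hν
    rw [hmemS, hvw, hval, varN_zero hb hD hT.le hν.1 w, quad_zero hb hD hν.2 w hη]
    ring
  have htop : ∀ ν : Mul k m, ν ∈ S := by
    intro ν
    have h1 : (⊤ : Submodule ℝ (Mul k m)) ≤ S := by
      rw [← hcompl.sup_eq_top]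
      exact sup_le hL0S hL1S
    exact h1 (Submodule.mem_top)
  refine ⟨v, hvD.1, hvD.2, hxi, fun j => ?_⟩
  have h2 := (hmemS _).1 (htop ((0, Pi.single j 1) : Mul k m))
  unfold valN at h2
  simpa [Pi.single_apply] using h2

end Pool.Agent.Lib.MP_28b8de_an
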