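import Pool.Agent.Lib.MP_28b8de_an.LQDefs

/-!
MP_28b8de_an, module LQLin (MSW-LC): linJ is linear, bilJ is bilinear, and both are continuous for
the weak seminorm.

PROOFS.  Linearity: xi b (u+v) = xi b u + xi b v (integrability: intInt), then
intervalIntegral.integral_add (all integrands are sums of products of continuous functions and
bounded measurable ones: IntervalIntegrable by intInt (ψ continuous, u ∈ BM), continuity of xi: xi_cont).
Bounds: W(t) = ∫_0^t v, |W| ≤ om v on [0,T].  For f absolutely continuous with f' = f₁ a.e. (bounded):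
∫_0^t f v = f(t) W(t) - ∫_0^t f₁ W, so |∫_0^t f v| ≤ (sup|f| + T sup|f₁|) om v.  Applied to f = b_i:
|ξ_i(v)| ≤ C om v on [0,T]; to f = κ; to f = ∑ k_i ξ_i(u) (f' = ∑ k_i' ξ_i(u) + k_i b_i u a.e., bounded uniformly
for u ∈ UU since |ξ_i(u)| ≤ ∫|b_i|) for the term ∫ v ∑ k_i ξ_i(u) of bilJ v u.  All other terms are bounded by
sup-norms of the coefficients and |ξ_i(v)| ≤ C om v, |ξ_i(u)| ≤ C.
-/

namespace Pool.Agent.Lib.MP_28b8de_an

open Filter Topology Set MeasureTheory

variable {k : ℕ} {b : Fin k → ℝ → ℝ} {D : Dat k}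

/-! ### auxiliary lemmas -/

theorem LQLin_bound {ι : Type*} [Fintype ι] {f : ι → ℝ → ℝ} (hf : ∀ i, Continuous (f i)) (T : ℝ) :
    ∃ K : ℝ, 0 ≤ K ∧ ∀ i, ∀ t ∈ Icc (0 : ℝ) T, |f i t| ≤ K := by
  have h : ∀ i, ∃ K : ℝ, 0 ≤ K ∧ ∀ t ∈ Icc (0 : ℝ) T, |f i t| ≤ K := by
    intro i
    obtain ⟨K, hK⟩ := isCompact_Icc.exists_bound_of_continuousOn
      ((hf i).continuousOn (s := Icc (0 : ℝ) T))
    exact ⟨max K 0, le_max_right _ _, fun t ht => (hK t ht).trans (le_max_left _ _)⟩
  choose K hK0 hK using h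
  refine ⟨∑ i, K i, Finset.sum_nonneg fun i _ => hK0 i, fun i t ht => (hK i t ht).trans ?_⟩
  exact Finset.single_le_sum (fun j _ => hK0 j) (Finset.mem_univ i)

theorem LQLin_sum {ι : Type*} [Fintype ι] {f : ι → ℝ} {M : ℝ} (h : ∀ i, |f i| ≤ M) :
    |∑ i, f i| ≤ Fintype.card ι * M := by
  refine (Finset.abs_sum_le_sum_abs _ _).trans ?_
  refine (Finset.sum_le_sum fun i _ => h i).trans ?_
  rw [Finset.sum_const, nsmul_eq_mul, Finset.card_univ]

theorem LQLin_int_le {f : ℝ → ℝ} {T M : ℝ} (hT : 0 ≤ T) (h : ∀ t ∈ Icc (0 : ℝ) T, |f t| ≤ M) :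
    |∫ t in (0 : ℝ)..T, f t| ≤ M * T := by
  have := intervalIntegral.norm_integral_le_of_norm_le_const (a := (0 : ℝ)) (b := T) (f := f)
    (C := M) (fun x hx => by
      rw [uIoc_of_le hT] at hx
      exact h x ⟨hx.1.le, hx.2⟩)
  rw [Real.norm_eq_abs, sub_zero, abs_of_nonneg hT] at this
  exact this

/-- integration against a weakly small function -/
theorem LQLin_ibp {f f₁ : ℝ → ℝ} {T K₀ K₁ : ℝ}
    (hac : ∀ s t, AbsolutelyContinuousOnInterval f s t) (hf1 : ∀ᵐ t, HasDerivAt f (f₁ t) t)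
    (h0 : ∀ t ∈ Icc (0 : ℝ) T, |f t| ≤ K₀) (h1 : ∀ t ∈ Icc (0 : ℝ) T, |f₁ t| ≤ K₁) (v : BM)
    {t : ℝ} (ht : t ∈ Icc (0 : ℝ) T) :
    |∫ s in (0 : ℝ)..t, f s * v.1 s| ≤ (K₀ + T * K₁) * om T v := by
  have hT : (0 : ℝ) ≤ T := ht.1.trans ht.2
  have hom : 0 ≤ om T v := apply_nonneg (om T) v
  have hK₁ : 0 ≤ K₁ := (abs_nonneg _).trans (h1 0 ⟨le_rfl, hT⟩)
  set g : ℝ → ℝ := fun t => ∫ s in (0 : ℝ)..t, v.1 s with hg
  have hgac : AbsolutelyContinuousOnInterval g 0 t :=
    (BM_int v 0 t).absolutelyContinuousOnInterval_intervalIntegral (c := 0) (by simp)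
  have hgae : ∀ᵐ x, HasDerivAt g (v.1 x) x := by
    obtain ⟨K, hK0, hK⟩ := BM_bdd v
    have h := LocallyIntegrable.ae_hasDerivAt_integral
      (locInt (ψ := fun _ => (1 : ℝ)) continuous_const (BM_meas v) hK)
    filter_upwards [h] with x hx
    have := hx 0
    simpa using this
  have key := (hac 0 t).integral_mul_deriv_eq_deriv_mul hgac
  have e1 : ∫ x in (0 : ℝ)..t, f x * deriv g x = ∫ s in (0 : ℝ)..t, f s * v.1 s := by
    apply intervalIntegral.integral_congr_ae
    filter_upwards [hgae] with x hx _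
    rw [hx.deriv]
  have e2 : ∫ x in (0 : ℝ)..t, deriv f x * g x = ∫ x in (0 : ℝ)..t, f₁ x * g x := by
    apply intervalIntegral.integral_congr_ae
    filter_upwards [hf1] with x hx _
    rw [hx.deriv]
  have e3 : g 0 = 0 := by simp [hg]
  rw [e1, e2, e3, mul_zero, sub_zero] at key
  rw [key]
  have b1 : |f t * g t| ≤ K₀ * om T v := by
    rw [abs_mul]
    exact mul_le_mul (h0 t ht) (le_om v ht) (abs_nonneg _) ((abs_nonneg _).trans (h0 t ht))
  have b2 : |∫ x in (0 : ℝ)..t, f₁ x * g x| ≤ (K₁ * om T v) * t := by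
    apply LQLin_int_le ht.1
    intro s hs
    have hs' : s ∈ Icc (0 : ℝ) T := ⟨hs.1, hs.2.trans ht.2⟩
    rw [abs_mul]
    exact mul_le_mul (h1 s hs') (le_om v hs') (abs_nonneg _) hK₁
  have b3 : (K₁ * om T v) * t ≤ (K₁ * om T v) * T :=
    mul_le_mul_of_nonneg_left ht.2 (mul_nonneg hK₁ hom)
  calc |f t * g t - ∫ x in (0 : ℝ)..t, f₁ x * g x|
      ≤ |f t * g t| + |∫ x in (0 : ℝ)..t, f₁ x * g x| := abs_sub _ _
    _ ≤ K₀ * om T v + (K₁ * om T v) * T := add_le_add b1 (b2.trans b3)
    _ = (K₀ + T * K₁) * om T v := by ring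

theorem LQLin_ibp_an {f : ℝ → ℝ} (hf : AnalyticOnNhd ℝ f univ) (T : ℝ) :
    ∃ C : ℝ, 0 ≤ C ∧ ∀ v : BM, ∀ t ∈ Icc (0 : ℝ) T,
      |∫ s in (0 : ℝ)..t, f s * v.1 s| ≤ C * om T v := by
  obtain ⟨K₀, hK₀, h0⟩ := LQLin_bound (ι := Unit) (f := fun _ => f)
    (fun _ => continuous_of_analytic hf) T
  obtain ⟨K₁, hK₁, h1⟩ := LQLin_bound (ι := Unit) (f := fun _ => deriv f)
    (fun _ => continuous_of_analytic hf.deriv) T
  refine ⟨K₀ + |T| * K₁, by positivity, fun v t ht => ?_⟩
  have hT : (0 : ℝ) ≤ T := ht.1.trans ht.2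
  have := LQLin_ibp (f := f) (f₁ := deriv f) (T := T) (K₀ := K₀) (K₁ := K₁)
    (fun s t => ac_of_analytic hf s t)
    (Eventually.of_forall fun t => ((hf t (mem_univ t)).differentiableAt).hasDerivAt)
    (h0 ()) (h1 ()) v ht
  rwa [abs_of_nonneg hT]

theorem LQLin_om_UU {T : ℝ} (hT : 0 ≤ T) {u : BM} (hu : u ∈ UU) : om T u ≤ T := by
  rw [om_le hT]
  intro t ht
  have := LQLin_int_le (f := u.1) (M := 1) ht.1 (fun s _ => hu s)
  rw [one_mul] at this
  exact this.trans ht.2

theorem LQLin_xi_cont (hb : ∀ i, AnalyticOnNhd ℝ (b i) univ) (u : BM) (i : Fin k) :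
    Continuous (xi b u.1 i) := by
  obtain ⟨K, _, hK⟩ := BM_bdd u
  exact xi_cont hb (BM_meas u) hK i

theorem LQLin_intInt {ψ : ℝ → ℝ} (hψ : Continuous ψ) (u : BM) (s t : ℝ) :
    IntervalIntegrable (fun s => ψ s * u.1 s) volume s t := by
  obtain ⟨K, _, hK⟩ := BM_bdd u
  exact intInt hψ (BM_meas u) hK s t

/-! ### the module -/

theorem xi_add {b : Fin k → ℝ → ℝ} (hb : ∀ i, AnalyticOnNhd ℝ (b i) univ) (i : Fin k) (u v : BM)
    (t : ℝ) : xi b (u + v).1 i t = xi b u.1 i t + xi b v.1 i t := by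
  unfold xi
  rw [← intervalIntegral.integral_add (LQLin_intInt (continuous_of_analytic (hb i)) u _ _)
    (LQLin_intInt (continuous_of_analytic (hb i)) v _ _)]
  congr 1
  ext s
  show b i s * (u.1 s + v.1 s) = _
  ring

theorem xi_smul {b : Fin k → ℝ → ℝ} (i : Fin k) (r : ℝ) (u : BM)
    (t : ℝ) : xi b (r • u).1 i t = r * xi b u.1 i t := by
  unfold xi
  rw [← intervalIntegral.integral_const_mul]
  congr 1
  ext s
  show b i s * (r * u.1 s) = _
  ring

theorem xi_bound (hb : ∀ i, AnalyticOnNhd ℝ (b i) univ) {T : ℝ} (hT : 0 ≤ T) :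
    ∃ C : ℝ, 0 ≤ C ∧ ∀ i, ∀ v : BM, ∀ t ∈ Icc (0 : ℝ) T, |xi b v.1 i t| ≤ C * om T v := by
  choose C hC0 hC using fun i => LQLin_ibp_an (hb i) T
  refine ⟨∑ i, C i, Finset.sum_nonneg fun i _ => hC0 i, fun i v t ht => (hC i v t ht).trans ?_⟩
  apply mul_le_mul_of_nonneg_right _ (apply_nonneg (om T) v)
  exact Finset.single_le_sum (fun j _ => hC0 j) (Finset.mem_univ i)

theorem exists_linM (hb : ∀ i, AnalyticOnNhd ℝ (b i) univ) (hD : D.An) {T : ℝ} (hT : 0 ≤ T) :
    ∃ F : BM →ₗ[ℝ] ℝ, (∀ u, F u = linJ b D T u.1) ∧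
      ∃ C : ℝ, 0 ≤ C ∧ ∀ v, |linJ b D T v.1| ≤ C * om T v := by
  have hl : ∀ i, Continuous (D.l i) := fun i => continuous_of_analytic (hD.l i)
  have hka : Continuous D.ka := continuous_of_analytic hD.ka
  have c1 : ∀ u : BM, Continuous fun t => ∑ i, D.l i t * xi b u.1 i t := fun u =>
    continuous_finsetSum _ fun i _ => (hl i).mul (LQLin_xi_cont hb u i)
  have i1 : ∀ u : BM, IntervalIntegrable (fun t => ∑ i, D.l i t * xi b u.1 i t) volume 0 T :=
    fun u => (c1 u).intervalIntegrable _ _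
  have i2 : ∀ u : BM, IntervalIntegrable (fun t => D.ka t * u.1 t) volume 0 T :=
    fun u => LQLin_intInt hka u _ _
  refine ⟨{ toFun := fun u => linJ b D T u.1
            map_add' := ?_
            map_smul' := ?_ }, fun u => rfl, ?_⟩
  · intro u v
    unfold linJ
    rw [← intervalIntegral.integral_add ((i1 u).add (i2 u)) ((i1 v).add (i2 v))]
    congr 1
    ext t
    simp only [xi_add hb]
    have : (u + v).1 t = u.1 t + v.1 t := rfl
    rw [this]
    simp only [mul_add, Finset.sum_add_distrib]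
    ring
  · intro r u
    unfold linJ
    rw [RingHom.id_apply, smul_eq_mul, ← intervalIntegral.integral_const_mul]
    congr 1
    ext t
    simp only [xi_smul]
    have : (r • u).1 t = r * u.1 t := rfl
    rw [this, mul_add, Finset.mul_sum]
    congr 1
    · apply Finset.sum_congr rfl
      intro i _
      ring
    · ring
  · obtain ⟨C, hC0, hC⟩ := xi_bound hb hT
    obtain ⟨L, hL0, hL⟩ := LQLin_bound hl T
    obtain ⟨A, hA0, hA⟩ := LQLin_ibp_an hD.ka T
    refine ⟨k * (L * C) * T + A, by positivity, fun v => ?_⟩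
    have hom : 0 ≤ om T v := apply_nonneg (om T) v
    unfold linJ
    rw [intervalIntegral.integral_add (i1 v) (i2 v)]
    have e1 : |∫ t in (0 : ℝ)..T, ∑ i, D.l i t * xi b v.1 i t|
        ≤ (k * (L * (C * om T v))) * T := by
      apply LQLin_int_le hT
      intro t ht
      have := LQLin_sum (f := fun i => D.l i t * xi b v.1 i t) (M := L * (C * om T v)) (by
        intro i
        show |D.l i t * xi b v.1 i t| ≤ L * (C * om T v)
        rw [abs_mul]
        exact mul_le_mul (hL i t ht) (hC i v t ht) (abs_nonneg _) hL0)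
      rwa [Fintype.card_fin] at this
    have e2 := hA v T ⟨hT, le_rfl⟩
    calc |(∫ t in (0 : ℝ)..T, ∑ i, D.l i t * xi b v.1 i t) + ∫ t in (0 : ℝ)..T, D.ka t * v.1 t|
        ≤ _ + _ := abs_add_le _ _
      _ ≤ (k * (L * (C * om T v))) * T + A * om T v := add_le_add e1 e2
      _ = (k * (L * C) * T + A) * om T v := by ring

theorem exists_bilM (hb : ∀ i, AnalyticOnNhd ℝ (b i) univ) (hD : D.An) {T : ℝ} (hT : 0 ≤ T) :
    ∃ F : BM →ₗ[ℝ] BM →ₗ[ℝ] ℝ, (∀ u v, F u v = bilJ b D T u.1 v.1) ∧
      ∃ C : ℝ, 0 ≤ C ∧ ∀ u ∈ UU, ∀ v, |bilJ b D T u.1 v.1| ≤ C * om T v ∧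
        |bilJ b D T v.1 u.1| ≤ C * om T v := by
  have hQ : ∀ i i', Continuous (D.Q i i') := fun i i' => continuous_of_analytic (hD.Q i i')
  have hk : ∀ i, Continuous (D.kk i) := fun i => continuous_of_analytic (hD.kk i)
  have c1 : ∀ u v : BM, Continuous fun t => ∑ i, ∑ i', D.Q i i' t * xi b u.1 i t * xi b v.1 i' t :=
    fun u v => continuous_finsetSum _ fun i _ => continuous_finsetSum _ fun i' _ =>
      ((hQ i i').mul (LQLin_xi_cont hb u i)).mul (LQLin_xi_cont hb v i')
  have c2 : ∀ v : BM, Continuous fun t => ∑ i, D.kk i t * xi b v.1 i t := fun v =>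
    continuous_finsetSum _ fun i _ => (hk i).mul (LQLin_xi_cont hb v i)
  have i1 : ∀ u v : BM, IntervalIntegrable
      (fun t => ∑ i, ∑ i', D.Q i i' t * xi b u.1 i t * xi b v.1 i' t) volume 0 T :=
    fun u v => (c1 u v).intervalIntegrable _ _
  have i2 : ∀ u v : BM, IntervalIntegrable
      (fun t => u.1 t * ∑ i, D.kk i t * xi b v.1 i t) volume 0 T := by
    intro u v
    have := LQLin_intInt (c2 v) u 0 T
    refine this.congr ?_
    intro t _
    exact mul_comm _ _
  refine ⟨LinearMap.mk₂ ℝ (fun u v => bilJ b D T u.1 v.1) ?_ ?_ ?_ ?_, fun u v => rfl, ?_⟩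
  · intro u u' v
    show bilJ b D T (u + u').1 v.1 = _
    unfold bilJ
    rw [← intervalIntegral.integral_add ((i1 u v).add (i2 u v)) ((i1 u' v).add (i2 u' v))]
    congr 1
    ext t
    simp only [xi_add hb]
    have : (u + u').1 t = u.1 t + u'.1 t := rfl
    rw [this]
    simp only [mul_add, add_mul, Finset.sum_add_distrib]
    ring
  · intro r u v
    show bilJ b D T (r • u).1 v.1 = _
    unfold bilJ
    rw [smul_eq_mul, ← intervalIntegral.integral_const_mul]
    congr 1
    ext t
    simp only [xi_smul]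
    have : (r • u).1 t = r * u.1 t := rfl
    rw [this]
    simp only [mul_add, Finset.mul_sum]
    congr 1
    · apply Finset.sum_congr rfl
      intro i _
      apply Finset.sum_congr rfl
      intro i' _
      ring
    · apply Finset.sum_congr rfl
      intro i _
      ring
  · intro u v v'
    show bilJ b D T u.1 (v + v').1 = _
    unfold bilJ
    rw [← intervalIntegral.integral_add ((i1 u v).add (i2 u v)) ((i1 u v').add (i2 u v'))]
    congr 1
    ext t
    simp only [xi_add hb]
    simp only [mul_add, Finset.sum_add_distrib]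
    ring
  · intro r u v
    show bilJ b D T u.1 (r • v).1 = _
    unfold bilJ
    rw [smul_eq_mul, ← intervalIntegral.integral_const_mul]
    congr 1
    ext t
    simp only [xi_smul, mul_add, Finset.mul_sum]
    congr 1
    · apply Finset.sum_congr rfl
      intro i _
      apply Finset.sum_congr rfl
      intro i' _
      ring
    · apply Finset.sum_congr rfl
      intro i _
      ring
  · obtain ⟨C, hC0, hC⟩ := xi_bound hb hT
    obtain ⟨Q, hQ0, hQb⟩ := LQLin_bound (ι := Fin k × Fin k) (f := fun p => D.Q p.1 p.2)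
      (fun p => hQ p.1 p.2) T
    obtain ⟨L, hL0, hL⟩ := LQLin_bound hk T
    obtain ⟨L', hL'0, hL'⟩ := LQLin_bound (f := fun i => deriv (D.kk i))
      (fun i => continuous_of_analytic (hD.kk i).deriv) T
    obtain ⟨B, hB0, hB⟩ := LQLin_bound (f := b) (fun i => continuous_of_analytic (hb i)) T
    have hxu : ∀ u ∈ UU, ∀ i, ∀ t ∈ Icc (0 : ℝ) T, |xi b u.1 i t| ≤ C * T := by
      intro u hu i t ht
      exact (hC i u t ht).trans (mul_le_mul_of_nonneg_left (LQLin_om_UU hT hu) hC0)
    refine ⟨k * (k * (Q * (C * T) * C)) * T + k * (L * C) * T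
      + (k * (L * (C * T)) + T * (k * (L' * (C * T) + L * B))), by positivity, ?_⟩
    intro u hu v
    have hom : 0 ≤ om T v := apply_nonneg (om T) v
    -- the quadratic parts
    have q1 : |∫ t in (0 : ℝ)..T, ∑ i, ∑ i', D.Q i i' t * xi b u.1 i t * xi b v.1 i' t|
        ≤ (k * (k * (Q * (C * T) * (C * om T v)))) * T := by
      apply LQLin_int_le hT
      intro t ht
      have := LQLin_sum (f := fun i => ∑ i', D.Q i i' t * xi b u.1 i t * xi b v.1 i' t)
        (M := k * (Q * (C * T) * (C * om T v))) (by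
          intro i
          have := LQLin_sum (f := fun i' => D.Q i i' t * xi b u.1 i t * xi b v.1 i' t)
            (M := Q * (C * T) * (C * om T v)) (by
              intro i'
              show |D.Q i i' t * xi b u.1 i t * xi b v.1 i' t| ≤ _
              rw [abs_mul, abs_mul]
              exact mul_le_mul (mul_le_mul (hQb (i, i') t ht) (hxu u hu i t ht) (abs_nonneg _) hQ0)
                (hC i' v t ht) (abs_nonneg _) (by positivity))
          rwa [Fintype.card_fin] at this)
      rwa [Fintype.card_fin] at this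
    have q2 : |∫ t in (0 : ℝ)..T, ∑ i, ∑ i', D.Q i i' t * xi b v.1 i t * xi b u.1 i' t|
        ≤ (k * (k * (Q * (C * om T v) * (C * T)))) * T := by
      apply LQLin_int_le hT
      intro t ht
      have := LQLin_sum (f := fun i => ∑ i', D.Q i i' t * xi b v.1 i t * xi b u.1 i' t)
        (M := k * (Q * (C * om T v) * (C * T))) (by
          intro i
          have := LQLin_sum (f := fun i' => D.Q i i' t * xi b v.1 i t * xi b u.1 i' t)
            (M := Q * (C * om T v) * (C * T)) (by
              intro i'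
              show |D.Q i i' t * xi b v.1 i t * xi b u.1 i' t| ≤ _
              rw [abs_mul, abs_mul]
              exact mul_le_mul (mul_le_mul (hQb (i, i') t ht) (hC i v t ht) (abs_nonneg _) hQ0)
                (hxu u hu i' t ht) (abs_nonneg _) (by positivity))
          rwa [Fintype.card_fin] at this)
      rwa [Fintype.card_fin] at this
    -- the part `u k·ξ(v)`
    have l1 : |∫ t in (0 : ℝ)..T, u.1 t * ∑ i, D.kk i t * xi b v.1 i t|
        ≤ (1 * (k * (L * (C * om T v)))) * T := by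
      apply LQLin_int_le hT
      intro t ht
      rw [abs_mul]
      refine mul_le_mul (hu t) ?_ (abs_nonneg _) zero_le_one
      have := LQLin_sum (f := fun i => D.kk i t * xi b v.1 i t) (M := L * (C * om T v)) (by
        intro i
        show |D.kk i t * xi b v.1 i t| ≤ L * (C * om T v)
        rw [abs_mul]
        exact mul_le_mul (hL i t ht) (hC i v t ht) (abs_nonneg _) hL0)
      rwa [Fintype.card_fin] at this
    -- the part `v k·ξ(u)`
    obtain ⟨K, _, hK⟩ := BM_bdd u
    have l2 : |∫ t in (0 : ℝ)..T, v.1 t * ∑ i, D.kk i t * xi b u.1 i t|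
        ≤ (k * (L * (C * T)) + T * (k * (L' * (C * T) + L * B))) * om T v := by
      have e : (fun t => v.1 t * ∑ i, D.kk i t * xi b u.1 i t)
          = fun t => (∑ i, D.kk i t * xi b u.1 i t) * v.1 t := by
        ext t
        exact mul_comm _ _
      rw [e]
      refine LQLin_ibp (f := fun t => ∑ i, D.kk i t * xi b u.1 i t)
        (f₁ := fun t => ∑ i, (deriv (D.kk i) t * xi b u.1 i t + D.kk i t * (b i t * u.1 t)))
        ?_ ?_ ?_ ?_ v (t := T) ⟨hT, le_rfl⟩
      · intro s t
        have := Phi_ac (a := D.kk) (c := b) (ψ := fun _ => 0) (u := u.1) (K := K) hD.kk hb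
          (fun _ _ => analyticAt_const) (BM_meas u) hK 0 s t
        have e2 : Phi D.kk b (fun _ => 0) u.1 0 = fun t => ∑ i, D.kk i t * xi b u.1 i t := by
          ext t
          simp [Phi, iteratedDeriv_zero]
        rwa [e2] at this
      · have h1 : ∀ᵐ t, ∀ i, HasDerivAt (xi b u.1 i) (b i t * u.1 t) t := by
          rw [ae_all_iff]
          exact fun i => xi_ae hb (BM_meas u) hK i
        filter_upwards [h1] with t ht
        apply HasDerivAt.fun_sum
        intro i _
        exact ((hD.kk i t (mem_univ t)).differentiableAt.hasDerivAt).mul (ht i)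
      · intro t ht
        have := LQLin_sum (f := fun i => D.kk i t * xi b u.1 i t) (M := L * (C * T)) (by
          intro i
          show |D.kk i t * xi b u.1 i t| ≤ L * (C * T)
          rw [abs_mul]
          exact mul_le_mul (hL i t ht) (hxu u hu i t ht) (abs_nonneg _) hL0)
        rwa [Fintype.card_fin] at this
      · intro t ht
        have := LQLin_sum (f := fun i => deriv (D.kk i) t * xi b u.1 i t
            + D.kk i t * (b i t * u.1 t)) (M := L' * (C * T) + L * B) (by
          intro i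
          show |deriv (D.kk i) t * xi b u.1 i t + D.kk i t * (b i t * u.1 t)| ≤ _
          refine (abs_add_le _ _).trans (add_le_add ?_ ?_)
          · rw [abs_mul]
            exact mul_le_mul (hL' i t ht) (hxu u hu i t ht) (abs_nonneg _) hL'0
          · rw [abs_mul]
            refine mul_le_mul (hL i t ht) ?_ (abs_nonneg _) hL0
            rw [abs_mul]
            calc |b i t| * |u.1 t| ≤ B * 1 :=
                  mul_le_mul (hB i t ht) (hu t) (abs_nonneg _) hB0
              _ = B := mul_one _)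
        rwa [Fintype.card_fin] at this
    have n1 : 0 ≤ k * (L * C) * T * om T v := by positivity
    have n2 : 0 ≤ (k * (L * (C * T)) + T * (k * (L' * (C * T) + L * B))) * om T v := by
      positivity
    constructor
    · unfold bilJ
      rw [intervalIntegral.integral_add (i1 u v) (i2 u v)]
      refine (abs_add_le _ _).trans ((add_le_add q1 l1).trans ?_)
      have : (k * (k * (Q * (C * T) * (C * om T v)))) * T + (1 * (k * (L * (C * om T v)))) * T
          = (k * (k * (Q * (C * T) * C)) * T + k * (L * C) * T) * om T v := by ring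
      rw [this]
      nlinarith [n2]
    · unfold bilJ
      rw [intervalIntegral.integral_add (i1 v u) (i2 v u)]
      refine (abs_add_le _ _).trans ((add_le_add q2 l2).trans ?_)
      have : (k * (k * (Q * (C * om T v) * (C * T)))) * T
          = (k * (k * (Q * (C * T) * C)) * T) * om T v := by ring
      rw [this]
      nlinarith [n1]

end Pool.Agent.Lib.MP_28b8de_an
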