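import Pool.Agent.Lib.MP_28b8de_an.LQDefs

/-!
MP_28b8de_an, module LQRep (MSW-LA): the switching function of a linear-quadratic functional is of
relay form.

PROOF of phiJ_eq.  ∫_t^T G_i = ∫_0^T G_i - ∫_0^t G_i, and
∫_0^t G_i = ∑ i', ∫_0^t (Q_ii'+Q_i'i) ξ_i' + ∫_0^t l_i + ∫_0^t u k_i; integration by parts
(R_ii' ' = Q_ii'+Q_i'i, ξ_i' ' = b_i' u a.e.; both absolutely continuous, or by
`intervalIntegral.integral_mul_deriv_eq_deriv_mul`-type lemmas for a.e. derivatives; use xi_ac, xi_ae,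
ac_of_analytic and `AbsolutelyContinuousOnInterval.integral_deriv_eq_sub` for the product):
∫_0^t (Q_ii'+Q_i'i) ξ_i' = R_ii'(t) ξ_i'(t) - ∫_0^t R_ii' b_i' u.
Hence φ = psiJ + ∑_i k_i ξ_i - ∑_i b_i ∑_i' R_ii' ξ_i' + ∑_i b_i ∫_0^t (∑_i' R_ii' b_i' - k_i) u;
rename i,i' in the second sum: = psiJ + ∑ over Fin k ⊕ Fin k of aJ * xi (cJ)
(`Fintype.sum_sum_type`, `Finset.sum_comm`).
Analyticity: `analyticOnNhd_integral` (Prim.lean) and Finset.analyticAt_fun_sum.
-/

namespace Pool.Agent.Lib.MP_28b8de_an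

open Filter Topology Set MeasureTheory

variable {k : ℕ} {b : Fin k → ℝ → ℝ} {D : Dat k}

private theorem LQRep_sum {ι : Type*} {s : Finset ι} {f : ι → ℝ → ℝ}
    (hf : ∀ i ∈ s, AnalyticOnNhd ℝ (f i) univ) :
    AnalyticOnNhd ℝ (fun t => ∑ i ∈ s, f i t) univ := by
  intro t _
  apply Finset.analyticAt_fun_sum
  intro i hi
  exact hf i hi t (mem_univ t)

private theorem LQRep_RJ (hD : D.An) (i i' : Fin k) : AnalyticOnNhd ℝ (RJ D i i') univ := by
  have h : AnalyticOnNhd ℝ (fun s => D.Q i i' s + D.Q i' i s) univ :=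
    fun t ht => (hD.Q i i' t ht).add (hD.Q i' i t ht)
  exact analyticOnNhd_integral h 0

theorem aJ_an (hb : ∀ i, AnalyticOnNhd ℝ (b i) univ) (hD : D.An) (i : Fin k ⊕ Fin k) :
    AnalyticOnNhd ℝ (aJ b D i) univ := by
  rcases i with i | i
  · have h : AnalyticOnNhd ℝ (fun t => ∑ i', RJ D i' i t * b i' t) univ :=
      LQRep_sum fun i' _ t ht => (LQRep_RJ hD i' i t ht).mul (hb i' t ht)
    exact fun t ht => (hD.kk i t ht).sub (h t ht)
  · exact hb i

theorem cJ_an (hb : ∀ i, AnalyticOnNhd ℝ (b i) univ) (hD : D.An) (i : Fin k ⊕ Fin k) :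
    AnalyticOnNhd ℝ (cJ b D i) univ := by
  rcases i with i | i
  · exact hb i
  · have h : AnalyticOnNhd ℝ (fun t => ∑ i', RJ D i i' t * b i' t) univ :=
      LQRep_sum fun i' _ t ht => (LQRep_RJ hD i i' t ht).mul (hb i' t ht)
    exact fun t ht => (h t ht).sub (hD.kk i t ht)

theorem psiJ_an (hb : ∀ i, AnalyticOnNhd ℝ (b i) univ) (hD : D.An) (T : ℝ) (u : ℝ → ℝ) :
    AnalyticOnNhd ℝ (psiJ b D T u) univ := by
  have h : AnalyticOnNhd ℝ (fun t => ∑ i, b i t *
      ((∫ s in (0 : ℝ)..T, gJ b D u i s) - ∫ s in (0 : ℝ)..t, D.l i s)) univ :=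
    LQRep_sum fun i _ t ht => (hb i t ht).mul
      (analyticAt_const.sub (analyticOnNhd_integral (hD.l i) 0 t ht))
  exact fun t ht => (h t ht).add (hD.ka t ht)

private theorem LQRep_parts (hb : ∀ i, AnalyticOnNhd ℝ (b i) univ) (hD : D.An) (u : BM)
    (i i' : Fin k) (t : ℝ) :
    ∫ s in (0 : ℝ)..t, (D.Q i i' s + D.Q i' i s) * xi b u.1 i' s
      = RJ D i i' t * xi b u.1 i' t - ∫ s in (0 : ℝ)..t, RJ D i i' s * b i' s * u.1 s := by
  obtain ⟨K, -, hK⟩ := BM_bdd u
  have hx := xi_ac hb (BM_meas u) hK i' 0 t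
  have hR := ac_of_analytic (LQRep_RJ hD i i') 0 t
  have h1 := hx.integral_mul_deriv_eq_deriv_mul hR
  have hq : Continuous fun s => D.Q i i' s + D.Q i' i s :=
    (continuous_of_analytic (hD.Q i i')).add (continuous_of_analytic (hD.Q i' i))
  have hd : ∀ s, deriv (RJ D i i') s = D.Q i i' s + D.Q i' i s := fun s =>
    (hq.integral_hasStrictDerivAt 0 s).hasDerivAt.deriv
  have h0 : xi b u.1 i' 0 = 0 := by simp [xi]
  have h2 : ∫ s in (0 : ℝ)..t, xi b u.1 i' s * deriv (RJ D i i') s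
      = ∫ s in (0 : ℝ)..t, (D.Q i i' s + D.Q i' i s) * xi b u.1 i' s := by
    apply intervalIntegral.integral_congr
    intro s _
    show xi b u.1 i' s * deriv (RJ D i i') s = (D.Q i i' s + D.Q i' i s) * xi b u.1 i' s
    rw [hd]
    ring
  have h3 : ∫ s in (0 : ℝ)..t, deriv (xi b u.1 i') s * RJ D i i' s
      = ∫ s in (0 : ℝ)..t, RJ D i i' s * b i' s * u.1 s := by
    apply intervalIntegral.integral_congr_ae
    filter_upwards [xi_ae hb (BM_meas u) hK i'] with s hs _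
    rw [hs.deriv]
    ring
  rw [h2, h3, h0] at h1
  rw [h1]
  ring

private theorem LQRep_int_sum {ι : Type*} (S : Finset ι) (f : ι → ℝ → ℝ) (s t : ℝ)
    (hf : ∀ i ∈ S, IntervalIntegrable (f i) volume s t) :
    ∫ r in s..t, ∑ i ∈ S, f i r = ∑ i ∈ S, ∫ r in s..t, f i r := by
  exact intervalIntegral.integral_finsetSum hf

theorem phiJ_eq (hb : ∀ i, AnalyticOnNhd ℝ (b i) univ) (hD : D.An) (T : ℝ) (u : BM) (t : ℝ) :
    phiJ b D T u.1 t = psiJ b D T u.1 t + ∑ i, aJ b D i t * xi (cJ b D) u.1 i t := by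
  obtain ⟨K, -, hK⟩ := BM_bdd u
  have hum := BM_meas u
  have hxc : ∀ i, Continuous (xi b u.1 i) := fun i => xi_cont hb hum hK i
  have hqc : ∀ i i', Continuous fun s => D.Q i i' s + D.Q i' i s := fun i i' =>
    (continuous_of_analytic (hD.Q i i')).add (continuous_of_analytic (hD.Q i' i))
  have hlc : ∀ i, Continuous (D.l i) := fun i => continuous_of_analytic (hD.l i)
  have hkc : ∀ i, Continuous (D.kk i) := fun i => continuous_of_analytic (hD.kk i)
  have hRc : ∀ i i', Continuous (RJ D i i') := fun i i' =>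
    continuous_of_analytic (LQRep_RJ hD i i')
  have hbc : ∀ i, Continuous (b i) := fun i => continuous_of_analytic (hb i)
  -- integrability
  have I1 : ∀ (i i' : Fin k) (x y : ℝ), IntervalIntegrable
      (fun s => (D.Q i i' s + D.Q i' i s) * xi b u.1 i' s) volume x y := fun i i' x y =>
    ((hqc i i').mul (hxc i')).intervalIntegrable x y
  have I1s : ∀ (i : Fin k) (x y : ℝ), IntervalIntegrable
      (fun s => ∑ i', (D.Q i i' s + D.Q i' i s) * xi b u.1 i' s) volume x y := fun i x y =>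
    (continuous_finsetSum _ fun i' _ => (hqc i i').mul (hxc i')).intervalIntegrable x y
  have I2 : ∀ (i : Fin k) (x y : ℝ), IntervalIntegrable (D.l i) volume x y := fun i x y =>
    (hlc i).intervalIntegrable x y
  have I3 : ∀ (i : Fin k) (x y : ℝ), IntervalIntegrable (fun s => u.1 s * D.kk i s)
      volume x y := by
    intro i x y
    have := intInt (hkc i) hum hK x y
    exact this.congr_ae (Eventually.of_forall fun s => mul_comm _ _)
  have IG : ∀ (i : Fin k) (x y : ℝ), IntervalIntegrable (gJ b D u.1 i) volume x y := by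
    intro i x y
    exact ((I1s i x y).add (I2 i x y)).add (I3 i x y)
  have I4 : ∀ (i i' : Fin k) (x y : ℝ), IntervalIntegrable
      (fun s => RJ D i i' s * b i' s * u.1 s) volume x y := fun i i' x y =>
    intInt ((hRc i i').mul (hbc i')) hum hK x y
  have I4s : ∀ (i : Fin k) (x y : ℝ), IntervalIntegrable
      (fun s => ∑ i', RJ D i i' s * b i' s * u.1 s) volume x y := by
    intro i x y
    have h := intInt (ψ := fun s => ∑ i', RJ D i i' s * b i' s)
      (continuous_finsetSum _ fun i' _ => (hRc i i').mul (hbc i')) hum hK x y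
    refine h.congr_ae (Eventually.of_forall fun s => ?_)
    exact Finset.sum_mul _ _ _
  -- the integral of `G`
  have hG : ∀ i, ∫ s in t..T, gJ b D u.1 i s
      = (∫ s in (0 : ℝ)..T, gJ b D u.1 i s) - (∫ s in (0 : ℝ)..t, D.l i s)
        - ∑ i', RJ D i i' t * xi b u.1 i' t
        + ∫ s in (0 : ℝ)..t, (∑ i', RJ D i i' s * b i' s - D.kk i s) * u.1 s := by
    intro i
    have e1 : ∫ s in t..T, gJ b D u.1 i s
        = (∫ s in (0 : ℝ)..T, gJ b D u.1 i s) - ∫ s in (0 : ℝ)..t, gJ b D u.1 i s :=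
      (intervalIntegral.integral_interval_sub_left (IG i 0 T) (IG i 0 t)).symm
    have e2 : ∫ s in (0 : ℝ)..t, gJ b D u.1 i s
        = (∑ i', ∫ s in (0 : ℝ)..t, (D.Q i i' s + D.Q i' i s) * xi b u.1 i' s)
          + (∫ s in (0 : ℝ)..t, D.l i s) + ∫ s in (0 : ℝ)..t, u.1 s * D.kk i s := by
      rw [← LQRep_int_sum Finset.univ _ _ _ fun i' _ => I1 i i' 0 t,
        ← intervalIntegral.integral_add (I1s i 0 t) (I2 i 0 t),
        ← intervalIntegral.integral_add ((I1s i 0 t).add (I2 i 0 t)) (I3 i 0 t)]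
      rfl
    have e3 : ∫ s in (0 : ℝ)..t, (∑ i', RJ D i i' s * b i' s - D.kk i s) * u.1 s
        = (∑ i', ∫ s in (0 : ℝ)..t, RJ D i i' s * b i' s * u.1 s)
          - ∫ s in (0 : ℝ)..t, u.1 s * D.kk i s := by
      rw [← LQRep_int_sum Finset.univ _ _ _ fun i' _ => I4 i i' 0 t,
        ← intervalIntegral.integral_sub (I4s i 0 t) (I3 i 0 t)]
      apply intervalIntegral.integral_congr
      intro s _
      show (∑ i', RJ D i i' s * b i' s - D.kk i s) * u.1 s
        = ∑ i', RJ D i i' s * b i' s * u.1 s - u.1 s * D.kk i s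
      rw [sub_mul, Finset.sum_mul]
      ring
    have e4 : (∑ i', ∫ s in (0 : ℝ)..t, (D.Q i i' s + D.Q i' i s) * xi b u.1 i' s)
        = ∑ i', RJ D i i' t * xi b u.1 i' t
          - ∑ i', ∫ s in (0 : ℝ)..t, RJ D i i' s * b i' s * u.1 s := by
      rw [← Finset.sum_sub_distrib]
      exact Finset.sum_congr rfl fun i' _ => LQRep_parts hb hD u i i' t
    rw [e1, e2, e3, e4]
    ring
  have hxl : ∀ i, xi (cJ b D) u.1 (Sum.inl i) t = xi b u.1 i t := fun i => rfl
  have hxr : ∀ i, xi (cJ b D) u.1 (Sum.inr i) t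
      = ∫ s in (0 : ℝ)..t, (∑ i', RJ D i i' s * b i' s - D.kk i s) * u.1 s := fun i => rfl
  have hal : ∀ i, aJ b D (Sum.inl i) t = D.kk i t - ∑ i', RJ D i' i t * b i' t := fun i => rfl
  have har : ∀ i, aJ b D (Sum.inr i) t = b i t := fun i => rfl
  unfold phiJ psiJ
  rw [Fintype.sum_sum_type]
  simp only [hxl, hxr, hal, har, hG]
  have e5 : ∑ i, b i t * ∑ i', RJ D i i' t * xi b u.1 i' t
      = ∑ i, (∑ i', RJ D i' i t * b i' t) * xi b u.1 i t := by
    simp only [Finset.mul_sum, Finset.sum_mul]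
    rw [Finset.sum_comm]
    refine Finset.sum_congr rfl fun i _ => Finset.sum_congr rfl fun i' _ => ?_
    ring
  simp only [mul_add, mul_sub, sub_mul, Finset.sum_add_distrib, Finset.sum_sub_distrib]
  rw [e5]
  ring

end Pool.Agent.Lib.MP_28b8de_an
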