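import Pool.Agent.Lib.MP_28b8de_an.LQVar
import Pool.Agent.Lib.MP_28b8de_an.LQRep

/-!
MP_28b8de_an, module LQVar2: the quadratic remainder in terms of the kernel.
-/

namespace Pool.Agent.Lib.MP_28b8de_an

open Filter Topology Set MeasureTheory

variable {k : ℕ} {b : Fin k → ℝ → ℝ} {D : Dat k}

theorem two_bilJ (hb : ∀ i, AnalyticOnNhd ℝ (b i) univ) (hD : D.An) (T : ℝ) (w : BM)
    (hη : ∀ i, xi b w.1 i T = 0) :
    2 * bilJ b D T w.1 w.1
      = ∫ t in (0 : ℝ)..T, (∑ i, aJ b D i t * xi (cJ b D) w.1 i t) * w.1 t := by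
  set D0 : Dat k := ⟨D.Q, fun _ _ => 0, D.kk, fun _ => 0⟩ with hD0
  have hD0an : D0.An := ⟨hD.Q, fun _ _ _ => analyticAt_const, hD.kk, fun _ _ => analyticAt_const⟩
  have h1 := first_var hb hD0an T w w
  have h2 : linJ b D0 T w.1 = 0 := by
    unfold linJ
    simp [hD0]
  have h3 : bilJ b D0 T w.1 w.1 = bilJ b D T w.1 w.1 := rfl
  obtain ⟨K, hK0, hK⟩ := BM_bdd w
  have h4 : ∫ t in (0 : ℝ)..T, phiJ b D0 T w.1 t * w.1 t
      = ∫ t in (0 : ℝ)..T, (∑ i, aJ b D i t * xi (cJ b D) w.1 i t) * w.1 t := by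
    have h5 : ∀ t, phiJ b D0 T w.1 t * w.1 t
        = ∑ i, (∫ s in (0 : ℝ)..T, gJ b D0 w.1 i s) * (b i t * w.1 t)
          + (∑ i, aJ b D i t * xi (cJ b D) w.1 i t) * w.1 t := by
      intro t
      rw [phiJ_eq hb hD0an T w t]
      have h6 : psiJ b D0 T w.1 t = ∑ i, b i t * (∫ s in (0 : ℝ)..T, gJ b D0 w.1 i s) := by
        unfold psiJ
        simp [hD0]
      have h7 : ∑ i, aJ b D0 i t * xi (cJ b D0) w.1 i t
          = ∑ i, aJ b D i t * xi (cJ b D) w.1 i t := rfl
      rw [h6, h7, add_mul, Finset.sum_mul]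
      congr 1
      apply Finset.sum_congr rfl
      intro i _
      ring
    have hi1 : ∀ i, IntervalIntegrable
        (fun t => (∫ s in (0 : ℝ)..T, gJ b D0 w.1 i s) * (b i t * w.1 t)) volume 0 T := fun i =>
      (intInt (continuous_of_analytic (hb i)) (BM_meas w) hK 0 T).const_mul _
    have hcx : Continuous fun t => ∑ i, aJ b D i t * xi (cJ b D) w.1 i t := by
      apply continuous_finsetSum
      intro i _
      exact (continuous_of_analytic (aJ_an hb hD i)).mul (xi_cont (cJ_an hb hD) (BM_meas w) hK i)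
    have hi2 : IntervalIntegrable
        (fun t => (∑ i, aJ b D i t * xi (cJ b D) w.1 i t) * w.1 t) volume 0 T :=
      intInt hcx (BM_meas w) hK 0 T
    rw [intervalIntegral.integral_congr (fun t _ => h5 t), intervalIntegral.integral_add _ hi2,
      intervalIntegral.integral_finsetSum (fun i _ => hi1 i)]
    · have h8 : ∀ i, ∫ t in (0 : ℝ)..T, (∫ s in (0 : ℝ)..T, gJ b D0 w.1 i s) * (b i t * w.1 t)
          = 0 := by
        intro i
        rw [intervalIntegral.integral_const_mul]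
        have : ∫ t in (0 : ℝ)..T, b i t * w.1 t = 0 := hη i
        rw [this, mul_zero]
      rw [Finset.sum_congr rfl (fun i _ => h8 i)]
      simp
    · have h9 := IntervalIntegrable.sum Finset.univ fun i _ => hi1 i
      rw [Finset.sum_fn] at h9
      exact h9
  rw [h2, h3, h4] at h1
  linarith

end Pool.Agent.Lib.MP_28b8de_an
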