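import Pool.Agent.Lib.MP_28b8de_an.RelayMain
import Pool.Agent.Lib.MP_28b8de_an.LQVar2
import Pool.Agent.Lib.MP_28b8de_an.LQLin
import Pool.Agent.Lib.MP_28b8de_an.Approx

/-!
MP_28b8de_an, module CoreA: multipliers.
-/

namespace Pool.Agent.Lib.MP_28b8de_an

open Filter Topology Set MeasureTheory

/-- multipliers -/
abbrev Mul (k m : ℕ) := (Fin k → ℝ) × (Fin m → ℝ)

section

variable {k m : ℕ} (b : Fin k → ℝ → ℝ) (D : Fin m → Dat k) (T : ℝ) (u : ℝ → ℝ) (ν : Mul k m)

/-- the switching function of the multiplier `ν` -/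
noncomputable def phiN (t : ℝ) : ℝ := ∑ i, ν.1 i * b i t + ∑ j, ν.2 j * phiJ b (D j) T u t

/-- the kernel of the multiplier `ν` -/
noncomputable def kerN (t s : ℝ) : ℝ := ∑ j, ν.2 j * ∑ i, aJ b (D j) i t * cJ b (D j) i s

/-- the analytic part of the switching function of the multiplier `ν` -/
noncomputable def psiN (t : ℝ) : ℝ := ∑ i, ν.1 i * b i t + ∑ j, ν.2 j * psiJ b (D j) T u t

/-- the functions `a` of the multiplier `ν` -/
noncomputable def aN (x : Fin m × (Fin k ⊕ Fin k)) (t : ℝ) : ℝ := ν.2 x.1 * aJ b (D x.1) x.2 t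

/-- the functions `c` -/
noncomputable def cN (x : Fin m × (Fin k ⊕ Fin k)) (t : ℝ) : ℝ := cJ b (D x.1) x.2 t

/-- the first variation in the direction `w` of the functional of multiplier `ν` -/
noncomputable def varN (w : ℝ → ℝ) : ℝ :=
  ∑ i, ν.1 i * xi b w i T
    + ∑ j, ν.2 j * (linJ b (D j) T w + bilJ b (D j) T u w + bilJ b (D j) T w u)

/-- the functional of multiplier `ν` -/
noncomputable def valN (v : ℝ → ℝ) : ℝ :=
  ∑ i, ν.1 i * xi b v i T + ∑ j, ν.2 j * (linJ b (D j) T v + bilJ b (D j) T v v)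

end

variable {k m : ℕ} {b : Fin k → ℝ → ℝ} {D : Fin m → Dat k} {T : ℝ}

theorem phiN_eq (hb : ∀ i, AnalyticOnNhd ℝ (b i) univ) (hD : ∀ j, (D j).An) (u : BM)
    (ν : Mul k m) (t : ℝ) :
    phiN b D T u.1 ν t = Phi (aN b D ν) (cN b D) (psiN b D T u.1 ν) u.1 0 t := by
  unfold phiN Phi psiN
  simp only [iteratedDeriv_zero]
  rw [Fintype.sum_prod_type, add_assoc, ← Finset.sum_add_distrib]
  congr 1
  apply Finset.sum_congr rfl
  intro j _
  rw [phiJ_eq hb (hD j) T u t, mul_add, Finset.mul_sum]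
  congr 1
  apply Finset.sum_congr rfl
  intro i _
  rw [← mul_assoc]
  rfl

theorem kerN_eq (ν : Mul k m) (t s : ℝ) :
    ∑ x, aN b D ν x t * cN b D x s = kerN b D ν t s := by
  rw [Fintype.sum_prod_type]
  unfold kerN
  apply Finset.sum_congr rfl
  intro j _
  rw [Finset.mul_sum]
  apply Finset.sum_congr rfl
  intro i _
  unfold aN cN
  ring

theorem aN_an (hb : ∀ i, AnalyticOnNhd ℝ (b i) univ) (hD : ∀ j, (D j).An) (ν : Mul k m)
    (x : Fin m × (Fin k ⊕ Fin k)) : AnalyticOnNhd ℝ (aN b D ν x) univ := by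
  intro t ht
  unfold aN
  exact analyticAt_const.mul (aJ_an hb (hD x.1) x.2 t ht)

theorem cN_an (hb : ∀ i, AnalyticOnNhd ℝ (b i) univ) (hD : ∀ j, (D j).An)
    (x : Fin m × (Fin k ⊕ Fin k)) : AnalyticOnNhd ℝ (cN b D x) univ := by
  intro t ht
  exact cJ_an hb (hD x.1) x.2 t ht

theorem psiN_an (hb : ∀ i, AnalyticOnNhd ℝ (b i) univ) (hD : ∀ j, (D j).An) (u : ℝ → ℝ)
    (ν : Mul k m) : AnalyticOnNhd ℝ (psiN b D T u ν) univ := by
  intro t ht
  unfold psiN
  apply AnalyticAt.add
  · apply Finset.analyticAt_fun_sum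
    intro i _
    exact analyticAt_const.mul (hb i t ht)
  · apply Finset.analyticAt_fun_sum
    intro j _
    exact analyticAt_const.mul (psiJ_an hb (hD j) T u t ht)

theorem phiJ_cont (hb : ∀ i, AnalyticOnNhd ℝ (b i) univ) {D : Dat k} (hD : D.An) (T : ℝ)
    (u : BM) : Continuous (phiJ b D T u.1) := by
  obtain ⟨K, hK0, hK⟩ := BM_bdd u
  have h1 : phiJ b D T u.1 = fun t => psiJ b D T u.1 t
      + ∑ i, aJ b D i t * xi (cJ b D) u.1 i t := by
    ext t
    exact phiJ_eq hb hD T u t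
  rw [h1]
  apply (continuous_of_analytic (psiJ_an hb hD T u.1)).add
  apply continuous_finsetSum
  intro i _
  exact (continuous_of_analytic (aJ_an hb hD i)).mul (xi_cont (cJ_an hb hD) (BM_meas u) hK i)

theorem phiN_cont (hb : ∀ i, AnalyticOnNhd ℝ (b i) univ) (hD : ∀ j, (D j).An) (u : BM)
    (ν : Mul k m) : Continuous (phiN b D T u.1 ν) := by
  unfold phiN
  apply Continuous.add
  · apply continuous_finsetSum
    intro i _
    exact continuous_const.mul (continuous_of_analytic (hb i))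
  · apply continuous_finsetSum
    intro j _
    exact continuous_const.mul (phiJ_cont hb (hD j) T u)

theorem varN_eq (hb : ∀ i, AnalyticOnNhd ℝ (b i) univ) (hD : ∀ j, (D j).An) (u w : BM)
    (ν : Mul k m) :
    varN b D T u.1 ν w.1 = ∫ t in (0 : ℝ)..T, phiN b D T u.1 ν t * w.1 t := by
  obtain ⟨K, hK0, hK⟩ := BM_bdd w
  have h1 : ∀ t, phiN b D T u.1 ν t * w.1 t = (∑ i, ν.1 i * (b i t * w.1 t))
      + ∑ j, ν.2 j * (phiJ b (D j) T u.1 t * w.1 t) := by
    intro t
    unfold phiN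
    rw [add_mul, Finset.sum_mul, Finset.sum_mul]
    congr 1
    · apply Finset.sum_congr rfl
      intro i _
      ring
    · apply Finset.sum_congr rfl
      intro i _
      ring
  have hi1 : ∀ i, IntervalIntegrable (fun t => ν.1 i * (b i t * w.1 t)) volume 0 T := fun i =>
    (intInt (continuous_of_analytic (hb i)) (BM_meas w) hK 0 T).const_mul _
  have hi2 : ∀ j, IntervalIntegrable (fun t => ν.2 j * (phiJ b (D j) T u.1 t * w.1 t))
      volume 0 T := fun j =>
    (intInt (phiJ_cont hb (hD j) T u) (BM_meas w) hK 0 T).const_mul _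
  have hs1 : IntervalIntegrable (fun t => ∑ i, ν.1 i * (b i t * w.1 t)) volume 0 T := by
    have h9 := IntervalIntegrable.sum Finset.univ fun i _ => hi1 i
    rw [Finset.sum_fn] at h9
    exact h9
  have hs2 : IntervalIntegrable (fun t => ∑ j, ν.2 j * (phiJ b (D j) T u.1 t * w.1 t))
      volume 0 T := by
    have h9 := IntervalIntegrable.sum Finset.univ fun i _ => hi2 i
    rw [Finset.sum_fn] at h9
    exact h9
  rw [intervalIntegral.integral_congr (fun t _ => h1 t), intervalIntegral.integral_add hs1 hs2,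
    intervalIntegral.integral_finsetSum (fun i _ => hi1 i),
    intervalIntegral.integral_finsetSum (fun i _ => hi2 i)]
  unfold varN
  congr 1
  · apply Finset.sum_congr rfl
    intro i _
    rw [intervalIntegral.integral_const_mul]
    rfl
  · apply Finset.sum_congr rfl
    intro j _
    rw [intervalIntegral.integral_const_mul, first_var hb (hD j) T u w]

/-- the relay theorem for the multiplier `ν` -/
theorem relayN (hb : ∀ i, AnalyticOnNhd ℝ (b i) univ) (hD : ∀ j, (D j).An) {u : BM}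
    (hu : u ∈ UU) (hunc : ¬ (SwSet T u.1).Countable) {ν : Mul k m}
    (hrel : ∀ᵐ t, t ∈ Icc 0 T → u.1 t * phiN b D T u.1 ν t = |phiN b D T u.1 ν t|) :
    (∀ t ∈ Icc 0 T, phiN b D T u.1 ν t = 0) ∧ ∀ t s, kerN b D ν t s = 0 := by
  by_contra hcon
  apply hunc
  have hφ := phiN_eq (T := T) hb hD u ν
  apply relay (aN_an hb hD ν) (cN_an hb hD) (psiN_an hb hD u.1 ν) (BM_meas u) hu
  · filter_upwards [hrel] with t ht htT
    rw [← hφ t]
    exact ht htT
  · by_contra hcon2
    push Not at hcon2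
    apply hcon
    constructor
    · intro t ht
      rw [hφ t]
      exact hcon2.1 t ht
    · intro t s
      rw [← kerN_eq]
      exact hcon2.2 t s

/-- a multiplier whose switching function or kernel does not vanish has an ascent direction -/
theorem ascent (hb : ∀ i, AnalyticOnNhd ℝ (b i) univ) (hD : ∀ j, (D j).An) (hT : 0 < T) {u : BM}
    (hu : u ∈ UU) (hunc : ¬ (SwSet T u.1).Countable) {ν : Mul k m}
    (hν : ¬ ((∀ t ∈ Icc 0 T, phiN b D T u.1 ν t = 0) ∧ ∀ t s, kerN b D ν t s = 0)) :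
    ∃ w ∈ UU, 0 < varN b D T u.1 ν (w - u).1 := by
  by_contra hall
  push Not at hall
  apply hν
  apply relayN hb hD hu hunc
  set φ := phiN b D T u.1 ν with hφ
  have hφc : Continuous φ := phiN_cont hb hD u ν
  -- the sign of φ
  have hwm : Measurable fun t => φ t / |φ t| := hφc.measurable.div hφc.abs.measurable
  have hwb : ∀ t, abs (φ t / abs (φ t)) ≤ 1 := by
    intro t
    rw [abs_div, abs_abs]
    exact div_self_le_one _
  set w : BM := ⟨fun t => φ t / |φ t|, hwm, 1, hwb⟩ with hw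
  have hwU : w ∈ UU := hwb
  have h1 := hall w hwU
  rw [varN_eq hb hD] at h1
  have h2 : ∀ t, φ t * (w - u).1 t = |φ t| - u.1 t * φ t := by
    intro t
    have h3 : (w - u).1 t = φ t / |φ t| - u.1 t := rfl
    rw [h3, mul_sub]
    congr 1
    · rcases eq_or_ne (φ t) 0 with h4 | h4
      · rw [h4]
        simp
      · have h5 : |φ t| ≠ 0 := abs_ne_zero.2 h4
        field_simp
        rw [sq_abs]
    · ring
  have hnn : ∀ t, 0 ≤ |φ t| - u.1 t * φ t := by
    intro t
    have h3 : |u.1 t * φ t| ≤ |φ t| := by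
      rw [abs_mul]
      calc |u.1 t| * |φ t| ≤ 1 * |φ t| := mul_le_mul_of_nonneg_right (hu t) (abs_nonneg _)
        _ = |φ t| := one_mul _
    linarith [(abs_le.1 h3).2]
  rw [intervalIntegral.integral_congr (fun t _ => h2 t)] at h1
  have hint : IntervalIntegrable (fun t => |φ t| - u.1 t * φ t) volume 0 T := by
    apply (hφc.abs.intervalIntegrable 0 T).sub
    have := intInt hφc (BM_meas u) hu 0 T
    apply this.congr
    intro t _
    exact mul_comm _ _
  have h4 : 0 ≤ ∫ t in (0 : ℝ)..T, (|φ t| - u.1 t * φ t) :=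
    intervalIntegral.integral_nonneg hT.le fun t _ => hnn t
  have h5 : ∫ t in (0 : ℝ)..T, (|φ t| - u.1 t * φ t) = 0 := le_antisymm h1 h4
  rw [intervalIntegral.integral_of_le hT.le] at h5
  rw [integral_eq_zero_iff_of_nonneg (fun t => hnn t)
    ((intervalIntegrable_iff_integrableOn_Ioc_of_le hT.le).1 hint)] at h5
  have h6 := (ae_restrict_iff' measurableSet_Ioc).1 h5
  have h7 : ∀ᵐ t : ℝ, t ≠ 0 := by
    rw [ae_iff]
    simp
  filter_upwards [h6, h7] with t ht ht0 htT
  have h8 : |φ t| - u.1 t * φ t = 0 := ht ⟨lt_of_le_of_ne htT.1 (Ne.symm ht0), htT.2⟩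
  linarith

end Pool.Agent.Lib.MP_28b8de_an
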