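import Mathlib

/-!
MP_28b8de_an, module OpenMap (MSW-OM): the open mapping argument for quadratic maps.

PROOF of `open_map`.  Let L w = l w + B u₀ w + B w u₀ (linear in w), C1 = L '' {w - u₀ | w ∈ U}.
(1) `exists_pm`: C1 is convex, contains 0, and by hpos it is contained in no hyperplane and in no
closed half space; so 0 ∈ interior C1 (if interior C1 = ∅ then span C1 ≠ ⊤
(`Convex.interior_nonempty_iff_affineSpan_eq_top`, the affine span contains 0) and some nonzero
functional vanishes on C1; if 0 ∉ interior C1 ≠ ∅ separate 0 from the open convex set interior C1,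
`geometric_hahn_banach_point_open`, C1 ⊆ closure (interior C1)).  So there are r > 0 and
wp i, wm i ∈ U with L (wp i - u₀) = r e_i, L (wm i - u₀) = - r e_i.
(2) For 0 < δ ≤ 1 and 0 < ε ≤ 1 take v0, vp i, vm i ∈ D with om (v0 - u₀), om (vp i - wp i),
om (vm i - wm i) ≤ ε, and for g ∈ [-1,1]^p
  z g = v0 + δ ∑ i, [ (1+g i)/(4p) (vp i - v0) + (1-g i)/(4p) (vm i - v0) ] ∈ D (convexity, total
weight δ/2 ≤ 1).  F g = J (z g) - J u₀ with J v = l v + B v v.
J (u₀+e) - J u₀ = L e + B e e.  e = z g - u₀.  L e = δ r/(2p) g + [terms ≤ 6C ε], and the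
g-Lipschitz constant of the bracket is ≤ const·C δ ε; B e e: e = (v0-u₀) + δ E(g), with E(g) a
combination of differences of elements of U; ‖B a b‖ ≤ 2 C om(a) or 2 C om(b) for differences
a, b of elements of U (hB1, hB2) and om ≤ C on U (hom).  So ‖F 0‖ ≤ c(ε + δ²) and
‖F g - F g' - δ r/(2p) (g - g')‖ ≤ c (δ² + δ ε) ‖g - g'‖ with c = c(C,p).  Choose δ, then ε such that
these are ≤ δ r/(4p) and ≤ δ r/(4p) ‖g-g'‖.
(3) `ApproximatesLinearOn.surjOn_closedBall_of_nonlinearRightInverse` (or a direct Banach fixed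
point argument for g ↦ g - (2p/(δ r)) F g, a contraction of the closed unit ball of
`Fin p → ℝ` into itself: constant 1/2, norm of image ≤ 1/2 + 1/2) gives g with F g = 0.
For p = 0 everything is trivial (take v ∈ D from hdense).
-/

namespace Pool.Agent.Lib.MP_28b8de_an

open Filter Topology Set

/-- if every nonzero functional is somewhere positive on a convex set containing 0, then 0 is
interior -/
private theorem OpenMap_zero_mem_interior {p : ℕ} {S : Set (Fin p → ℝ)} (hS : Convex ℝ S)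
    (h0 : (0 : Fin p → ℝ) ∈ S)
    (hpos : ∀ lam : Fin p → ℝ, lam ≠ 0 → ∃ x ∈ S, 0 < ∑ i, lam i * x i) :
    (0 : Fin p → ℝ) ∈ interior S := by
  classical
  by_contra hcon
  -- a nonzero functional that is ≤ 0 on S
  have key : ∃ f : (Fin p → ℝ) →ₗ[ℝ] ℝ, f ≠ 0 ∧ ∀ x ∈ S, f x ≤ 0 := by
    by_cases hint : (interior S).Nonempty
    · obtain ⟨f, hf⟩ := geometric_hahn_banach_point_open hS.interior isOpen_interior hcon
      refine ⟨-(f : (Fin p → ℝ) →ₗ[ℝ] ℝ), ?_, ?_⟩
      · intro hz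
        obtain ⟨y, hy⟩ := hint
        have h1 := hf y hy
        have h2 : f y = 0 := by
          have := LinearMap.congr_fun hz y
          simpa using this
        rw [h2] at h1
        simp at h1
      · intro x hx
        have hcl : x ∈ closure (interior S) := by
          have := hS.closure_interior_eq_closure_of_nonempty_interior hint
          rw [this]
          exact subset_closure hx
        have h3 : interior S ⊆ {y | 0 ≤ f y} := by
          intro y hy
          have := hf y hy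
          simp only [map_zero] at this
          exact this.le
        have h4 : IsClosed {y : Fin p → ℝ | 0 ≤ f y} := isClosed_le continuous_const f.continuous
        have h5 := closure_minimal h3 h4 hcl
        simpa using h5
    · have hA : affineSpan ℝ S ≠ ⊤ := by
        intro h
        exact hint ((hS.interior_nonempty_iff_affineSpan_eq_top).2 h)
      have hspan : Submodule.span ℝ S ≠ ⊤ := by
        intro h
        apply hA
        rw [AffineSubspace.ext_iff]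
        have h6 : (affineSpan ℝ S : Set (Fin p → ℝ)) = (Submodule.span ℝ S : Set (Fin p → ℝ)) := by
          have h7 := affineSpan_insert_zero (k := ℝ) S
          rwa [Set.insert_eq_of_mem h0] at h7
        rw [h6, h]
        rfl
      obtain ⟨f, hf, hf2⟩ := Submodule.exists_le_ker_of_lt_top _ (lt_top_iff_ne_top.2 hspan)
      refine ⟨f, hf, fun x hx => ?_⟩
      have := hf2 (Submodule.subset_span hx)
      rw [LinearMap.mem_ker] at this
      exact this.le
  obtain ⟨f, hf, hle⟩ := key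
  set lam : Fin p → ℝ := fun i => f (fun j => if i = j then 1 else 0) with hlam
  have hfx : ∀ x : Fin p → ℝ, f x = ∑ i, lam i * x i := by
    intro x
    rw [LinearMap.pi_apply_eq_sum_univ f x]
    exact Finset.sum_congr rfl fun i _ => by rw [smul_eq_mul, mul_comm]
  have hne : lam ≠ 0 := by
    intro h
    apply hf
    refine LinearMap.ext fun x => ?_
    have := hfx x
    rw [h] at this
    simpa using this
  obtain ⟨x, hx, hx2⟩ := hpos lam hne
  rw [← hfx] at hx2
  exact absurd (hle x hx) (not_le.2 hx2)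



/-- the bound of a sum with coefficients -/
private theorem OpenMap_sum_smul_norm {p : ℕ} {W : Type*} [SeminormedAddCommGroup W]
    [NormedSpace ℝ W] (g : Fin p → ℝ) (x : Fin p → W) (K : ℝ) (hx : ∀ i, ‖x i‖ ≤ K) :
    ‖∑ i, g i • x i‖ ≤ p * K * ‖g‖ := by
  calc ‖∑ i, g i • x i‖ ≤ ∑ i, ‖g i • x i‖ := norm_sum_le _ _
    _ ≤ ∑ _i : Fin p, ‖g‖ * K := by
        refine Finset.sum_le_sum fun i _ => ?_
        rw [norm_smul]
        exact mul_le_mul (norm_le_pi_norm g i) (hx i) (norm_nonneg _) (norm_nonneg _)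
    _ = p * K * ‖g‖ := by
        rw [Finset.sum_const, Finset.card_univ, Fintype.card_fin, nsmul_eq_mul]
        ring

private theorem OpenMap_sum_smul_om {p : ℕ} {V : Type*} [AddCommGroup V] [Module ℝ V]
    (om : Seminorm ℝ V) (g : Fin p → ℝ) (x : Fin p → V) (K : ℝ)
    (hx : ∀ i, om (x i) ≤ K) :
    om (∑ i, g i • x i) ≤ p * K * ‖g‖ := by
  have h1 : ∀ s : Finset (Fin p), om (∑ i ∈ s, g i • x i) ≤ ∑ i ∈ s, om (g i • x i) := by
    intro s
    classical
    induction s using Finset.induction_on with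
    | empty => simp
    | insert a s ha ih =>
      rw [Finset.sum_insert ha, Finset.sum_insert ha]
      exact (map_add_le_add om _ _).trans (by linarith)
  calc om (∑ i, g i • x i) ≤ ∑ i, om (g i • x i) := h1 _
    _ ≤ ∑ _i : Fin p, ‖g‖ * K := by
        refine Finset.sum_le_sum fun i _ => ?_
        rw [map_smul_eq_mul]
        exact mul_le_mul (norm_le_pi_norm g i) (hx i) (apply_nonneg _ _) (norm_nonneg _)
    _ = p * K * ‖g‖ := by
        rw [Finset.sum_const, Finset.card_univ, Fintype.card_fin, nsmul_eq_mul]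
        ring

private theorem OpenMap_fix {p : ℕ} (G : (Fin p → ℝ) → (Fin p → ℝ)) {κ : ℝ} (hκ : 0 < κ)
    (h1 : ∀ g, ‖g‖ ≤ 1 → ‖G g‖ ≤ κ)
    (h2 : ∀ g h, ‖g‖ ≤ 1 → ‖h‖ ≤ 1 → ‖G g - G h‖ ≤ κ / 2 * ‖g - h‖) :
    ∃ g, ‖g‖ ≤ 1 ∧ κ • g = - G g := by
  set f : (Fin p → ℝ) → (Fin p → ℝ) := fun g => -(κ⁻¹ • G g) with hf
  have hmaps : MapsTo f (Metric.closedBall 0 1) (Metric.closedBall 0 1) := by
    intro g hg
    rw [mem_closedBall_zero_iff] at hg ⊢
    rw [hf]
    simp only [norm_neg, norm_smul, norm_inv, Real.norm_eq_abs, abs_of_pos hκ]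
    calc κ⁻¹ * ‖G g‖ ≤ κ⁻¹ * κ := by
          exact mul_le_mul_of_nonneg_left (h1 g hg) (inv_pos.2 hκ).le
      _ = 1 := inv_mul_cancel₀ hκ.ne'
  have hcontr : ContractingWith (1 / 2) (hmaps.restrict f _ _) := by
    refine ⟨by
      rw [← NNReal.coe_lt_coe]
      norm_num, LipschitzWith.of_dist_le_mul ?_⟩
    rintro ⟨g, hg⟩ ⟨h, hh⟩
    rw [mem_closedBall_zero_iff] at hg hh
    rw [Subtype.dist_eq, Subtype.dist_eq, dist_eq_norm, dist_eq_norm]
    simp only [MapsTo.val_restrict_apply, hf]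
    have : -(κ⁻¹ • G g) - -(κ⁻¹ • G h) = -(κ⁻¹ • (G g - G h)) := by
      rw [smul_sub]; abel
    rw [this, norm_neg, norm_smul, norm_inv, Real.norm_eq_abs, abs_of_pos hκ]
    calc κ⁻¹ * ‖G g - G h‖ ≤ κ⁻¹ * (κ / 2 * ‖g - h‖) :=
          mul_le_mul_of_nonneg_left (h2 g h hg hh) (inv_pos.2 hκ).le
      _ = ((1 / 2 : NNReal) : ℝ) * ‖g - h‖ := by
          push_cast
          field_simp
  obtain ⟨g, hg, hfix, -⟩ := hcontr.exists_fixedPoint' (Metric.isClosed_closedBall.isComplete)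
    hmaps (x := 0) (by simp) (edist_ne_top _ _)
  rw [mem_closedBall_zero_iff] at hg
  refine ⟨g, hg, ?_⟩
  have h3 : -(κ⁻¹ • G g) = g := hfix
  calc κ • g = κ • (-(κ⁻¹ • G g)) := by rw [h3]
    _ = - G g := by rw [smul_neg, smul_smul, mul_inv_cancel₀ hκ.ne', one_smul]

theorem open_map {V : Type*} [AddCommGroup V] [Module ℝ V] {p : ℕ} (om : Seminorm ℝ V)
    (l : V →ₗ[ℝ] (Fin p → ℝ)) (B : V →ₗ[ℝ] V →ₗ[ℝ] (Fin p → ℝ)) {U D : Set V}
    (hU : Convex ℝ U) (hD : Convex ℝ D) (hDU : D ⊆ U)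
    (hdense : ∀ u ∈ U, ∀ ε : ℝ, 0 < ε → ∃ v ∈ D, om (v - u) ≤ ε) {C : ℝ} (hC : 0 ≤ C)
    (hom : ∀ u ∈ U, om u ≤ C) (hl : ∀ v, ‖l v‖ ≤ C * om v)
    (hB1 : ∀ u ∈ U, ∀ v, ‖B u v‖ ≤ C * om v) (hB2 : ∀ u ∈ U, ∀ v, ‖B v u‖ ≤ C * om v)
    {u₀ : V} (hu₀ : u₀ ∈ U)
    (hpos : ∀ lam : Fin p → ℝ, lam ≠ 0 →
      ∃ w ∈ U, 0 < ∑ i, lam i * (l (w - u₀) + B u₀ (w - u₀) + B (w - u₀) u₀) i) :
    ∃ v ∈ D, l v + B v v = l u₀ + B u₀ u₀ := by
  classical
  rcases Nat.eq_zero_or_pos p with hp0 | hp0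
  · subst hp0
    obtain ⟨v, hv, -⟩ := hdense u₀ hu₀ 1 one_pos
    exact ⟨v, hv, Subsingleton.elim _ _⟩
  set P : ℝ := (p : ℝ) with hPdef
  have hP1 : 1 ≤ P := by
    rw [hPdef]
    exact_mod_cast hp0
  have hP : 0 < P := by linarith
  -- the linear part
  set Lin : V →ₗ[ℝ] (Fin p → ℝ) := l + B u₀ + B.flip u₀ with hLindef
  have hLin : ∀ w, Lin w = l w + B u₀ w + B w u₀ := fun w => by
    simp [hLindef]
  have hLinb : ∀ w, ‖Lin w‖ ≤ 3 * C * om w := by
    intro w
    rw [hLin]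
    calc ‖l w + B u₀ w + B w u₀‖ ≤ ‖l w‖ + ‖B u₀ w‖ + ‖B w u₀‖ := norm_add₃_le
      _ ≤ C * om w + C * om w + C * om w :=
          add_le_add (add_le_add (hl w) (hB1 u₀ hu₀ w)) (hB2 u₀ hu₀ w)
      _ = 3 * C * om w := by ring
  -- interior point
  have hint : (0 : Fin p → ℝ) ∈ interior ((fun w => Lin (w - u₀)) '' U) := by
    refine OpenMap_zero_mem_interior ?_ ?_ ?_
    · have h1 : (fun w => Lin (w - u₀)) '' U = (fun x => -(Lin u₀) + x) '' (Lin '' U) := by
        rw [Set.image_image]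
        exact Set.image_congr fun w _ => by
          rw [map_sub]
          abel
      rw [h1]
      exact (hU.linear_image Lin).translate (-(Lin u₀))
    · exact ⟨u₀, hu₀, by simp⟩
    · intro lam hlam
      obtain ⟨w, hw, hw2⟩ := hpos lam hlam
      refine ⟨Lin (w - u₀), ⟨w, hw, rfl⟩, ?_⟩
      rw [hLin]
      exact hw2
  obtain ⟨r, hr, hball⟩ := Metric.nhds_basis_closedBall.mem_iff.1 (mem_interior_iff_mem_nhds.1 hint)
  have hwp : ∀ i : Fin p, ∃ w ∈ U, Lin (w - u₀) = r • Pi.single i (1 : ℝ) := by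
    intro i
    have h1 : r • Pi.single i (1 : ℝ) ∈ Metric.closedBall (0 : Fin p → ℝ) r := by
      rw [mem_closedBall_zero_iff, norm_smul, Pi.norm_single, Real.norm_eq_abs, abs_of_pos hr]
      simp
    obtain ⟨w, hw, hw2⟩ := hball h1
    exact ⟨w, hw, hw2⟩
  have hwm : ∀ i : Fin p, ∃ w ∈ U, Lin (w - u₀) = -(r • Pi.single i (1 : ℝ)) := by
    intro i
    have h1 : -(r • Pi.single i (1 : ℝ)) ∈ Metric.closedBall (0 : Fin p → ℝ) r := by
      rw [mem_closedBall_zero_iff, norm_neg, norm_smul, Pi.norm_single, Real.norm_eq_abs,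
        abs_of_pos hr]
      simp
    obtain ⟨w, hw, hw2⟩ := hball h1
    exact ⟨w, hw, hw2⟩
  choose wp hwpU hwpL using hwp
  choose wm hwmU hwmL using hwm
  -- parameters
  obtain ⟨δ, hδ0, hδ1, hδ2⟩ : ∃ δ : ℝ, 0 < δ ∧ δ ≤ 1 ∧ 12 * P * C ^ 2 * δ ≤ r := by
    refine ⟨min 1 (r / (12 * P * (C + 1) ^ 2)), by positivity, min_le_left _ _, ?_⟩
    have h1 : min 1 (r / (12 * P * (C + 1) ^ 2)) ≤ r / (12 * P * (C + 1) ^ 2) := min_le_right _ _
    have h2 : 0 < 12 * P * (C + 1) ^ 2 := by positivity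
    have h3 : min 1 (r / (12 * P * (C + 1) ^ 2)) * (12 * P * (C + 1) ^ 2) ≤ r := by
      rwa [le_div_iff₀ h2] at h1
    have h4 : 0 < min 1 (r / (12 * P * (C + 1) ^ 2)) := by positivity
    have h5 : 12 * P * C ^ 2 ≤ 12 * P * (C + 1) ^ 2 := by
      have : C ^ 2 ≤ (C + 1) ^ 2 := by nlinarith
      nlinarith
    nlinarith
  obtain ⟨ε, hε0, hε1, hε2⟩ : ∃ ε : ℝ, 0 < ε ∧ ε ≤ 1 ∧ 48 * P * C * ε ≤ r * δ := by
    refine ⟨min 1 (r * δ / (48 * P * (C + 1))), by positivity, min_le_left _ _, ?_⟩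
    have h1 : min 1 (r * δ / (48 * P * (C + 1))) ≤ r * δ / (48 * P * (C + 1)) := min_le_right _ _
    have h2 : 0 < 48 * P * (C + 1) := by positivity
    have h3 : min 1 (r * δ / (48 * P * (C + 1))) * (48 * P * (C + 1)) ≤ r * δ := by
      rwa [le_div_iff₀ h2] at h1
    have h4 : 0 < min 1 (r * δ / (48 * P * (C + 1))) := by positivity
    have h5 : 48 * P * C ≤ 48 * P * (C + 1) := by nlinarith
    nlinarith
  obtain ⟨v0, hv0D, hv0⟩ := hdense u₀ hu₀ ε hε0
  have hvp : ∀ i, ∃ v ∈ D, om (v - wp i) ≤ ε := fun i => hdense (wp i) (hwpU i) ε hε0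
  have hvm : ∀ i, ∃ v ∈ D, om (v - wm i) ≤ ε := fun i => hdense (wm i) (hwmU i) ε hε0
  choose vp hvpD hvpe using hvp
  choose vm hvmD hvme using hvm
  have hv0U := hDU hv0D
  have hvpU := fun i => hDU (hvpD i)
  have hvmU := fun i => hDU (hvmD i)
  obtain ⟨δ', hδ'⟩ : ∃ δ' : ℝ, δ' = δ / (4 * P) := ⟨_, rfl⟩
  have hδ'0 : 0 < δ' := by
    rw [hδ']
    positivity
  have hδ'P : P * δ' = δ / 4 := by
    rw [hδ']
    field_simp
  set e1 : V := v0 - u₀ with he1
  set e2 : V := ∑ i, (vp i + vm i - (2 : ℝ) • v0) with he2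
  set a : V := v0 + δ' • e2 with ha
  set e : V := a - u₀ with he
  have hee : e = e1 + δ' • e2 := by
    rw [he, ha, he1]
    abel
  set Dg : (Fin p → ℝ) → V := fun g => ∑ i, g i • (vp i - vm i) with hDg
  have hDgsub : ∀ g h, Dg (g - h) = Dg g - Dg h := by
    intro g h
    simp only [hDg, Pi.sub_apply, sub_smul, Finset.sum_sub_distrib]
  -- membership
  have hmem : ∀ g : Fin p → ℝ, ‖g‖ ≤ 1 → a + δ' • Dg g ∈ D := by
    intro g hg
    have hgi : ∀ i, |g i| ≤ 1 := fun i => (norm_le_pi_norm g i).trans hg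
    set y : Fin p → V := fun i => ((1 + g i) / 2) • vp i + ((1 - g i) / 2) • vm i with hy
    have hyD : ∀ i, y i ∈ D := by
      intro i
      have h1 := abs_le.1 (hgi i)
      exact hD (hvpD i) (hvmD i) (by linarith [h1.1]) (by linarith [h1.2]) (by ring)
    have hY : ∑ i, P⁻¹ • y i ∈ D := by
      refine hD.sum_mem (fun i _ => (inv_pos.2 hP).le) ?_ (fun i _ => hyD i)
      rw [Finset.sum_const, Finset.card_univ, Fintype.card_fin, nsmul_eq_mul]
      exact mul_inv_cancel₀ hP.ne'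
    have hZ : (1 - δ / 2) • v0 + (δ / 2) • ∑ i, P⁻¹ • y i ∈ D :=
      hD hv0D hY (by linarith) (by linarith) (by ring)
    have heq : a + δ' • Dg g = (1 - δ / 2) • v0 + (δ / 2) • ∑ i, P⁻¹ • y i := by
      have h1 : (δ / 2) • ∑ i, P⁻¹ • y i
          = δ' • ∑ i, ((vp i + vm i) + g i • (vp i - vm i)) := by
        rw [Finset.smul_sum, Finset.smul_sum]
        refine Finset.sum_congr rfl fun i _ => ?_
        rw [hy, smul_smul]
        simp only
        rw [show (δ / 2 * P⁻¹) = 2 * δ' by rw [hδ']; field_simp; ring]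
        module
      have h2 : e2 = ∑ i, (vp i + vm i) - ((2 : ℝ) * P) • v0 := by
        rw [he2, Finset.sum_sub_distrib, Finset.sum_const, Finset.card_univ, Fintype.card_fin,
          ← Nat.cast_smul_eq_nsmul ℝ, smul_smul]
        rw [mul_comm]
      have h3 : δ' * (2 * P) = δ / 2 := by
        have := hδ'P
        linarith
      have h5 : ∑ i, ((vp i + vm i) + g i • (vp i - vm i)) = ∑ i, (vp i + vm i) + Dg g :=
        Finset.sum_add_distrib
      rw [h1, ha, h2, h5, ← h3]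
      module
    rw [heq]
    exact hZ
  -- seminorm bounds
  have hom2 : ∀ x ∈ U, ∀ y ∈ U, om (x - y) ≤ 2 * C := by
    intro x hx y hy
    have := map_sub_le_add om x y
    linarith [hom x hx, hom y hy]
  have hC1 : om e1 ≤ ε := hv0
  have hterm : ∀ i, vp i + vm i - (2 : ℝ) • v0 = (vp i - v0) + (vm i - v0) := fun i => by module
  have home2 : om e2 ≤ P * (4 * C) := by
    have h1 := OpenMap_sum_smul_om om (fun _ : Fin p => (1 : ℝ))
      (fun i => vp i + vm i - (2 : ℝ) • v0) (4 * C) (fun i => by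
        rw [hterm i]
        have := map_add_le_add om (vp i - v0) (vm i - v0)
        linarith [hom2 (vp i) (hvpU i) v0 hv0U, hom2 (vm i) (hvmU i) v0 hv0U])
    have h2 : ‖(fun _ : Fin p => (1 : ℝ))‖ ≤ 1 := by
      refine (pi_norm_le_iff_of_nonneg zero_le_one).2 fun i => by simp
    have h3 : ∑ i, (1 : ℝ) • (vp i + vm i - (2 : ℝ) • v0) = e2 := by simp [he2]
    rw [h3] at h1
    have h4 : 0 ≤ (p : ℝ) * (4 * C) := by positivity
    nlinarith
  have home : om e ≤ ε + δ * C := by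
    rw [hee]
    have h1 := map_add_le_add om e1 (δ' • e2)
    rw [map_smul_eq_mul, Real.norm_eq_abs, abs_of_pos hδ'0] at h1
    have h2 : δ' * om e2 ≤ δ' * (P * (4 * C)) := mul_le_mul_of_nonneg_left home2 hδ'0.le
    have h3 : δ' * (P * (4 * C)) = δ * C := by
      have : δ' * (P * (4 * C)) = (P * δ') * (4 * C) := by ring
      rw [this, hδ'P]; ring
    linarith
  have homD : ∀ g, om (Dg g) ≤ P * (2 * C) * ‖g‖ := fun g =>
    OpenMap_sum_smul_om om g (fun i => vp i - vm i) (2 * C)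
      (fun i => hom2 _ (hvpU i) _ (hvmU i))
  -- bilinear bounds
  have hBd1 : ∀ x ∈ U, ∀ y ∈ U, ∀ v, ‖B (x - y) v‖ ≤ 2 * C * om v := by
    intro x hx y hy v
    rw [map_sub, LinearMap.sub_apply]
    calc ‖B x v - B y v‖ ≤ ‖B x v‖ + ‖B y v‖ := norm_sub_le _ _
      _ ≤ C * om v + C * om v := add_le_add (hB1 x hx v) (hB1 y hy v)
      _ = 2 * C * om v := by ring
  have hBd2 : ∀ x ∈ U, ∀ y ∈ U, ∀ v, ‖B v (x - y)‖ ≤ 2 * C * om v := by
    intro x hx y hy v
    rw [map_sub]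
    calc ‖B v x - B v y‖ ≤ ‖B v x‖ + ‖B v y‖ := norm_sub_le _ _
      _ ≤ C * om v + C * om v := add_le_add (hB2 x hx v) (hB2 y hy v)
      _ = 2 * C * om v := by ring
  have hBe2l : ∀ v, ‖B e2 v‖ ≤ P * (4 * C * om v) := by
    intro v
    have h0 : B e2 v = ∑ i, (1 : Fin p → ℝ) i • B (vp i + vm i - (2 : ℝ) • v0) v := by
      rw [he2, map_sum, LinearMap.sum_apply]
      simp
    rw [h0]
    have h1 := OpenMap_sum_smul_norm (1 : Fin p → ℝ)
      (fun i => B (vp i + vm i - (2 : ℝ) • v0) v) (4 * C * om v) (fun i => by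
        rw [hterm i, map_add, LinearMap.add_apply]
        calc ‖B (vp i - v0) v + B (vm i - v0) v‖ ≤ ‖B (vp i - v0) v‖ + ‖B (vm i - v0) v‖ :=
              norm_add_le _ _
          _ ≤ 2 * C * om v + 2 * C * om v :=
              add_le_add (hBd1 _ (hvpU i) _ hv0U v) (hBd1 _ (hvmU i) _ hv0U v)
          _ = 4 * C * om v := by ring)
    have h2 : ‖(1 : Fin p → ℝ)‖ ≤ 1 :=
      (pi_norm_le_iff_of_nonneg zero_le_one).2 fun i => by simp
    have h3 : 0 ≤ (p : ℝ) * (4 * C * om v) := by positivity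
    nlinarith
  have hBe2r : ∀ v, ‖B v e2‖ ≤ P * (4 * C * om v) := by
    intro v
    have h0 : B v e2 = ∑ i, (1 : Fin p → ℝ) i • B v (vp i + vm i - (2 : ℝ) • v0) := by
      rw [he2, map_sum]
      simp
    rw [h0]
    have h1 := OpenMap_sum_smul_norm (1 : Fin p → ℝ)
      (fun i => B v (vp i + vm i - (2 : ℝ) • v0)) (4 * C * om v) (fun i => by
        rw [hterm i, map_add]
        calc ‖B v (vp i - v0) + B v (vm i - v0)‖ ≤ ‖B v (vp i - v0)‖ + ‖B v (vm i - v0)‖ :=
              norm_add_le _ _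
          _ ≤ 2 * C * om v + 2 * C * om v :=
              add_le_add (hBd2 _ (hvpU i) _ hv0U v) (hBd2 _ (hvmU i) _ hv0U v)
          _ = 4 * C * om v := by ring)
    have h2 : ‖(1 : Fin p → ℝ)‖ ≤ 1 :=
      (pi_norm_le_iff_of_nonneg zero_le_one).2 fun i => by simp
    have h3 : 0 ≤ (p : ℝ) * (4 * C * om v) := by positivity
    nlinarith
  have haU : a ∈ U := by
    have h1 := hmem 0 (by simp)
    have h2 : Dg 0 = 0 := by simp [hDg]
    rw [h2, smul_zero, add_zero] at h1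
    exact hDU h1
  have hBeD : ∀ g, ‖B e (Dg g)‖ ≤ P * (2 * C * om e) * ‖g‖ := by
    intro g
    have h0 : B e (Dg g) = ∑ i, g i • B e (vp i - vm i) := by
      simp only [hDg, map_sum, map_smul]
    rw [h0]
    exact OpenMap_sum_smul_norm g (fun i => B e (vp i - vm i)) (2 * C * om e)
      (fun i => hBd2 _ (hvpU i) _ (hvmU i) e)
  have hBDx : ∀ g x, ‖B (Dg g) x‖ ≤ P * (2 * C * om x) * ‖g‖ := by
    intro g x
    have h0 : B (Dg g) x = ∑ i, g i • B (vp i - vm i) x := by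
      simp only [hDg, map_sum, map_smul, LinearMap.sum_apply, LinearMap.smul_apply]
    rw [h0]
    exact OpenMap_sum_smul_norm g (fun i => B (vp i - vm i) x) (2 * C * om x)
      (fun i => hBd1 _ (hvpU i) _ (hvmU i) x)
  have hBDD : ∀ g h, ‖B (Dg g) (Dg h)‖ ≤ 4 * P ^ 2 * C ^ 2 * ‖g‖ * ‖h‖ := by
    intro g h
    have h1 := hBDx g (Dg h)
    have h2 := homD h
    have h3 : P * (2 * C * om (Dg h)) ≤ P * (2 * C * (P * (2 * C) * ‖h‖)) := by
      have : 2 * C * om (Dg h) ≤ 2 * C * (P * (2 * C) * ‖h‖) :=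
        mul_le_mul_of_nonneg_left h2 (by positivity)
      exact mul_le_mul_of_nonneg_left this hP.le
    calc ‖B (Dg g) (Dg h)‖ ≤ P * (2 * C * om (Dg h)) * ‖g‖ := h1
      _ ≤ P * (2 * C * (P * (2 * C) * ‖h‖)) * ‖g‖ := mul_le_mul_of_nonneg_right h3 (norm_nonneg _)
      _ = 4 * P ^ 2 * C ^ 2 * ‖g‖ * ‖h‖ := by ring
  -- the linear part on Dg
  have hLD : ∀ g, ‖Lin (Dg g) - (2 * r) • g‖ ≤ P * (6 * C * ε) * ‖g‖ := by
    intro g
    have h0 : Lin (Dg g) - (2 * r) • g
        = ∑ i, g i • (Lin (vp i - vm i) - (2 * r) • Pi.single i (1 : ℝ)) := by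
      have h01 : Lin (Dg g) = ∑ i, g i • Lin (vp i - vm i) := by
        have : Dg g = ∑ i, g i • (vp i - vm i) := rfl
        rw [this, map_sum]
        exact Finset.sum_congr rfl fun i _ => by rw [map_smul]
      have h02 : (2 * r) • g = ∑ i, g i • ((2 * r) • Pi.single i (1 : ℝ)) := by
        funext j
        rw [Finset.sum_apply, Finset.sum_eq_single j]
        · simp [mul_comm]
        · intro b _ hb
          simp [Ne.symm hb]
        · intro h
          exact absurd (Finset.mem_univ j) h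
      rw [h01, h02, ← Finset.sum_sub_distrib]
      exact Finset.sum_congr rfl fun i _ => by rw [smul_sub]
    rw [h0]
    refine OpenMap_sum_smul_norm g _ (6 * C * ε) (fun i => ?_)
    have h1 : Lin (vp i - vm i) - (2 * r) • Pi.single i (1 : ℝ)
        = Lin (vp i - wp i) - Lin (vm i - wm i) := by
      have h2 := hwpL i
      have h3 := hwmL i
      have h4 : Lin (vp i - vm i)
          = Lin (vp i - wp i) - Lin (vm i - wm i) + (Lin (wp i - u₀) - Lin (wm i - u₀)) := by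
        simp only [map_sub]; abel
      rw [h4, h2, h3]
      module
    rw [h1]
    calc ‖Lin (vp i - wp i) - Lin (vm i - wm i)‖ ≤ ‖Lin (vp i - wp i)‖ + ‖Lin (vm i - wm i)‖ :=
          norm_sub_le _ _
      _ ≤ 3 * C * om (vp i - wp i) + 3 * C * om (vm i - wm i) :=
          add_le_add (hLinb _) (hLinb _)
      _ ≤ 3 * C * ε + 3 * C * ε :=
          add_le_add (mul_le_mul_of_nonneg_left (hvpe i) (by positivity))
            (mul_le_mul_of_nonneg_left (hvme i) (by positivity))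
      _ = 6 * C * ε := by ring
  -- the constant term
  set A0 : Fin p → ℝ := Lin e + B e e with hA0
  have hLine2 : ‖Lin e2‖ ≤ P * (12 * C * ε) := by
    have h0 : Lin e2 = ∑ i, (1 : Fin p → ℝ) i • Lin (vp i + vm i - (2 : ℝ) • v0) := by
      rw [he2, map_sum]
      simp
    rw [h0]
    have h1 := OpenMap_sum_smul_norm (1 : Fin p → ℝ)
      (fun i => Lin (vp i + vm i - (2 : ℝ) • v0)) (12 * C * ε) (fun i => by
        have h4 : Lin (vp i + vm i - (2 : ℝ) • v0) = Lin (vp i - wp i) + Lin (vm i - wm i)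
            - (Lin e1 + Lin e1) + (Lin (wp i - u₀) + Lin (wm i - u₀)) := by
          rw [he1]
          simp only [map_sub, map_add, map_smul]
          module
        rw [h4, hwpL i, hwmL i, add_neg_cancel, add_zero]
        calc ‖Lin (vp i - wp i) + Lin (vm i - wm i) - (Lin e1 + Lin e1)‖
            ≤ ‖Lin (vp i - wp i) + Lin (vm i - wm i)‖ + ‖Lin e1 + Lin e1‖ := norm_sub_le _ _
          _ ≤ (‖Lin (vp i - wp i)‖ + ‖Lin (vm i - wm i)‖) + (‖Lin e1‖ + ‖Lin e1‖) :=
              add_le_add (norm_add_le _ _) (norm_add_le _ _)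
          _ ≤ (3 * C * ε + 3 * C * ε) + (3 * C * ε + 3 * C * ε) := by
              have q1 := (hLinb (vp i - wp i)).trans
                (mul_le_mul_of_nonneg_left (hvpe i) (by positivity : 0 ≤ 3 * C))
              have q2 := (hLinb (vm i - wm i)).trans
                (mul_le_mul_of_nonneg_left (hvme i) (by positivity : 0 ≤ 3 * C))
              have q3 := (hLinb e1).trans
                (mul_le_mul_of_nonneg_left hC1 (by positivity : 0 ≤ 3 * C))
              linarith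
          _ = 12 * C * ε := by ring)
    have h2 : ‖(1 : Fin p → ℝ)‖ ≤ 1 :=
      (pi_norm_le_iff_of_nonneg zero_le_one).2 fun i => by simp
    have h3 : 0 ≤ (p : ℝ) * (12 * C * ε) := by positivity
    nlinarith
  have hA0b : ‖A0‖ ≤ 9 * C * ε + C ^ 2 * δ ^ 2 := by
    have hL : ‖Lin e‖ ≤ 6 * C * ε := by
      rw [hee, map_add, map_smul]
      have q1 := (hLinb e1).trans (mul_le_mul_of_nonneg_left hC1 (by positivity : 0 ≤ 3 * C))
      have q2 : ‖δ' • Lin e2‖ ≤ 3 * C * ε := by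
        rw [norm_smul, Real.norm_eq_abs, abs_of_pos hδ'0]
        calc δ' * ‖Lin e2‖ ≤ δ' * (P * (12 * C * ε)) :=
              mul_le_mul_of_nonneg_left hLine2 hδ'0.le
          _ = (P * δ') * (12 * C * ε) := by ring
          _ = δ * (3 * C * ε) := by rw [hδ'P]; ring
          _ ≤ 1 * (3 * C * ε) := mul_le_mul_of_nonneg_right hδ1 (by positivity)
          _ = 3 * C * ε := one_mul _
      have := norm_add_le (Lin e1) (δ' • Lin e2)
      linarith
    have hBee : ‖B e e‖ ≤ 3 * C * ε + C ^ 2 * δ ^ 2 := by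
      have h0 : B e e = B e e1 + (δ' • B e1 e2 + (δ' ^ 2) • B e2 e2) := by
        have : B e e = B e e1 + δ' • B e e2 := by
          conv_lhs => rw [hee]
          rw [map_add, map_smul]
          conv_rhs => rw [hee]
        rw [this]
        have h2 : B e e2 = B e1 e2 + δ' • B e2 e2 := by
          rw [hee]
          simp only [map_add, map_smul, LinearMap.add_apply, LinearMap.smul_apply]
        rw [h2]
        module
      have q1 : ‖B e e1‖ ≤ 2 * C * ε := by
        -- e1 = v0 - u₀ and e = a - u₀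
        have h1 : ‖B (a - u₀) e1‖ ≤ 2 * C * om e1 := hBd1 a haU u₀ hu₀ e1
        exact h1.trans (mul_le_mul_of_nonneg_left hC1 (by positivity))
      have q2 : ‖δ' • B e1 e2‖ ≤ C * ε := by
        rw [norm_smul, Real.norm_eq_abs, abs_of_pos hδ'0]
        have h1 := hBe2r e1
        have h2 : P * (4 * C * om e1) ≤ P * (4 * C * ε) :=
          mul_le_mul_of_nonneg_left (mul_le_mul_of_nonneg_left hC1 (by positivity)) hP.le
        calc δ' * ‖B e1 e2‖ ≤ δ' * (P * (4 * C * ε)) :=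
              mul_le_mul_of_nonneg_left (h1.trans h2) hδ'0.le
          _ = (P * δ') * (4 * C * ε) := by ring
          _ = δ * (C * ε) := by rw [hδ'P]; ring
          _ ≤ 1 * (C * ε) := mul_le_mul_of_nonneg_right hδ1 (by positivity)
          _ = C * ε := one_mul _
      have q3 : ‖(δ' ^ 2) • B e2 e2‖ ≤ C ^ 2 * δ ^ 2 := by
        rw [norm_smul, Real.norm_eq_abs, abs_of_pos (by positivity)]
        have h1 := hBe2r e2
        have h2 : P * (4 * C * om e2) ≤ P * (4 * C * (P * (4 * C))) :=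
          mul_le_mul_of_nonneg_left (mul_le_mul_of_nonneg_left home2 (by positivity)) hP.le
        calc δ' ^ 2 * ‖B e2 e2‖ ≤ δ' ^ 2 * (P * (4 * C * (P * (4 * C)))) :=
              mul_le_mul_of_nonneg_left (h1.trans h2) (by positivity)
          _ = (P * δ') ^ 2 * (16 * C ^ 2) := by ring
          _ = C ^ 2 * δ ^ 2 := by rw [hδ'P]; ring
      rw [h0]
      have := norm_add₃_le (a := B e e1) (b := δ' • B e1 e2) (c := (δ' ^ 2) • B e2 e2)
      rw [add_assoc] at this
      linarith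
    have := norm_add_le (Lin e) (B e e)
    rw [hA0]
    linarith
  -- the function G
  set R : (Fin p → ℝ) → (Fin p → ℝ) := fun g =>
    (Lin (Dg g) - (2 * r) • g) + (B e (Dg g) + B (Dg g) e) with hR
  have hRb : ∀ g, ‖R g‖ ≤ P * (10 * C * ε + 4 * C ^ 2 * δ) * ‖g‖ := by
    intro g
    have q1 := hLD g
    have q2 := hBeD g
    have q3 := hBDx g e
    have q4 : P * (2 * C * om e) * ‖g‖ ≤ P * (2 * C * (ε + δ * C)) * ‖g‖ := by
      refine mul_le_mul_of_nonneg_right ?_ (norm_nonneg _)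
      exact mul_le_mul_of_nonneg_left (mul_le_mul_of_nonneg_left home (by positivity)) hP.le
    have q5 := norm_add_le (Lin (Dg g) - (2 * r) • g) (B e (Dg g) + B (Dg g) e)
    have q6 := norm_add_le (B e (Dg g)) (B (Dg g) e)
    simp only [hR]
    have q7 : P * (10 * C * ε + 4 * C ^ 2 * δ) * ‖g‖
        = P * (6 * C * ε) * ‖g‖ + (P * (2 * C * (ε + δ * C)) * ‖g‖
          + P * (2 * C * (ε + δ * C)) * ‖g‖) := by ring
    linarith
  have hRsub : ∀ g h, R (g - h) = R g - R h := by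
    intro g h
    simp only [hR, hDgsub, map_sub, LinearMap.sub_apply, smul_sub]
    abel
  set G : (Fin p → ℝ) → (Fin p → ℝ) := fun g =>
    A0 + δ' • R g + (δ' ^ 2) • B (Dg g) (Dg g) with hG
  have hkey : ∀ g, l (a + δ' • Dg g) + B (a + δ' • Dg g) (a + δ' • Dg g)
      = (l u₀ + B u₀ u₀) + (G g + (2 * r * δ') • g) := by
    intro g
    have h1 : a = u₀ + e := by rw [he]; abel
    rw [h1]
    simp only [hG, hR, hA0, hLin, map_add, map_smul, LinearMap.add_apply, LinearMap.smul_apply]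
    module
  have hGb : ∀ g, ‖g‖ ≤ 1 → ‖G g‖ ≤ 2 * r * δ' := by
    intro g hg
    have q1 : ‖δ' • R g‖ ≤ (δ / 4) * (10 * C * ε + 4 * C ^ 2 * δ) := by
      rw [norm_smul, Real.norm_eq_abs, abs_of_pos hδ'0]
      have h1 := hRb g
      have h2 : P * (10 * C * ε + 4 * C ^ 2 * δ) * ‖g‖ ≤ P * (10 * C * ε + 4 * C ^ 2 * δ) * 1 :=
        mul_le_mul_of_nonneg_left hg (by positivity)
      calc δ' * ‖R g‖ ≤ δ' * (P * (10 * C * ε + 4 * C ^ 2 * δ) * 1) :=
            mul_le_mul_of_nonneg_left (h1.trans h2) hδ'0.le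
        _ = (P * δ') * (10 * C * ε + 4 * C ^ 2 * δ) := by ring
        _ = (δ / 4) * (10 * C * ε + 4 * C ^ 2 * δ) := by rw [hδ'P]
    have q2 : ‖(δ' ^ 2) • B (Dg g) (Dg g)‖ ≤ C ^ 2 * δ ^ 2 / 4 := by
      rw [norm_smul, Real.norm_eq_abs, abs_of_pos (by positivity)]
      have h1 := hBDD g g
      have h2 : 4 * P ^ 2 * C ^ 2 * ‖g‖ * ‖g‖ ≤ 4 * P ^ 2 * C ^ 2 := by
        have h3 : ‖g‖ * ‖g‖ ≤ 1 := by nlinarith [norm_nonneg g]
        have h4 : 0 ≤ 4 * P ^ 2 * C ^ 2 := by positivity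
        nlinarith
      calc δ' ^ 2 * ‖B (Dg g) (Dg g)‖ ≤ δ' ^ 2 * (4 * P ^ 2 * C ^ 2) :=
            mul_le_mul_of_nonneg_left (h1.trans h2) (by positivity)
        _ = (P * δ') ^ 2 * (4 * C ^ 2) := by ring
        _ = C ^ 2 * δ ^ 2 / 4 := by rw [hδ'P]; ring
    have q3 := norm_add₃_le (a := A0) (b := δ' • R g) (c := (δ' ^ 2) • B (Dg g) (Dg g))
    have q4 : 2 * r * δ' = r * δ / (2 * P) := by rw [hδ']; field_simp; ring
    have q5 : 12 * C * ε ≤ r * δ / (4 * P) := by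
      rw [le_div_iff₀ (by positivity)]
      nlinarith
    have q6 : 3 * C ^ 2 * δ ^ 2 ≤ r * δ / (4 * P) := by
      rw [le_div_iff₀ (by positivity)]
      nlinarith
    have q7 : r * δ / (2 * P) = r * δ / (4 * P) + r * δ / (4 * P) := by field_simp; ring
    have q8 : δ / 4 * (10 * C * ε + 4 * C ^ 2 * δ) ≤ 3 * C * ε + C ^ 2 * δ ^ 2 := by
      have h1 : δ * (C * ε) ≤ 1 * (C * ε) := mul_le_mul_of_nonneg_right hδ1 (by positivity)
      nlinarith [mul_nonneg hC hε0.le]
    rw [q4, q7]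
    have q9 : 0 ≤ C ^ 2 * δ ^ 2 := by positivity
    simp only [hG]
    linarith
  have hGlip : ∀ g h, ‖g‖ ≤ 1 → ‖h‖ ≤ 1 → ‖G g - G h‖ ≤ 2 * r * δ' / 2 * ‖g - h‖ := by
    intro g h hg hh
    have h0 : G g - G h = δ' • R (g - h) + (δ' ^ 2) • (B (Dg g) (Dg (g - h))
        + B (Dg (g - h)) (Dg h)) := by
      simp only [hG, hRsub, hDgsub, map_sub, LinearMap.sub_apply]
      module
    have q1 : ‖δ' • R (g - h)‖ ≤ (δ / 4) * (10 * C * ε + 4 * C ^ 2 * δ) * ‖g - h‖ := by
      rw [norm_smul, Real.norm_eq_abs, abs_of_pos hδ'0]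
      calc δ' * ‖R (g - h)‖ ≤ δ' * (P * (10 * C * ε + 4 * C ^ 2 * δ) * ‖g - h‖) :=
            mul_le_mul_of_nonneg_left (hRb (g - h)) hδ'0.le
        _ = (P * δ') * (10 * C * ε + 4 * C ^ 2 * δ) * ‖g - h‖ := by ring
        _ = (δ / 4) * (10 * C * ε + 4 * C ^ 2 * δ) * ‖g - h‖ := by rw [hδ'P]
    have q2 : ‖(δ' ^ 2) • (B (Dg g) (Dg (g - h)) + B (Dg (g - h)) (Dg h))‖
        ≤ C ^ 2 * δ ^ 2 / 2 * ‖g - h‖ := by
      rw [norm_smul, Real.norm_eq_abs, abs_of_pos (by positivity)]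
      have h1 := hBDD g (g - h)
      have h2 := hBDD (g - h) h
      have h3 := norm_add_le (B (Dg g) (Dg (g - h))) (B (Dg (g - h)) (Dg h))
      have h4 : 4 * P ^ 2 * C ^ 2 * ‖g‖ * ‖g - h‖ ≤ 4 * P ^ 2 * C ^ 2 * ‖g - h‖ := by
        refine mul_le_mul_of_nonneg_right ?_ (norm_nonneg _)
        exact mul_le_of_le_one_right (by positivity) hg
      have h5 : 4 * P ^ 2 * C ^ 2 * ‖g - h‖ * ‖h‖ ≤ 4 * P ^ 2 * C ^ 2 * ‖g - h‖ :=
        mul_le_of_le_one_right (by positivity) hh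
      calc δ' ^ 2 * ‖B (Dg g) (Dg (g - h)) + B (Dg (g - h)) (Dg h)‖
          ≤ δ' ^ 2 * (8 * P ^ 2 * C ^ 2 * ‖g - h‖) :=
            mul_le_mul_of_nonneg_left (by linarith) (by positivity)
        _ = (P * δ') ^ 2 * (8 * C ^ 2) * ‖g - h‖ := by ring
        _ = C ^ 2 * δ ^ 2 / 2 * ‖g - h‖ := by rw [hδ'P]; ring
    have q3 := norm_add_le (δ' • R (g - h)) ((δ' ^ 2) • (B (Dg g) (Dg (g - h))
        + B (Dg (g - h)) (Dg h)))
    have q4 : 2 * r * δ' / 2 = r * δ / (4 * P) := by rw [hδ']; field_simp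
    have q5 : (δ / 4) * (10 * C * ε + 4 * C ^ 2 * δ) + C ^ 2 * δ ^ 2 / 2 ≤ r * δ / (4 * P) := by
      rw [le_div_iff₀ (by positivity)]
      have h1 : δ * (C * ε) ≤ 1 * (C * ε) := mul_le_mul_of_nonneg_right hδ1 (by positivity)
      have h2 : 0 ≤ C * ε := mul_nonneg hC hε0.le
      have h3 : δ / 4 * (10 * C * ε + 4 * C ^ 2 * δ) + C ^ 2 * δ ^ 2 / 2
          ≤ 3 * (C * ε) + 3 / 2 * (C ^ 2 * δ ^ 2) := by nlinarith
      have h4 : (3 * (C * ε) + 3 / 2 * (C ^ 2 * δ ^ 2)) * (4 * P)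
          = (48 * P * C * ε) / 4 + (12 * P * C ^ 2 * δ) * δ / 2 := by ring
      have h5 : (12 * P * C ^ 2 * δ) * δ ≤ r * δ := mul_le_mul_of_nonneg_right hδ2 hδ0.le
      have h6 : 0 < r * δ := by positivity
      calc (δ / 4 * (10 * C * ε + 4 * C ^ 2 * δ) + C ^ 2 * δ ^ 2 / 2) * (4 * P)
          ≤ (3 * (C * ε) + 3 / 2 * (C ^ 2 * δ ^ 2)) * (4 * P) :=
            mul_le_mul_of_nonneg_right h3 (by positivity)
        _ = (48 * P * C * ε) / 4 + (12 * P * C ^ 2 * δ) * δ / 2 := h4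
        _ ≤ r * δ := by linarith
    rw [h0, q4]
    have q6 := mul_le_mul_of_nonneg_right q5 (norm_nonneg (g - h))
    linarith
  obtain ⟨g, hg, hfix⟩ := OpenMap_fix G (κ := 2 * r * δ') (by positivity) hGb hGlip
  refine ⟨a + δ' • Dg g, hmem g hg, ?_⟩
  rw [hkey g, hfix, add_neg_cancel, add_zero]

end Pool.Agent.Lib.MP_28b8de_an
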