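import Pool.Agent.Lib.MP_28b8de_an.CoreA
import Pool.Agent.Lib.MP_28b8de_an.OpenMap

/-!
MP_28b8de_an, module CoreB: the core theorem.
-/

namespace Pool.Agent.Lib.MP_28b8de_an

open Filter Topology Set MeasureTheory

variable {k m : ℕ} {b : Fin k → ℝ → ℝ} {D : Fin m → Dat k} {T : ℝ}

/-- the multipliers whose switching function and kernel vanish -/
def Lam0 (b : Fin k → ℝ → ℝ) (D : Fin m → Dat k) (T : ℝ) (u : ℝ → ℝ) :
    Submodule ℝ (Mul k m) where
  carrier := {ν | (∀ t ∈ Icc 0 T, phiN b D T u ν t = 0) ∧ ∀ t s, kerN b D ν t s = 0}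
  add_mem' := by
    rintro ν ν' ⟨h1, h2⟩ ⟨h3, h4⟩
    constructor
    · intro t ht
      have e : phiN b D T u (ν + ν') t = phiN b D T u ν t + phiN b D T u ν' t := by
        unfold phiN
        simp only [Prod.fst_add, Prod.snd_add, Pi.add_apply, add_mul, Finset.sum_add_distrib]
        ring
      rw [e, h1 t ht, h3 t ht, add_zero]
    · intro t s
      have e : kerN b D (ν + ν') t s = kerN b D ν t s + kerN b D ν' t s := by
        unfold kerN
        simp only [Prod.snd_add, Pi.add_apply, add_mul, Finset.sum_add_distrib]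
      rw [e, h2 t s, h4 t s, add_zero]
  zero_mem' := by
    constructor
    · intro t _
      simp [phiN]
    · intro t s
      simp [kerN]
  smul_mem' := by
    rintro r ν ⟨h1, h2⟩
    constructor
    · intro t ht
      have e : phiN b D T u (r • ν) t = r * phiN b D T u ν t := by
        unfold phiN
        simp only [Prod.smul_fst, Prod.smul_snd, Pi.smul_apply, smul_eq_mul, mul_add,
          Finset.mul_sum, mul_assoc]
      rw [e, h1 t ht, mul_zero]
    · intro t s
      have e : kerN b D (r • ν) t s = r * kerN b D ν t s := by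
        unfold kerN
        simp only [Prod.smul_snd, Pi.smul_apply, smul_eq_mul, Finset.mul_sum, mul_assoc]
      rw [e, h2 t s, mul_zero]

/-- pure x-multipliers -/
def XX (k m : ℕ) : Submodule ℝ (Mul k m) := LinearMap.ker (LinearMap.snd ℝ (Fin k → ℝ) (Fin m → ℝ))

theorem mem_XX {ν : Mul k m} : ν ∈ XX k m ↔ ν.2 = 0 := Iff.rfl

/-- the subspaces of section 3 -/
theorem exists_sub {E : Type*} [AddCommGroup E] [Module ℝ E] (L X : Submodule ℝ E) :
    ∃ L1 : Submodule ℝ E, IsCompl L L1 ∧ X ≤ (L ⊓ X) ⊔ (L1 ⊓ X) := by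
  obtain ⟨Y, hY⟩ := Submodule.exists_isCompl (L ⊓ X)
  have h1 : Disjoint (Y ⊓ X) L := by
    rw [disjoint_iff]
    have := hY.inf_eq_bot
    rw [eq_bot_iff]
    calc Y ⊓ X ⊓ L ≤ L ⊓ X ⊓ Y := by
          apply le_inf (le_inf inf_le_right (inf_le_left.trans inf_le_right))
            (inf_le_left.trans inf_le_left)
      _ = ⊥ := this
  obtain ⟨L1, hL1, hc⟩ := h1.exists_isCompl
  refine ⟨L1, hc.symm, ?_⟩
  have h2 : X = (L ⊓ X) ⊔ (Y ⊓ X) := by
    have h3 : (L ⊓ X) ⊔ (Y ⊓ X) = ((L ⊓ X) ⊔ Y) ⊓ X :=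
      (sup_inf_assoc_of_le Y (inf_le_right : L ⊓ X ≤ X)).symm
    rw [h3, hY.sup_eq_top, top_inf_eq]
  calc X = (L ⊓ X) ⊔ (Y ⊓ X) := h2
    _ ≤ (L ⊓ X) ⊔ (L1 ⊓ X) := by
      apply sup_le_sup_left
      exact le_inf hL1 inf_le_right

end Pool.Agent.Lib.MP_28b8de_an
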