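import Pool.Agent.Lib.MP_28b8de_an.Pohozaev

/-!
MP_28b8de_an, module Gap: short loops of the relay equation are trivial.
-/

namespace Pool.Agent.Lib.MP_28b8de_an

open Filter Topology Set MeasureTheory

theorem ac_abs {f : ℝ → ℝ} {s s' : ℝ} (hf : AbsolutelyContinuousOnInterval f s s') :
    AbsolutelyContinuousOnInterval (fun t => |f t|) s s' := by
  rw [absolutelyContinuousOnInterval_iff] at hf ⊢
  intro ε hε
  obtain ⟨δ, hδ, h⟩ := hf ε hε
  refine ⟨δ, hδ, fun E hE hlen => lt_of_le_of_lt ?_ (h E hE hlen)⟩
  apply Finset.sum_le_sum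
  intro i _
  rw [Real.dist_eq, Real.dist_eq]
  exact abs_abs_sub_abs_le_abs_sub _ _

theorem der_abs {g₀ g₁ u : ℝ → ℝ} {s s' : ℝ} (hac : AbsolutelyContinuousOnInterval g₀ s s')
    (hd : ∀ᵐ t, t ∈ uIoc s s' → HasDerivAt g₀ (g₁ t) t)
    (hu : ∀ᵐ t, t ∈ uIoc s s' → u t * g₀ t = |g₀ t|) :
    ∀ᵐ t, t ∈ uIoc s s' → HasDerivAt (fun t => |g₀ t|) (u t * g₁ t) t := by
  filter_upwards [hd, hu, (ac_abs hac).ae_differentiableAt] with t h1 h2 h3 ht
  have hd1 := h1 ht
  have hu1 := h2 ht
  have hd3 := h3 (uIoc_subset_uIcc ht)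
  rcases lt_trichotomy (g₀ t) 0 with h | h | h
  · have hut : u t = -1 := by
      rw [abs_of_neg h] at hu1
      have : (u t + 1) * g₀ t = 0 := by linarith
      rcases mul_eq_zero.1 this with h4 | h4
      · linarith
      · exact absurd h4 h.ne
    rw [hut]
    have h5 : HasDerivAt (fun t => - g₀ t) (-1 * g₁ t) t := by
      have := hd1.neg
      rw [neg_one_mul]
      exact this
    apply h5.congr_of_eventuallyEq
    filter_upwards [hd1.continuousAt.eventually (gt_mem_nhds h)] with r hr
    exact abs_of_neg hr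
  · have hmin : IsLocalMin (fun t => |g₀ t|) t := by
      apply Eventually.of_forall
      intro r
      simp only [h, abs_zero]
      exact abs_nonneg _
    have h6 : HasDerivAt (fun t => |g₀ t|) 0 t := by
      have h7 := hd3.hasDerivAt
      rwa [hmin.hasDerivAt_eq_zero h7] at h7
    have h8 : HasDerivAt g₀ 0 t := by
      rw [hasDerivAt_iff_isLittleO] at h6 ⊢
      simp only [smul_zero, sub_zero, h, abs_zero] at h6 ⊢
      rw [← Asymptotics.isLittleO_norm_left]
      exact h6
    have h9 : g₁ t = 0 := hd1.unique h8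
    rw [h9, mul_zero]
    exact h6
  · have hut : u t = 1 := by
      rw [abs_of_pos h] at hu1
      have : (u t - 1) * g₀ t = 0 := by linarith
      rcases mul_eq_zero.1 this with h4 | h4
      · linarith
      · exact absurd h4 h.ne'
    rw [hut, one_mul]
    apply hd1.congr_of_eventuallyEq
    filter_upwards [hd1.continuousAt.eventually (lt_mem_nhds h)] with r hr
    exact abs_of_pos hr

/-- Short loops are trivial. `g 0 = φ`, `g (j+1)` is the derivative of `g j` for `j + 1 < N`, and
`g (N-1)` has the almost everywhere derivative `g N + β u`. -/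
theorem gap {N : ℕ} (hN : 1 ≤ N) {g : ℕ → ℝ → ℝ} {β β' h' u : ℝ → ℝ} {s s' σ β0 e C : ℝ}
    (hs : s < s') (hβ0 : 0 < β0) (he : 0 < e)
    (hac : ∀ j < N, AbsolutelyContinuousOnInterval (g j) s s')
    (hd : ∀ j, j + 1 < N → ∀ᵐ t, t ∈ uIoc s s' → HasDerivAt (g j) (g (j + 1) t) t)
    (hd1 : ∀ j, j + 1 = N → ∀ᵐ t, t ∈ uIoc s s' → HasDerivAt (g j) (g N t + β t * u t) t)
    (hl : ∀ j < N, g j s = 0) (hr : ∀ j < N, g j s' = 0)
    (hacN : AbsolutelyContinuousOnInterval (g N) s s')
    (hdN : ∀ᵐ t, t ∈ uIoc s s' → HasDerivAt (g N) (h' t) t)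
    (hacβ : AbsolutelyContinuousOnInterval β s s')
    (hdβ : ∀ᵐ t, t ∈ uIoc s s' → HasDerivAt β (β' t) t)
    (hu : ∀ᵐ t, t ∈ uIoc s s' → u t * g 0 t = |g 0 t|)
    (hbβ : ∀ t ∈ Icc s s', β0 ≤ σ * β t) (hσ : |σ| = 1)
    (hgN : ∀ t ∈ Icc s s', |g N t| ≤ (1 - e) * (σ * β t))
    (hC1 : ∀ᵐ t, t ∈ uIoc s s' → |β' t| ≤ C) (hC2 : ∀ᵐ t, t ∈ uIoc s s' → |h' t| ≤ C)
    (hsmall : 2 * C * (s' - s) < e * β0) :
    ∀ t ∈ Icc s s', g 0 t = 0 := by
  have huIcc : uIcc s s' = Icc s s' := uIcc_of_le hs.le
  have huIoc : uIoc s s' = Ioc s s' := uIoc_of_le hs.le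
  have c0 : ContinuousOn (g 0) (uIcc s s') := (hac 0 (by omega)).continuousOn
  have cN : ContinuousOn (g N) (uIcc s s') := hacN.continuousOn
  have cβ : ContinuousOn β (uIcc s s') := hacβ.continuousOn
  -- the chain
  set G : ℕ → ℝ → ℝ := fun j => if j < N then g j else fun t => g N t + β t * u t with hG
  have hGj : ∀ j, j < N → G j = g j := fun j hj => if_pos hj
  have hGN : G N = fun t => g N t + β t * u t := if_neg (lt_irrefl N)
  have hch : Chain N G s s' := by
    refine ⟨fun j hj => ?_, fun j hj => ?_, fun j hj => ?_, fun j hj => ?_⟩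
    · rw [hGj j hj]
      exact hac j hj
    · rcases Nat.lt_or_ge (j + 1) N with h1 | h1
      · rw [hGj j hj, hGj (j + 1) h1]
        exact hd j h1
      · have h2 : j + 1 = N := by omega
        rw [hGj j hj, h2, hGN]
        exact hd1 j h2
    · rw [hGj j hj]
      exact hl j hj
    · rw [hGj j hj]
      exact hr j hj
  have hG0 : G 0 = g 0 := hGj 0 (by omega)
  -- the two main integrals
  have iabs : IntervalIntegrable (fun t => |g 0 t|) volume s s' := c0.abs.intervalIntegrable
  set A : ℝ := ∫ t in s..s', |g 0 t| with hA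
  have hA0 : 0 ≤ A := intervalIntegral.integral_nonneg hs.le (fun t _ => abs_nonneg _)
  have cY : ContinuousOn (fun t => g N t * g 0 t + β t * |g 0 t|) (uIcc s s') :=
    (cN.mul c0).add (cβ.mul c0.abs)
  set Y : ℝ := ∫ t in s..s', (g N t * g 0 t + β t * |g 0 t|) with hY
  have hσβ : ∀ t ∈ Icc s s', e * β0 * |g 0 t| ≤ σ * (g N t * g 0 t + β t * |g 0 t|) := by
    intro t ht
    have h1 := hbβ t ht
    have h2 := hgN t ht
    have h3 : -(|g N t| * |g 0 t|) ≤ σ * (g N t * g 0 t) := by
      have h4 : |σ * (g N t * g 0 t)| = |g N t| * |g 0 t| := by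
        rw [abs_mul, abs_mul, hσ, one_mul]
      rw [← h4]
      exact neg_abs_le _
    have h5 : |g N t| * |g 0 t| ≤ (1 - e) * (σ * β t) * |g 0 t| := by
      exact mul_le_mul_of_nonneg_right h2 (abs_nonneg _)
    have h6 : e * β0 * |g 0 t| ≤ e * (σ * β t) * |g 0 t| := by
      apply mul_le_mul_of_nonneg_right _ (abs_nonneg _)
      exact mul_le_mul_of_nonneg_left h1 he.le
    nlinarith
  have hYA : e * β0 * A ≤ |Y| := by
    have h1 : e * β0 * A ≤ σ * Y := by
      rw [hA, hY, ← intervalIntegral.integral_const_mul, ← intervalIntegral.integral_const_mul]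
      apply intervalIntegral.integral_mono_on hs.le (iabs.const_mul _)
        (cY.intervalIntegrable.const_mul _)
      intro t ht
      exact hσβ t ht
    have h2 : σ * Y ≤ |Y| := by
      have := le_abs_self (σ * Y)
      rwa [abs_mul, hσ, one_mul] at this
    linarith
  -- it suffices to bound `|Y|` by `2 C (s'-s) A`
  have hfin : |Y| ≤ 2 * C * (s' - s) * A → ∀ t ∈ Icc s s', g 0 t = 0 := by
    intro hle
    have hA1 : A = 0 := by
      by_contra hne
      have hpos : 0 < A := lt_of_le_of_ne hA0 (Ne.symm hne)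
      have : e * β0 * A ≤ 2 * C * (s' - s) * A := hYA.trans hle
      have h3 := le_of_mul_le_mul_right this hpos
      linarith
    by_contra hcon
    push Not at hcon
    obtain ⟨t, ht, hne⟩ := hcon
    have hpos : 0 < A := by
      rw [hA]
      apply intervalIntegral.integral_pos hs (by rw [← huIcc]; exact c0.abs)
        (fun r _ => abs_nonneg _)
      exact ⟨t, ht, abs_pos.2 hne⟩
    linarith
  rcases Nat.even_or_odd' N with ⟨q, hq | hq⟩
  · -- even case
    obtain ⟨q', rfl⟩ : ∃ q', q = q' + 1 := ⟨q - 1, by omega⟩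
    have hN2 : N = 2 * q' + 2 := by omega
    have hG1 : G 1 = g 1 := hGj 1 (by omega)
    have hid := chain_even q' (g := G) (s := s) (s' := s') (by rw [← hN2]; exact hch)
    rw [← hN2, hG0, hG1, hGN] at hid
    set c : ℝ := 1 / 2 - ((q' : ℝ) + 1) with hc
    have c1 : ContinuousOn (g 1) (uIcc s s') := (hac 1 (by omega)).continuousOn
    have hdabs := der_abs (hac 0 (by omega)) (hd 0 (by omega)) hu
    have cs : ContinuousOn (fun t : ℝ => t - s) (uIcc s s') := by fun_prop
    -- integrability of u g_1
    have iug : IntervalIntegrable (fun t => u t * g 1 t) volume s s' := by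
      have h1 := (ac_abs (hac 0 (by omega))).intervalIntegrable_deriv
      apply h1.congr_ae
      rw [Filter.EventuallyEq, ae_restrict_iff' measurableSet_uIoc]
      filter_upwards [hdabs] with t ht htm
      exact (ht htm).deriv
    have iN' : IntervalIntegrable h' volume s s' := by
      apply hacN.intervalIntegrable_deriv.congr_ae
      rw [Filter.EventuallyEq, ae_restrict_iff' measurableSet_uIoc]
      filter_upwards [hdN] with t ht htm
      exact (ht htm).deriv
    have iβ' : IntervalIntegrable β' volume s s' := by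
      apply hacβ.intervalIntegrable_deriv.congr_ae
      rw [Filter.EventuallyEq, ae_restrict_iff' measurableSet_uIoc]
      filter_upwards [hdβ] with t ht htm
      exact (ht htm).deriv
    -- first integration by parts
    have e1 : ∫ t in s..s', ((t - s) * g N t) * g 1 t
        = - ∫ t in s..s', (g N t + (t - s) * h' t) * g 0 t := by
      apply ibp_zero ((ac_id_sub s s').mul hacN) (hac 0 (by omega)) _ (hd 0 (by omega))
      · rw [hl 0 (by omega)]; ring
      · rw [hr 0 (by omega)]; ring
      · filter_upwards [hdN] with t ht htm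
        have := (der_id_sub s t).mul (ht htm)
        have e : 1 * g N t + (t - s) * h' t = g N t + (t - s) * h' t := by ring
        rw [e] at this
        exact this
    have e2 : ∫ t in s..s', ((t - s) * β t) * (u t * g 1 t)
        = - ∫ t in s..s', (β t + (t - s) * β' t) * |g 0 t| := by
      apply ibp_zero ((ac_id_sub s s').mul hacβ) (ac_abs (hac 0 (by omega))) _ hdabs
      · rw [hl 0 (by omega)]; simp
      · rw [hr 0 (by omega)]; simp
      · filter_upwards [hdβ] with t ht htm
        have := (der_id_sub s t).mul (ht htm)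
        have e : 1 * β t + (t - s) * β' t = β t + (t - s) * β' t := by ring
        rw [e] at this
        exact this
    -- split the identity
    have iA : IntervalIntegrable (fun t => ((t - s) * g N t) * g 1 t) volume s s' :=
      ((cs.mul cN).mul c1).intervalIntegrable
    have iB : IntervalIntegrable (fun t => ((t - s) * β t) * (u t * g 1 t)) volume s s' :=
      iug.continuousOn_mul (cs.mul cβ)
    have iC : IntervalIntegrable (fun t => g N t * g 0 t + β t * |g 0 t|) volume s s' :=
      cY.intervalIntegrable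
    have e3 : ∫ t in s..s', ((t - s) * g 1 t + c * g 0 t) * (g N t + β t * u t)
        = (∫ t in s..s', ((t - s) * g N t) * g 1 t)
          + (∫ t in s..s', ((t - s) * β t) * (u t * g 1 t)) + c * Y := by
      rw [hY, ← intervalIntegral.integral_const_mul, ← intervalIntegral.integral_add iA iB,
        ← intervalIntegral.integral_add (iA.add iB) (iC.const_mul c)]
      apply intervalIntegral.integral_congr_ae
      filter_upwards [hu] with t ht htm
      have h1 := ht htm
      have : ((t - s) * g 1 t + c * g 0 t) * (g N t + β t * u t)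
          = (t - s) * g N t * g 1 t + (t - s) * β t * (u t * g 1 t)
            + c * (g N t * g 0 t + β t * (u t * g 0 t)) := by ring
      rw [this, h1]
    have iD : IntervalIntegrable (fun t => (t - s) * (h' t * g 0 t + β' t * |g 0 t|))
        volume s s' := by
      apply IntervalIntegrable.continuousOn_mul _ cs
      exact (iN'.mul_continuousOn c0).add (iβ'.mul_continuousOn c0.abs)
    have iE : IntervalIntegrable (fun t => (g N t + (t - s) * h' t) * g 0 t) volume s s' :=
      ((cN.intervalIntegrable).add (iN'.continuousOn_mul cs)).mul_continuousOn c0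
    have iF : IntervalIntegrable (fun t => (β t + (t - s) * β' t) * |g 0 t|) volume s s' :=
      ((cβ.intervalIntegrable).add (iβ'.continuousOn_mul cs)).mul_continuousOn c0.abs
    set Z : ℝ := ∫ t in s..s', (t - s) * (h' t * g 0 t + β' t * |g 0 t|) with hZ
    have e4 : (∫ t in s..s', (g N t + (t - s) * h' t) * g 0 t)
        + (∫ t in s..s', (β t + (t - s) * β' t) * |g 0 t|) = Y + Z := by
      rw [hY, hZ, ← intervalIntegral.integral_add iE iF, ← intervalIntegral.integral_add iC iD]
      congr 1
      ext t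
      ring
    have e5 : (c - 1) * Y = Z := by
      rw [e3, e1, e2] at hid
      linarith
    have hZb : |Z| ≤ 2 * C * (s' - s) * A := by
      have h1 : |Z| ≤ ∫ t in s..s', |(t - s) * (h' t * g 0 t + β' t * |g 0 t|)| := by
        rw [hZ]
        exact intervalIntegral.abs_integral_le_integral_abs hs.le
      refine h1.trans ?_
      have h2 : 2 * C * (s' - s) * A = ∫ t in s..s', 2 * C * (s' - s) * |g 0 t| := by
        rw [intervalIntegral.integral_const_mul]
      rw [h2]
      apply intervalIntegral.integral_mono_ae_restrict hs.le iD.abs (iabs.const_mul _)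
      rw [Filter.EventuallyLE, ae_restrict_iff' measurableSet_Icc]
      have hae : ∀ᵐ t : ℝ, t ≠ s := by
        rw [ae_iff]
        simp
      filter_upwards [hC1, hC2, hae] with t h3 h4 hts htm
      have htm' : t ∈ uIoc s s' := by
        rw [huIoc]
        exact ⟨lt_of_le_of_ne htm.1 (Ne.symm hts), htm.2⟩
      have h5 := h3 htm'
      have h6 := h4 htm'
      rw [abs_mul]
      have h7 : |t - s| ≤ s' - s := by
        rw [abs_of_nonneg (by linarith [htm.1])]
        linarith [htm.2]
      have h8 : abs (h' t * g 0 t + β' t * |g 0 t|) ≤ 2 * C * |g 0 t| := by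
        calc abs (h' t * g 0 t + β' t * |g 0 t|)
            ≤ abs (h' t * g 0 t) + abs (β' t * |g 0 t|) := abs_add_le _ _
          _ = |h' t| * |g 0 t| + |β' t| * |g 0 t| := by rw [abs_mul, abs_mul, abs_abs]
          _ ≤ C * |g 0 t| + C * |g 0 t| := by gcongr
          _ = 2 * C * |g 0 t| := by ring
      calc |t - s| * abs (h' t * g 0 t + β' t * |g 0 t|) ≤ (s' - s) * (2 * C * |g 0 t|) := by
            apply mul_le_mul h7 h8 (abs_nonneg _) (by linarith)
        _ = 2 * C * (s' - s) * |g 0 t| := by ring
    apply hfin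
    have hc1 : 1 ≤ |c - 1| := by
      have hq0 : (0 : ℝ) ≤ q' := Nat.cast_nonneg q'
      rw [abs_of_nonpos (by rw [hc]; linarith), hc]
      linarith
    have h9 : |c - 1| * |Y| ≤ 2 * C * (s' - s) * A := by
      rw [← abs_mul, e5]
      exact hZb
    nlinarith [abs_nonneg Y]
  · -- odd case
    have hid := chain_odd q (g := G) (s := s) (s' := s') (by rw [← hq]; exact hch)
    rw [← hq, hG0, hGN] at hid
    have hY0 : Y = 0 := by
      rw [hY, ← hid]
      apply intervalIntegral.integral_congr_ae
      filter_upwards [hu] with t ht htm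
      have h1 := ht htm
      have : (g N t + β t * u t) * g 0 t = g N t * g 0 t + β t * (u t * g 0 t) := by ring
      rw [this, h1]
    have hC0 : 0 ≤ C ∨ A = 0 := by
      by_contra hcon
      push Not at hcon
      obtain ⟨h1, h2⟩ := hcon
      have hpos : 0 < A := lt_of_le_of_ne hA0 (Ne.symm h2)
      have : 0 < e * β0 * A := by positivity
      rw [hY0, abs_zero] at hYA
      linarith
    apply hfin
    rw [hY0, abs_zero]
    rcases hC0 with h | h
    · have : 0 ≤ s' - s := by linarith
      positivity
    · rw [h, mul_zero]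

end Pool.Agent.Lib.MP_28b8de_an
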