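import Pool.Agent.Lib.MP_28b8de_an.RelayDefs

/-!
MP_28b8de_an, module LQDefs: definitions for the linear-quadratic part (bounded measurable
controls, the weak seminorm, linear-quadratic functionals, variation of constants).
-/

namespace Pool.Agent.Lib.MP_28b8de_an

open Filter Topology Set MeasureTheory

/-! ### controls -/

/-- bounded measurable functions on the line -/
def BM : Submodule ℝ (ℝ → ℝ) where
  carrier := {u | Measurable u ∧ ∃ K : ℝ, ∀ t, |u t| ≤ K}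
  add_mem' := by
    rintro u v ⟨hu, K, hK⟩ ⟨hv, L, hL⟩
    refine ⟨hu.add hv, K + L, fun t => ?_⟩
    exact (abs_add_le _ _).trans (add_le_add (hK t) (hL t))
  zero_mem' := ⟨measurable_const, 0, fun t => by simp⟩
  smul_mem' := by
    rintro r u ⟨hu, K, hK⟩
    refine ⟨hu.const_smul r, |r| * K, fun t => ?_⟩
    simp only [Pi.smul_apply, smul_eq_mul, abs_mul]
    exact mul_le_mul_of_nonneg_left (hK t) (abs_nonneg r)

theorem BM_meas (u : BM) : Measurable u.1 := u.2.1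

theorem BM_bdd (u : BM) : ∃ K : ℝ, 0 ≤ K ∧ ∀ t, |u.1 t| ≤ K := by
  obtain ⟨K, hK⟩ := u.2.2
  exact ⟨K, (abs_nonneg _).trans (hK 0), hK⟩

theorem BM_int (u : BM) (s t : ℝ) : IntervalIntegrable u.1 volume s t := by
  obtain ⟨K, _, hK⟩ := BM_bdd u
  have := intInt (ψ := fun _ => (1 : ℝ)) (K := K) continuous_const (BM_meas u) hK s t
  simpa using this

theorem BM_cont (u : BM) : Continuous fun t => ∫ s in (0 : ℝ)..t, u.1 s :=
  intervalIntegral.continuous_primitive (fun s t => BM_int u s t) 0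

/-- the primitive, as a continuous function on `[0,T]` -/
noncomputable def prim (T : ℝ) : BM →ₗ[ℝ] C(Icc (0 : ℝ) T, ℝ) where
  toFun u := ⟨fun t => ∫ s in (0 : ℝ)..t.1, u.1 s, (BM_cont u).comp continuous_subtype_val⟩
  map_add' u v := by
    ext t
    simp only [Submodule.coe_add, Pi.add_apply, ContinuousMap.coe_mk, ContinuousMap.add_apply]
    exact intervalIntegral.integral_add (BM_int u _ _) (BM_int v _ _)
  map_smul' r u := by
    ext t
    simp only [Submodule.coe_smul, Pi.smul_apply, ContinuousMap.coe_mk, RingHom.id_apply,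
      ContinuousMap.smul_apply, smul_eq_mul]
    exact intervalIntegral.integral_const_mul _ _

/-- the weak seminorm `sup_{t ∈ [0,T]} |∫_0^t v|` -/
noncomputable def om (T : ℝ) : Seminorm ℝ BM :=
  (normSeminorm ℝ C(Icc (0 : ℝ) T, ℝ)).comp (prim T)

theorem om_le {T : ℝ} {v : BM} {M : ℝ} (hM : 0 ≤ M) :
    om T v ≤ M ↔ ∀ t ∈ Icc (0 : ℝ) T, |∫ s in (0 : ℝ)..t, v.1 s| ≤ M := by
  show ‖prim T v‖ ≤ M ↔ _
  rw [ContinuousMap.norm_le _ hM]
  constructor
  · intro h t ht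
    exact h ⟨t, ht⟩
  · intro h t
    exact h t.1 t.2

theorem le_om {T : ℝ} (v : BM) {t : ℝ} (ht : t ∈ Icc (0 : ℝ) T) :
    |∫ s in (0 : ℝ)..t, v.1 s| ≤ om T v :=
  (om_le (apply_nonneg (om T) v)).1 le_rfl t ht

/-- admissible controls -/
def UU : Set BM := {u | ∀ t, |u.1 t| ≤ 1}

/-- admissible controls with a countable switching set -/
def DD (T : ℝ) : Set BM := {u | (∀ t, |u.1 t| ≤ 1) ∧ (SwSet T u.1).Countable}

/-! ### linear-quadratic functionals -/

/-- the coefficients of a linear-quadratic functional of the control -/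
structure Dat (k : ℕ) where
  /-- quadratic part -/
  Q : Fin k → Fin k → ℝ → ℝ
  /-- linear part -/
  l : Fin k → ℝ → ℝ
  /-- coefficient of `u ξ_i` -/
  kk : Fin k → ℝ → ℝ
  /-- coefficient of `u` -/
  ka : ℝ → ℝ

/-- all coefficients are real analytic on the line -/
structure Dat.An {k : ℕ} (D : Dat k) : Prop where
  Q : ∀ i i', AnalyticOnNhd ℝ (D.Q i i') univ
  l : ∀ i, AnalyticOnNhd ℝ (D.l i) univ
  kk : ∀ i, AnalyticOnNhd ℝ (D.kk i) univ
  ka : AnalyticOnNhd ℝ D.ka univ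

section

variable {k : ℕ} (b : Fin k → ℝ → ℝ) (D : Dat k) (T : ℝ)

/-- the linear part `∫_0^T (l·ξ(u) + κ u)` -/
noncomputable def linJ (u : ℝ → ℝ) : ℝ :=
  ∫ t in (0 : ℝ)..T, (∑ i, D.l i t * xi b u i t + D.ka t * u t)

/-- the bilinear part `∫_0^T (ξ(u)·Q ξ(v) + u k·ξ(v))` -/
noncomputable def bilJ (u v : ℝ → ℝ) : ℝ :=
  ∫ t in (0 : ℝ)..T, (∑ i, ∑ i', D.Q i i' t * xi b u i t * xi b v i' t
    + u t * ∑ i, D.kk i t * xi b v i t)

/-- `G_i = ((Q + Qᵀ) ξ(u) + l + u k)_i` -/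
noncomputable def gJ (u : ℝ → ℝ) (i : Fin k) (t : ℝ) : ℝ :=
  ∑ i', (D.Q i i' t + D.Q i' i t) * xi b u i' t + D.l i t + u t * D.kk i t

/-- the switching function of the functional at `u` -/
noncomputable def phiJ (u : ℝ → ℝ) (t : ℝ) : ℝ :=
  ∑ i, b i t * (∫ s in t..T, gJ b D u i s) + ∑ i, D.kk i t * xi b u i t + D.ka t

/-- `R = ∫_0^t (Q + Qᵀ)` -/
noncomputable def RJ (i i' : Fin k) (t : ℝ) : ℝ := ∫ s in (0 : ℝ)..t, (D.Q i i' s + D.Q i' i s)

/-- the functions `a_i` of the kernel -/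
noncomputable def aJ : Fin k ⊕ Fin k → ℝ → ℝ :=
  Sum.elim (fun i t => D.kk i t - ∑ i', RJ D i' i t * b i' t) b

/-- the functions `c_i` of the kernel -/
noncomputable def cJ : Fin k ⊕ Fin k → ℝ → ℝ :=
  Sum.elim b (fun i t => ∑ i', RJ D i i' t * b i' t - D.kk i t)

/-- the analytic part of the switching function -/
noncomputable def psiJ (u : ℝ → ℝ) (t : ℝ) : ℝ :=
  ∑ i, b i t * ((∫ s in (0 : ℝ)..T, gJ b D u i s) - ∫ s in (0 : ℝ)..t, D.l i s) + D.ka t

end

/-! ### variation of constants -/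

/-- `M(t) = exp (tA)`, `N(t) = exp (-tA)`, entrywise -/
structure FlowData {k : ℕ} (A : Matrix (Fin k) (Fin k) ℝ) (M N : Fin k → Fin k → ℝ → ℝ) :
    Prop where
  Man : ∀ i j, AnalyticOnNhd ℝ (M i j) univ
  Nan : ∀ i j, AnalyticOnNhd ℝ (N i j) univ
  M0 : ∀ i j, M i j 0 = if i = j then 1 else 0
  N0 : ∀ i j, N i j 0 = if i = j then 1 else 0
  MN : ∀ i j t, ∑ l, M i l t * N l j t = if i = j then 1 else 0
  NM : ∀ i j t, ∑ l, N i l t * M l j t = if i = j then 1 else 0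
  dM : ∀ i j t, HasDerivAt (M i j) (∑ l, A i l * M l j t) t
  dN : ∀ i j t, HasDerivAt (N i j) (- ∑ l, N i l t * A l j) t

/-- the solution of `x' = A x + p + u q`, `x 0 = x0` -/
noncomputable def vc {k : ℕ} (M N : Fin k → Fin k → ℝ → ℝ) (x0 : Fin k → ℝ)
    (p q : Fin k → ℝ → ℝ) (u : ℝ → ℝ) (i : Fin k) (t : ℝ) : ℝ :=
  ∑ j, M i j t * (x0 j + ∫ s in (0 : ℝ)..t, ∑ l, N j l s * (p l s + u s * q l s))

end Pool.Agent.Lib.MP_28b8de_an
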