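import Pool.Agent.Lib.MP_28b8de_an.LQDefs

/-!
MP_28b8de_an, module Expand (MSW-EX): the end point of the y-components is a constant plus a
linear-quadratic functional of the control.

PROOF.  Here b̃ j s = ∑ l, N j l s * b l s, X_j(s) = x0 j + ∫_0^s ∑_l N j l c_l, ξ_j = xi b̃ u j, so
vc M N x0 c b u a s = ∑_j M a j s (X_j(s) + ξ_j(s)) (split the integral: intInt).  With
P a s = ∑_j M a j s X_j(s) (analytic), vc a s = P a s + ∑_j M a j s ξ_j(s).  Insert and expand:
(D i₀).Q j j' s = ∑_i N' i₀ i s ∑_a ∑_a' Q i a a' s M a j s M a' j' s,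
(D i₀).l j s    = ∑_i N' i₀ i s [ ∑_a ∑_a' Q i a a' s (M a j s P a' s + P a s M a' j s) + ∑_a l i a s M a j s ],
(D i₀).kk j s   = ∑_i N' i₀ i s ∑_a kk i a s M a j s,
(D i₀).ka s     = ∑_i N' i₀ i s (∑_a kk i a s P a s + ka i s),
C0 i₀          = ∫_0^T ∑_i N' i₀ i s (∑_a ∑_a' Q i a a' s P a s P a' s + ∑_a l i a s P a s + r i s).
The integrand equals (integrand of C0) + (integrand of linJ) + (integrand of bilJ) pointwise (pure algebra with
finite sums: Finset.sum_add_distrib, Finset.mul_sum, Finset.sum_mul, Finset.sum_comm); then integral_add (the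
integrands are continuous + u * continuous: intInt; xi_cont).
-/

namespace Pool.Agent.Lib.MP_28b8de_an

open Filter Topology Set MeasureTheory

/-! ### algebra -/

private theorem expand_alg1 {k : ℕ} (Q : Fin k → Fin k → ℝ) (M : Fin k → Fin k → ℝ)
    (ξ : Fin k → ℝ) :
    ∑ a, ∑ a', Q a a' * (∑ j, M a j * ξ j) * (∑ j, M a' j * ξ j)
      = ∑ j, ∑ j', (∑ a, ∑ a', Q a a' * M a j * M a' j') * ξ j * ξ j' := by
  have h1 : ∀ a a', Q a a' * (∑ j, M a j * ξ j) * (∑ j, M a' j * ξ j)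
      = ∑ j, ∑ j', Q a a' * M a j * M a' j' * ξ j * ξ j' := by
    intro a a'
    rw [mul_assoc, Finset.sum_mul_sum, Finset.mul_sum]
    refine Finset.sum_congr rfl fun j _ => ?_
    rw [Finset.mul_sum]
    refine Finset.sum_congr rfl fun j' _ => ?_
    ring
  calc ∑ a, ∑ a', Q a a' * (∑ j, M a j * ξ j) * (∑ j, M a' j * ξ j)
      = ∑ a, ∑ a', ∑ j, ∑ j', Q a a' * M a j * M a' j' * ξ j * ξ j' :=
        Finset.sum_congr rfl fun a _ => Finset.sum_congr rfl fun a' _ => h1 a a'
    _ = ∑ a, ∑ j, ∑ a', ∑ j', Q a a' * M a j * M a' j' * ξ j * ξ j' :=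
        Finset.sum_congr rfl fun a _ => Finset.sum_comm
    _ = ∑ j, ∑ a, ∑ a', ∑ j', Q a a' * M a j * M a' j' * ξ j * ξ j' := Finset.sum_comm
    _ = ∑ j, ∑ a, ∑ j', ∑ a', Q a a' * M a j * M a' j' * ξ j * ξ j' :=
        Finset.sum_congr rfl fun j _ => Finset.sum_congr rfl fun a _ => Finset.sum_comm
    _ = ∑ j, ∑ j', ∑ a, ∑ a', Q a a' * M a j * M a' j' * ξ j * ξ j' :=
        Finset.sum_congr rfl fun j _ => Finset.sum_comm
    _ = ∑ j, ∑ j', (∑ a, ∑ a', Q a a' * M a j * M a' j') * ξ j * ξ j' := by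
        refine Finset.sum_congr rfl fun j _ => Finset.sum_congr rfl fun j' _ => ?_
        simp only [Finset.sum_mul]

private theorem expand_alg2 {k : ℕ} (l : Fin k → ℝ) (M : Fin k → Fin k → ℝ)
    (ξ : Fin k → ℝ) :
    ∑ a, l a * (∑ j, M a j * ξ j) = ∑ j, (∑ a, l a * M a j) * ξ j := by
  calc ∑ a, l a * (∑ j, M a j * ξ j) = ∑ a, ∑ j, l a * M a j * ξ j := by
        refine Finset.sum_congr rfl fun a _ => ?_
        rw [Finset.mul_sum]
        exact Finset.sum_congr rfl fun j _ => by ring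
    _ = ∑ j, ∑ a, l a * M a j * ξ j := Finset.sum_comm
    _ = ∑ j, (∑ a, l a * M a j) * ξ j := by
        refine Finset.sum_congr rfl fun j _ => ?_
        rw [Finset.sum_mul]

private theorem expand_alg3 {k : ℕ} (Q : Fin k → Fin k → ℝ) (M : Fin k → Fin k → ℝ)
    (P ξ : Fin k → ℝ) :
    ∑ a, ∑ a', Q a a' * (∑ j, M a j * ξ j) * P a' + ∑ a, ∑ a', Q a a' * P a * (∑ j, M a' j * ξ j)
      = ∑ j, (∑ a, ∑ a', Q a a' * (M a j * P a' + P a * M a' j)) * ξ j := by
  have h1 : ∑ a, ∑ a', Q a a' * (∑ j, M a j * ξ j) * P a'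
      = ∑ j, (∑ a, (∑ a', Q a a' * P a') * M a j) * ξ j := by
    rw [← expand_alg2 (fun a => ∑ a', Q a a' * P a') M ξ]
    refine Finset.sum_congr rfl fun a _ => ?_
    rw [Finset.sum_mul]
    exact Finset.sum_congr rfl fun a' _ => by ring
  have h2 : ∑ a, ∑ a', Q a a' * P a * (∑ j, M a' j * ξ j)
      = ∑ j, (∑ a', (∑ a, Q a a' * P a) * M a' j) * ξ j := by
    rw [← expand_alg2 (fun a' => ∑ a, Q a a' * P a) M ξ, Finset.sum_comm]
    refine Finset.sum_congr rfl fun a _ => ?_
    rw [Finset.sum_mul]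
  rw [h1, h2, ← Finset.sum_add_distrib]
  refine Finset.sum_congr rfl fun j _ => ?_
  rw [← add_mul]
  congr 1
  have h3 : ∑ a', (∑ a, Q a a' * P a) * M a' j = ∑ a, ∑ a', Q a a' * P a * M a' j := by
    rw [Finset.sum_comm]
    refine Finset.sum_congr rfl fun a _ => ?_
    rw [Finset.sum_mul]
  rw [h3, ← Finset.sum_add_distrib]
  refine Finset.sum_congr rfl fun a _ => ?_
  rw [Finset.sum_mul, ← Finset.sum_add_distrib]
  exact Finset.sum_congr rfl fun a' _ => by ring

private theorem expand_alg4 {k : ℕ} (Q : Fin k → Fin k → ℝ) (M : Fin k → Fin k → ℝ)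
    (P ξ l kk : Fin k → ℝ) (r ka u : ℝ) :
    ((∑ a, ∑ a', Q a a' * (P a + ∑ j, M a j * ξ j) * (P a' + ∑ j, M a' j * ξ j)
        + ∑ a, l a * (P a + ∑ j, M a j * ξ j) + r)
      + u * (∑ a, kk a * (P a + ∑ j, M a j * ξ j) + ka))
    = (∑ a, ∑ a', Q a a' * P a * P a' + ∑ a, l a * P a + r)
      + (∑ j, (∑ a, ∑ a', Q a a' * (M a j * P a' + P a * M a' j) + ∑ a, l a * M a j) * ξ j
        + (∑ a, kk a * P a + ka) * u)
      + (∑ j, ∑ j', (∑ a, ∑ a', Q a a' * M a j * M a' j') * ξ j * ξ j'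
        + u * ∑ j, (∑ a, kk a * M a j) * ξ j) := by
  have e1 : ∑ a, ∑ a', Q a a' * (P a + ∑ j, M a j * ξ j) * (P a' + ∑ j, M a' j * ξ j)
      = ∑ a, ∑ a', Q a a' * P a * P a'
        + (∑ a, ∑ a', Q a a' * (∑ j, M a j * ξ j) * P a'
          + ∑ a, ∑ a', Q a a' * P a * (∑ j, M a' j * ξ j))
        + ∑ a, ∑ a', Q a a' * (∑ j, M a j * ξ j) * (∑ j, M a' j * ξ j) := by
    rw [← Finset.sum_add_distrib, ← Finset.sum_add_distrib, ← Finset.sum_add_distrib]
    refine Finset.sum_congr rfl fun a _ => ?_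
    rw [← Finset.sum_add_distrib, ← Finset.sum_add_distrib, ← Finset.sum_add_distrib]
    exact Finset.sum_congr rfl fun a' _ => by ring
  have e2 : ∀ f : Fin k → ℝ, ∑ a, f a * (P a + ∑ j, M a j * ξ j)
      = ∑ a, f a * P a + ∑ a, f a * (∑ j, M a j * ξ j) := by
    intro f
    rw [← Finset.sum_add_distrib]
    exact Finset.sum_congr rfl fun a _ => by ring
  have e3 : ∑ j, (∑ a, ∑ a', Q a a' * (M a j * P a' + P a * M a' j) + ∑ a, l a * M a j) * ξ j
      = ∑ j, (∑ a, ∑ a', Q a a' * (M a j * P a' + P a * M a' j)) * ξ j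
        + ∑ j, (∑ a, l a * M a j) * ξ j := by
    rw [← Finset.sum_add_distrib]
    exact Finset.sum_congr rfl fun j _ => by ring
  rw [e1, e2, e2, expand_alg1, expand_alg3, expand_alg2, expand_alg2, e3]
  ring

private theorem expand_c1 {k m : ℕ} (N' : Fin m → ℝ) (F : Fin m → Fin k → ℝ) (ξ : Fin k → ℝ) :
    ∑ j, (∑ i, N' i * F i j) * ξ j = ∑ i, N' i * ∑ j, F i j * ξ j := by
  calc ∑ j, (∑ i, N' i * F i j) * ξ j = ∑ j, ∑ i, N' i * F i j * ξ j := by
        refine Finset.sum_congr rfl fun j _ => ?_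
        rw [Finset.sum_mul]
    _ = ∑ i, ∑ j, N' i * F i j * ξ j := Finset.sum_comm
    _ = ∑ i, N' i * ∑ j, F i j * ξ j := by
        refine Finset.sum_congr rfl fun i _ => ?_
        rw [Finset.mul_sum]
        exact Finset.sum_congr rfl fun j _ => by ring

private theorem expand_c2 {k m : ℕ} (N' : Fin m → ℝ) (F : Fin m → Fin k → Fin k → ℝ)
    (ξ : Fin k → ℝ) :
    ∑ j, ∑ j', (∑ i, N' i * F i j j') * ξ j * ξ j'
      = ∑ i, N' i * ∑ j, ∑ j', F i j j' * ξ j * ξ j' := by
  have h : ∀ j, ∑ j', (∑ i, N' i * F i j j') * ξ j * ξ j'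
      = (∑ i, N' i * ∑ j', F i j j' * ξ j') * ξ j := by
    intro j
    rw [← expand_c1, Finset.sum_mul]
    exact Finset.sum_congr rfl fun j' _ => by ring
  simp only [h]
  rw [expand_c1]
  refine Finset.sum_congr rfl fun i _ => ?_
  congr 1
  refine Finset.sum_congr rfl fun j _ => ?_
  rw [Finset.sum_mul]
  exact Finset.sum_congr rfl fun j' _ => by ring

private theorem expand_alg {k m : ℕ} (N' : Fin m → ℝ) (Q : Fin m → Fin k → Fin k → ℝ)
    (M : Fin k → Fin k → ℝ) (P ξ : Fin k → ℝ) (l kk : Fin m → Fin k → ℝ) (r ka : Fin m → ℝ)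
    (u : ℝ) :
    ∑ i, N' i * ((∑ a, ∑ a', Q i a a' * (P a + ∑ j, M a j * ξ j) * (P a' + ∑ j, M a' j * ξ j)
        + ∑ a, l i a * (P a + ∑ j, M a j * ξ j) + r i)
      + u * (∑ a, kk i a * (P a + ∑ j, M a j * ξ j) + ka i))
    = ∑ i, N' i * (∑ a, ∑ a', Q i a a' * P a * P a' + ∑ a, l i a * P a + r i)
      + ((∑ j, (∑ i, N' i * (∑ a, ∑ a', Q i a a' * (M a j * P a' + P a * M a' j)
          + ∑ a, l i a * M a j)) * ξ j
        + (∑ i, N' i * (∑ a, kk i a * P a + ka i)) * u)
      + (∑ j, ∑ j', (∑ i, N' i * ∑ a, ∑ a', Q i a a' * M a j * M a' j') * ξ j * ξ j'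
        + u * ∑ j, (∑ i, N' i * ∑ a, kk i a * M a j) * ξ j)) := by
  rw [expand_c1, expand_c1, expand_c2, Finset.mul_sum, Finset.sum_mul, ← Finset.sum_add_distrib,
    ← Finset.sum_add_distrib, ← Finset.sum_add_distrib, ← Finset.sum_add_distrib]
  refine Finset.sum_congr rfl fun i _ => ?_
  rw [expand_alg4]
  ring

/-! ### analyticity -/

private theorem expand_sum {ι : Type*} (S : Finset ι) {f : ι → ℝ → ℝ}
    (hf : ∀ i, AnalyticOnNhd ℝ (f i) univ) : AnalyticOnNhd ℝ (fun s => ∑ i ∈ S, f i s) univ :=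
  fun s _ => Finset.analyticAt_fun_sum S fun i _ => hf i s (mem_univ s)

theorem expand {k m : ℕ} {M N : Fin k → Fin k → ℝ → ℝ} {N' : Fin m → Fin m → ℝ → ℝ}
    (hM : ∀ i j, AnalyticOnNhd ℝ (M i j) univ) (hN : ∀ i j, AnalyticOnNhd ℝ (N i j) univ)
    (hN' : ∀ i j, AnalyticOnNhd ℝ (N' i j) univ)
    {c b : Fin k → ℝ → ℝ} (hc : ∀ i, AnalyticOnNhd ℝ (c i) univ)
    (hb : ∀ i, AnalyticOnNhd ℝ (b i) univ)
    {Q : Fin m → Fin k → Fin k → ℝ → ℝ} (hQ : ∀ i a a', AnalyticOnNhd ℝ (Q i a a') univ)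
    {l : Fin m → Fin k → ℝ → ℝ} (hl : ∀ i a, AnalyticOnNhd ℝ (l i a) univ)
    {r : Fin m → ℝ → ℝ} (hr : ∀ i, AnalyticOnNhd ℝ (r i) univ)
    {kk : Fin m → Fin k → ℝ → ℝ} (hkk : ∀ i a, AnalyticOnNhd ℝ (kk i a) univ)
    {ka : Fin m → ℝ → ℝ} (hka : ∀ i, AnalyticOnNhd ℝ (ka i) univ)
    (x0 : Fin k → ℝ) (T : ℝ) :
    ∃ (D : Fin m → Dat k) (C0 : Fin m → ℝ), (∀ j, (D j).An) ∧
      ∀ u : ℝ → ℝ, Measurable u → (∀ t, |u t| ≤ 1) → ∀ j,
        ∫ s in (0 : ℝ)..T, ∑ i, N' j i s *
          ((∑ a, ∑ a', Q i a a' s * vc M N x0 c b u a s * vc M N x0 c b u a' s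
              + ∑ a, l i a s * vc M N x0 c b u a s + r i s)
            + u s * (∑ a, kk i a s * vc M N x0 c b u a s + ka i s))
          = C0 j + linJ (fun i s => ∑ a, N i a s * b a s) (D j) T u
            + bilJ (fun i s => ∑ a, N i a s * b a s) (D j) T u u := by
  -- the transformed control field and the drift part
  have hbt : ∀ i, AnalyticOnNhd ℝ ((fun (i : Fin k) (s : ℝ) => ∑ a, N i a s * b a s) i) univ :=
    fun i => expand_sum _ fun a => (hN i a).mul (hb a)
  set bt : Fin k → ℝ → ℝ := fun i s => ∑ a, N i a s * b a s with hbtdef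
  have hNc : ∀ j, AnalyticOnNhd ℝ (fun s => ∑ a, N j a s * c a s) univ :=
    fun j => expand_sum _ fun a => (hN j a).mul (hc a)
  have hX : ∀ j, AnalyticOnNhd ℝ
      ((fun (j : Fin k) (s : ℝ) => x0 j + ∫ q in (0 : ℝ)..s, ∑ a, N j a q * c a q) j) univ :=
    fun j => analyticOnNhd_const.add (analyticOnNhd_integral (hNc j) 0)
  set X : Fin k → ℝ → ℝ := fun j s => x0 j + ∫ q in (0 : ℝ)..s, ∑ a, N j a q * c a q with hXdef
  have hP : ∀ a, AnalyticOnNhd ℝ ((fun (a : Fin k) (s : ℝ) => ∑ j, M a j s * X j s) a) univ :=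
    fun a => expand_sum _ fun j => (hM a j).mul (hX j)
  set P : Fin k → ℝ → ℝ := fun a s => ∑ j, M a j s * X j s with hPdef
  -- the splitting of the solution
  have hvc : ∀ u : ℝ → ℝ, Measurable u → (∀ t, |u t| ≤ 1) → ∀ a s,
      vc M N x0 c b u a s = P a s + ∑ j, M a j s * xi bt u j s := by
    intro u hu hub a s
    simp only [vc, hPdef, hXdef]
    rw [← Finset.sum_add_distrib]
    refine Finset.sum_congr rfl fun j _ => ?_
    rw [← mul_add, add_assoc]
    congr 2
    rw [xi, ← intervalIntegral.integral_add]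
    · refine intervalIntegral.integral_congr fun q _ => ?_
      simp only [hbtdef]
      rw [Finset.sum_mul, ← Finset.sum_add_distrib]
      exact Finset.sum_congr rfl fun a _ => by ring
    · exact (continuous_of_analytic (hNc j)).intervalIntegrable _ _
    · exact intInt (continuous_of_analytic (hbt j)) hu hub _ _
  refine ⟨fun i₀ =>
    { Q := fun j j' s => ∑ i, N' i₀ i s * ∑ a, ∑ a', Q i a a' s * M a j s * M a' j' s
      l := fun j s => ∑ i, N' i₀ i s * (∑ a, ∑ a', Q i a a' s * (M a j s * P a' s + P a s * M a' j s)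
          + ∑ a, l i a s * M a j s)
      kk := fun j s => ∑ i, N' i₀ i s * ∑ a, kk i a s * M a j s
      ka := fun s => ∑ i, N' i₀ i s * (∑ a, kk i a s * P a s + ka i s) },
    fun i₀ => ∫ s in (0 : ℝ)..T, ∑ i, N' i₀ i s *
      (∑ a, ∑ a', Q i a a' s * P a s * P a' s + ∑ a, l i a s * P a s + r i s), ?_, ?_⟩
  · intro i₀
    refine ⟨fun j j' => ?_, fun j => ?_, fun j => ?_, ?_⟩
    · show AnalyticOnNhd ℝ (fun s => ∑ i, N' i₀ i s * ∑ a, ∑ a', Q i a a' s * M a j s * M a' j' s)
        univ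
      exact expand_sum _ fun i => (hN' i₀ i).mul (expand_sum _ fun a => expand_sum _ fun a' =>
        ((hQ i a a').mul (hM a j)).mul (hM a' j'))
    · show AnalyticOnNhd ℝ (fun s => ∑ i, N' i₀ i s *
        (∑ a, ∑ a', Q i a a' s * (M a j s * P a' s + P a s * M a' j s)
          + ∑ a, l i a s * M a j s)) univ
      exact expand_sum _ fun i => (hN' i₀ i).mul ((expand_sum _ fun a => expand_sum _ fun a' =>
        (hQ i a a').mul (((hM a j).mul (hP a')).add ((hP a).mul (hM a' j)))).add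
        (expand_sum _ fun a => (hl i a).mul (hM a j)))
    · show AnalyticOnNhd ℝ (fun s => ∑ i, N' i₀ i s * ∑ a, kk i a s * M a j s) univ
      exact expand_sum _ fun i => (hN' i₀ i).mul (expand_sum _ fun a => (hkk i a).mul (hM a j))
    · show AnalyticOnNhd ℝ (fun s => ∑ i, N' i₀ i s * (∑ a, kk i a s * P a s + ka i s)) univ
      exact expand_sum _ fun i => (hN' i₀ i).mul ((expand_sum _ fun a =>
        (hkk i a).mul (hP a)).add (hka i))
  · intro u hu hub i₀
    have hξ : ∀ j, Continuous (xi bt u j) := fun j => xi_cont hbt hu hub j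
    have hMc : ∀ a j, Continuous (M a j) := fun a j => continuous_of_analytic (hM a j)
    have hN'c : ∀ a j, Continuous (N' a j) := fun a j => continuous_of_analytic (hN' a j)
    have hQc : ∀ i a j, Continuous (Q i a j) := fun i a j => continuous_of_analytic (hQ i a j)
    have hPc : ∀ a, Continuous (P a) := fun a => continuous_of_analytic (hP a)
    have hlc : ∀ i a, Continuous (l i a) := fun i a => continuous_of_analytic (hl i a)
    have hkkc : ∀ i a, Continuous (kk i a) := fun i a => continuous_of_analytic (hkk i a)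
    have hrc : ∀ a, Continuous (r a) := fun a => continuous_of_analytic (hr a)
    have hkac : ∀ a, Continuous (ka a) := fun a => continuous_of_analytic (hka a)
    rw [add_assoc]
    unfold linJ bilJ
    rw [← intervalIntegral.integral_add, ← intervalIntegral.integral_add]
    · refine intervalIntegral.integral_congr fun s _ => ?_
      simp only [hvc u hu hub]
      exact expand_alg (fun i => N' i₀ i s) (fun i a a' => Q i a a' s) (fun a j => M a j s)
        (fun a => P a s) (fun j => xi bt u j s) (fun i a => l i a s) (fun i a => kk i a s)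
        (fun i => r i s) (fun i => ka i s) (u s)
    · apply Continuous.intervalIntegrable
      fun_prop
    · apply IntervalIntegrable.add
      · apply IntervalIntegrable.add
        · apply Continuous.intervalIntegrable
          fun_prop
        · apply intInt _ hu hub
          fun_prop
      · apply IntervalIntegrable.add
        · apply Continuous.intervalIntegrable
          fun_prop
        · have hcc : Continuous fun s => ∑ j, (∑ i, N' i₀ i s * ∑ a, kk i a s * M a j s)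
              * xi bt u j s := by fun_prop
          exact (intInt hcc hu hub _ _).congr (fun s _ => mul_comm _ _)
    · apply IntervalIntegrable.add
      · apply Continuous.intervalIntegrable
        fun_prop
      · apply intInt _ hu hub
        fun_prop
    · apply IntervalIntegrable.add
      · apply Continuous.intervalIntegrable
        fun_prop
      · have hcc : Continuous fun s => ∑ j, (∑ i, N' i₀ i s * ∑ a, kk i a s * M a j s)
            * xi bt u j s := by fun_prop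
        exact (intInt hcc hu hub _ _).congr (fun s _ => mul_comm _ _)

end Pool.Agent.Lib.MP_28b8de_an
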