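import Pool.Agent.Lib.MP_28b8de_an.LQDefs

/-!
MP_28b8de_an, module Flow (MSW-FL): the matrix exponential, entrywise.

PROOF. M i j t = (NormedSpace.exp (t • A)) i j, N i j t = (NormedSpace.exp ((-t) • A)) i j, with the local
instances `Matrix.linftyOpNormedRing`, `Matrix.linftyOpNormedAlgebra` (or work in `(Fin k → ℝ) →L[ℝ] (Fin k → ℝ)`
through `Matrix.toLin'`/`LinearMap.toContinuousLinearMap`, a complete normed algebra, and take matrix
entries at the end).  `hasDerivAt_exp_smul_const` (`HasDerivAt (fun u => exp (u • x)) (exp (t • x) * x) t`)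
and `hasDerivAt_exp_smul_const'` (`x * exp (t • x)`); analyticity: `NormedSpace.exp_analytic` composed with
the linear map t ↦ t • A and with the (linear, continuous) entry map.
-/

namespace Pool.Agent.Lib.MP_28b8de_an

open Filter Topology Set MeasureTheory

section FlowAux

open NormedSpace

attribute [local instance] Matrix.linftyOpNormedRing Matrix.linftyOpNormedAlgebra

/-- the entry map as a continuous linear map -/
private noncomputable def Flow_entry {k : ℕ} (i j : Fin k) :
    Matrix (Fin k) (Fin k) ℝ →L[ℝ] ℝ :=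
  LinearMap.toContinuousLinearMap (Matrix.entryLinearMap ℝ ℝ i j)

private lemma Flow_entry_apply {k : ℕ} (i j : Fin k) (X : Matrix (Fin k) (Fin k) ℝ) :
    Flow_entry i j X = X i j := rfl

private lemma Flow_deriv {k : ℕ} (B : Matrix (Fin k) (Fin k) ℝ) (i j : Fin k) (t : ℝ) :
    HasDerivAt (fun s : ℝ => (exp (s • B)) i j) ((B * exp (t • B)) i j) t := by
  have h := hasDerivAt_exp_smul_const' (𝕂 := ℝ) B t
  exact (Flow_entry i j).hasFDerivAt.comp_hasDerivAt t h

private lemma Flow_deriv' {k : ℕ} (B : Matrix (Fin k) (Fin k) ℝ) (i j : Fin k) (t : ℝ) :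
    HasDerivAt (fun s : ℝ => (exp (s • B)) i j) ((exp (t • B) * B) i j) t := by
  have h := hasDerivAt_exp_smul_const (𝕂 := ℝ) B t
  exact (Flow_entry i j).hasFDerivAt.comp_hasDerivAt t h

private lemma Flow_an {k : ℕ} (B : Matrix (Fin k) (Fin k) ℝ) (i j : Fin k) :
    AnalyticOnNhd ℝ (fun s : ℝ => (exp (s • B)) i j) univ := by
  intro t _
  have h1 : AnalyticAt ℝ (exp : Matrix (Fin k) (Fin k) ℝ → Matrix (Fin k) (Fin k) ℝ) (t • B) :=
    exp_analytic (𝕂 := ℝ) (t • B)
  have h2 : AnalyticAt ℝ (fun s : ℝ => s • B) t :=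
    (analyticAt_id).smul analyticAt_const
  have h3 : AnalyticAt ℝ (fun s : ℝ => exp (s • B)) t := AnalyticAt.fun_comp h1 h2
  exact ((Flow_entry i j).analyticAt _).fun_comp h3

end FlowAux

theorem exists_flow {k : ℕ} (A : Matrix (Fin k) (Fin k) ℝ) :
    ∃ M N : Fin k → Fin k → ℝ → ℝ, FlowData A M N := by
  have hsmul : ∀ t : ℝ, (NormedSpace.exp (t • A)) * (NormedSpace.exp (t • (-A))) = 1 := by
    intro t
    have := Matrix.exp_add_of_commute (t • A) (t • (-A))
      (by simp [Commute, SemiconjBy])
    rw [← this]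
    simp
  have hsmul' : ∀ t : ℝ, (NormedSpace.exp (t • (-A))) * (NormedSpace.exp (t • A)) = 1 := by
    intro t
    have := Matrix.exp_add_of_commute (t • (-A)) (t • A)
      (by simp [Commute, SemiconjBy])
    rw [← this]
    simp
  refine ⟨fun i j t => (NormedSpace.exp (t • A)) i j, fun i j t => (NormedSpace.exp (t • (-A))) i j,
    ⟨fun i j => Flow_an A i j, fun i j => Flow_an (-A) i j, ?_, ?_, ?_, ?_, ?_, ?_⟩⟩
  · intro i j
    simp [Matrix.one_apply]
  · intro i j
    simp [Matrix.one_apply]
  · intro i j t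
    have := congrFun (congrFun (hsmul t) i) j
    rw [Matrix.mul_apply, Matrix.one_apply] at this
    exact this
  · intro i j t
    have := congrFun (congrFun (hsmul' t) i) j
    rw [Matrix.mul_apply, Matrix.one_apply] at this
    exact this
  · intro i j t
    have := Flow_deriv A i j t
    rw [Matrix.mul_apply] at this
    exact this
  · intro i j t
    have := Flow_deriv' (-A) i j t
    rw [mul_neg, Matrix.neg_apply, Matrix.mul_apply] at this
    exact this

end Pool.Agent.Lib.MP_28b8de_an
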