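import Pool.Agent.Lib.MP_28b8de_an.LQDefs

/-!
MP_28b8de_an, module VocA (MSW-TA): a Lipschitz solution of `x' = A x + p + u q` is given by the
variation of constants formula.

PROOF. z_j(s) = ∑ l, N j l s * x l s is absolutely continuous on [0,t] (product of C¹ and Lipschitz functions:
`LipschitzOnWith.absolutelyContinuousOnInterval`, ac_of_analytic, `.mul`, finite sums as in `Phi_ac`), and
a.e. on [0,t]: z_j' = ∑_l (- ∑_a N j a A a l) x_l + ∑_l N j l (∑_a A l a x_a + p_l + u q_l) = ∑_l N j l (p_l + u q_l).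
So z_j(t) = z_j(0) + ∫_0^t ∑_l N j l (p_l + u q_l) (`AbsolutelyContinuousOnInterval.integral_deriv_eq_sub`),
z_j(0) = x_j(0) (N0), and ∑_j M i j t z_j(t) = x_i(t) (MN).
-/

namespace Pool.Agent.Lib.MP_28b8de_an

open Filter Topology Set MeasureTheory

theorem eq_vc {k : ℕ} {A : Matrix (Fin k) (Fin k) ℝ} {M N : Fin k → Fin k → ℝ → ℝ}
    (hF : FlowData A M N) {T : ℝ} {x p q : Fin k → ℝ → ℝ} {u : ℝ → ℝ}
    (hx : ∀ i, ∃ K, LipschitzOnWith K (x i) (Icc 0 T))
    (hd : ∀ i, ∀ᵐ t, t ∈ Icc 0 T →
      HasDerivAt (x i) (∑ j, A i j * x j t + (p i t + u t * q i t)) t)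
    {t : ℝ} (ht : t ∈ Icc 0 T) (i : Fin k) : x i t = vc M N (fun j => x j 0) p q u i t := by
  obtain ⟨ht0, htT⟩ := ht
  have hsub : Icc 0 t ⊆ Icc 0 T := Icc_subset_Icc_right htT
  have hzac : ∀ j, AbsolutelyContinuousOnInterval (fun s => ∑ l, N j l s * x l s) 0 t := by
    intro j
    have hxl : ∀ l, AbsolutelyContinuousOnInterval (x l) 0 t := by
      intro l
      obtain ⟨K, hK⟩ := hx l
      apply LipschitzOnWith.absolutelyContinuousOnInterval (K := K)
      rw [uIcc_of_le ht0]
      exact hK.mono hsub
    have : ∀ S : Finset (Fin k),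
        AbsolutelyContinuousOnInterval (fun s => ∑ l ∈ S, N j l s * x l s) 0 t := by
      classical
      intro S
      induction S using Finset.induction_on with
      | empty =>
        simp only [Finset.sum_empty]
        exact ac_of_analytic (fun _ _ => analyticAt_const) 0 t
      | insert l S hl ih =>
        have : (fun s => ∑ l ∈ insert l S, N j l s * x l s)
            = (fun s => N j l s * x l s + ∑ l ∈ S, N j l s * x l s) := by
          ext s
          rw [Finset.sum_insert hl]
        rw [this]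
        exact ((ac_of_analytic (hF.Nan j l) 0 t).mul (hxl l)).add ih
    exact this Finset.univ
  have hzd : ∀ j, ∀ᵐ s, s ∈ Icc 0 T → HasDerivAt (fun s => ∑ l, N j l s * x l s)
      (∑ l, N j l s * (p l s + u s * q l s)) s := by
    intro j
    have hall : ∀ᵐ s, ∀ i, s ∈ Icc 0 T →
        HasDerivAt (x i) (∑ j, A i j * x j s + (p i s + u s * q i s)) s := ae_all_iff.2 hd
    filter_upwards [hall] with s hs hsT
    have h1 : HasDerivAt (fun s => ∑ l, N j l s * x l s)
        (∑ l, ((-∑ a, N j a s * A a l) * x l s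
          + N j l s * (∑ a, A l a * x a s + (p l s + u s * q l s)))) s := by
      apply HasDerivAt.fun_sum
      intro l _
      exact (hF.dN j l s).mul (hs l hsT)
    have h2 : ∑ l, (-∑ a, N j a s * A a l) * x l s + ∑ l, N j l s * ∑ a, A l a * x a s = 0 := by
      simp only [neg_mul, Finset.sum_neg_distrib, Finset.sum_mul, Finset.mul_sum]
      rw [Finset.sum_comm, neg_add_eq_zero]
      refine Finset.sum_congr rfl fun a _ => Finset.sum_congr rfl fun b _ => ?_
      ring
    have h3 : (∑ l, ((-∑ a, N j a s * A a l) * x l s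
          + N j l s * (∑ a, A l a * x a s + (p l s + u s * q l s))))
        = ∑ l, N j l s * (p l s + u s * q l s) := by
      have h4 : ∀ l, ((-∑ a, N j a s * A a l) * x l s
          + N j l s * (∑ a, A l a * x a s + (p l s + u s * q l s)))
          = ((-∑ a, N j a s * A a l) * x l s + N j l s * ∑ a, A l a * x a s)
            + N j l s * (p l s + u s * q l s) := by
        intro l
        ring
      simp only [h4]
      rw [Finset.sum_add_distrib, Finset.sum_add_distrib, h2, zero_add]
    rw [h3] at h1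
    exact h1
  have hz : ∀ j, ∑ l, N j l t * x l t
      = x j 0 + ∫ s in (0 : ℝ)..t, ∑ l, N j l s * (p l s + u s * q l s) := by
    intro j
    have h1 := (hzac j).integral_deriv_eq_sub
    have h2 : ∫ s in (0 : ℝ)..t, deriv (fun s => ∑ l, N j l s * x l s) s
        = ∫ s in (0 : ℝ)..t, ∑ l, N j l s * (p l s + u s * q l s) := by
      apply intervalIntegral.integral_congr_ae
      filter_upwards [hzd j] with s hs hs1
      rw [uIoc_of_le ht0] at hs1
      exact (hs ⟨hs1.1.le, hs1.2.trans htT⟩).deriv
    have h3 : ∑ l, N j l 0 * x l 0 = x j 0 := by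
      simp only [hF.N0]
      simp
    rw [h2] at h1
    simp only [h3] at h1
    linarith
  unfold vc
  simp only [← hz]
  have h5 : ∀ j, M i j t * ∑ l, N j l t * x l t = ∑ l, M i j t * N j l t * x l t := by
    intro j
    rw [Finset.mul_sum]
    refine Finset.sum_congr rfl fun l _ => ?_
    ring
  simp only [h5]
  rw [Finset.sum_comm]
  simp only [← Finset.sum_mul, hF.MN]
  simp

end Pool.Agent.Lib.MP_28b8de_an
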