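import Pool.Agent.Lib.MP_28b8de_an.LQDefs

/-!
MP_28b8de_an, module VocB (MSW-TB): properties of the variation of constants formula.

PROOFS. Y_j(t) = ∫_0^t ∑ l, N j l s * (p l s + u s * q l s) ds; the integrand is
∑_l (N j l p_l)(s) + u s (N j l q_l)(s), continuous + continuous * bounded measurable: locally
integrable (locInt / intInt) and bounded on [0,T].  vc_zero: M0 and ∫_0^0 = 0.
vc_cont: intervalIntegral.continuous_primitive.
vc_ae: `LocallyIntegrable.ae_hasDerivAt_integral` as in xi_ae, then the product rule: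
x_i' = ∑_j (∑_l A i l M l j)(x0_j+Y_j) + ∑_j M i j ∑_l N j l (p_l + u q_l) = ∑_l A i l x_l + (p_i + u q_i) (MN).
vc_lipschitz: M i j is C¹ hence Lipschitz and bounded on [0,T]; Y_j is Lipschitz on [0,T] (integrand
bounded by a constant on [0,T]: `intervalIntegral.norm_integral_le_of_norm_le_const`), bounded; products and sums
of bounded Lipschitz functions are Lipschitz.
vc_smooth: pick t0 ∈ I (if I is empty trivial); on I, Y_j(t) = Y_j(t0) + ∫_{t0}^t ∑_l N j l (p_l + h q_l), a primitive of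
a function that is C^∞ on the open interval I, so C^∞ on I (`contDiffOn_infty_iff_deriv_of_isOpen` or the
argument in `RelaySmooth.lean`, `smooth_of_zero`).
-/

namespace Pool.Agent.Lib.MP_28b8de_an

open Filter Topology Set MeasureTheory

variable {k : ℕ} {A : Matrix (Fin k) (Fin k) ℝ} {M N : Fin k → Fin k → ℝ → ℝ}
  {p q : Fin k → ℝ → ℝ} {u : ℝ → ℝ}

/-- the integrand -/
private noncomputable def vg {k : ℕ} (N : Fin k → Fin k → ℝ → ℝ) (p q : Fin k → ℝ → ℝ)
    (u : ℝ → ℝ) (j : Fin k) (s : ℝ) : ℝ := ∑ l, N j l s * (p l s + u s * q l s)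

private theorem vg_eq (N : Fin k → Fin k → ℝ → ℝ) (p q : Fin k → ℝ → ℝ) (u : ℝ → ℝ) (j : Fin k) :
    vg N p q u j = fun s => (∑ l, N j l s * p l s) + (∑ l, N j l s * q l s) * u s := by
  funext s
  unfold vg
  rw [Finset.sum_mul, ← Finset.sum_add_distrib]
  refine Finset.sum_congr rfl fun l _ => ?_
  ring

private theorem vN_cont (hF : FlowData A M N) {p : Fin k → ℝ → ℝ} (hp : ∀ i, Continuous (p i))
    (j : Fin k) : Continuous fun s => ∑ l, N j l s * p l s :=
  continuous_finsetSum _ fun l _ => (continuous_of_analytic (hF.Nan j l)).mul (hp l)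

private theorem vg_locInt (hF : FlowData A M N) (hp : ∀ i, Continuous (p i))
    (hq : ∀ i, Continuous (q i)) (hum : Measurable u) (hub : ∀ t, |u t| ≤ 1) (j : Fin k) :
    LocallyIntegrable (vg N p q u j) volume := by
  rw [vg_eq]
  exact ((vN_cont hF hp j).locallyIntegrable).add (locInt (vN_cont hF hq j) hum hub)

private theorem vg_int (hF : FlowData A M N) (hp : ∀ i, Continuous (p i))
    (hq : ∀ i, Continuous (q i)) (hum : Measurable u) (hub : ∀ t, |u t| ≤ 1) (j : Fin k)
    (s t : ℝ) : IntervalIntegrable (vg N p q u j) volume s t := by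
  rw [intervalIntegrable_iff]
  exact (LocallyIntegrable.integrableOn_isCompact (vg_locInt hF hp hq hum hub j)
    isCompact_uIcc).mono_set uIoc_subset_uIcc

private theorem vY_cont (hF : FlowData A M N) (hp : ∀ i, Continuous (p i))
    (hq : ∀ i, Continuous (q i)) (hum : Measurable u) (hub : ∀ t, |u t| ≤ 1) (j : Fin k) :
    Continuous fun t => ∫ s in (0 : ℝ)..t, vg N p q u j s :=
  intervalIntegral.continuous_primitive (fun s t => vg_int hF hp hq hum hub j s t) 0

private theorem vc_eq (x0 : Fin k → ℝ) (i : Fin k) :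
    vc M N x0 p q u i = fun t => ∑ j, M i j t * (x0 j + ∫ s in (0 : ℝ)..t, vg N p q u j s) := rfl

theorem vc_zero (hF : FlowData A M N) (x0 : Fin k → ℝ) (p q : Fin k → ℝ → ℝ) (u : ℝ → ℝ)
    (i : Fin k) : vc M N x0 p q u i 0 = x0 i := by
  unfold vc
  simp only [intervalIntegral.integral_same, add_zero, hF.M0, ite_mul, one_mul, zero_mul]
  rw [Finset.sum_ite_eq, if_pos (Finset.mem_univ _)]

theorem vc_cont (hF : FlowData A M N) (x0 : Fin k → ℝ) (hp : ∀ i, Continuous (p i))
    (hq : ∀ i, Continuous (q i)) (hum : Measurable u) (hub : ∀ t, |u t| ≤ 1) (i : Fin k) :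
    Continuous (vc M N x0 p q u i) := by
  rw [vc_eq]
  exact continuous_finsetSum _ fun j _ => (continuous_of_analytic (hF.Man i j)).mul
    (continuous_const.add (vY_cont hF hp hq hum hub j))

theorem vc_ae (hF : FlowData A M N) (x0 : Fin k → ℝ) (hp : ∀ i, Continuous (p i))
    (hq : ∀ i, Continuous (q i)) (hum : Measurable u) (hub : ∀ t, |u t| ≤ 1) (i : Fin k) :
    ∀ᵐ t, HasDerivAt (vc M N x0 p q u i)
      (∑ j, A i j * vc M N x0 p q u j t + (p i t + u t * q i t)) t := by
  have h1 : ∀ᵐ t, ∀ j, HasDerivAt (fun t => ∫ s in (0 : ℝ)..t, vg N p q u j s)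
      (vg N p q u j t) t := by
    rw [ae_all_iff]
    intro j
    filter_upwards [LocallyIntegrable.ae_hasDerivAt_integral (vg_locInt hF hp hq hum hub j)]
      with t ht
    exact ht 0
  filter_upwards [h1] with t ht
  have h2 : HasDerivAt (fun t => ∑ j, M i j t * (x0 j + ∫ s in (0 : ℝ)..t, vg N p q u j s))
      (∑ j, ((∑ l, A i l * M l j t) * (x0 j + ∫ s in (0 : ℝ)..t, vg N p q u j s) +
        M i j t * vg N p q u j t)) t := by
    apply HasDerivAt.fun_sum
    intro j _
    exact (hF.dM i j t).mul ((ht j).const_add _)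
  have h3 : (∑ j, ((∑ l, A i l * M l j t) * (x0 j + ∫ s in (0 : ℝ)..t, vg N p q u j s) +
        M i j t * vg N p q u j t)) =
      ∑ j, A i j * vc M N x0 p q u j t + (p i t + u t * q i t) := by
    rw [Finset.sum_add_distrib]
    congr 1
    · simp only [Finset.sum_mul]
      rw [Finset.sum_comm]
      refine Finset.sum_congr rfl fun l _ => ?_
      rw [vc_eq, Finset.mul_sum]
      refine Finset.sum_congr rfl fun j _ => ?_
      ring
    · unfold vg
      simp only [Finset.mul_sum]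
      rw [Finset.sum_comm]
      have : ∀ l, ∑ j, M i j t * (N j l t * (p l t + u t * q l t)) =
          (if i = l then 1 else 0) * (p l t + u t * q l t) := by
        intro l
        rw [← hF.MN i l t, Finset.sum_mul]
        refine Finset.sum_congr rfl fun j _ => ?_
        ring
      simp only [this, ite_mul, one_mul, zero_mul]
      rw [Finset.sum_ite_eq, if_pos (Finset.mem_univ _)]
  rw [h3] at h2
  exact h2

private theorem lip_mul {f g : ℝ → ℝ} {T : ℝ} (hf : Continuous f) (hg : Continuous g)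
    (hfl : ∃ K, ∀ s ∈ Icc 0 T, ∀ t ∈ Icc 0 T, |f s - f t| ≤ K * |s - t|)
    (hgl : ∃ K, ∀ s ∈ Icc 0 T, ∀ t ∈ Icc 0 T, |g s - g t| ≤ K * |s - t|) :
    ∃ K, ∀ s ∈ Icc 0 T, ∀ t ∈ Icc 0 T, |f s * g s - f t * g t| ≤ K * |s - t| := by
  obtain ⟨K, hK⟩ := hfl
  obtain ⟨L, hL⟩ := hgl
  obtain ⟨a, ha⟩ := (isCompact_Icc (a := (0 : ℝ)) (b := T)).exists_bound_of_continuousOn
    hf.continuousOn
  obtain ⟨b, hb⟩ := (isCompact_Icc (a := (0 : ℝ)) (b := T)).exists_bound_of_continuousOn
    hg.continuousOn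
  refine ⟨K * b + a * L, fun s hs t ht => ?_⟩
  have e1 : f s * g s - f t * g t = (f s - f t) * g s + f t * (g s - g t) := by ring
  have h1 := hK s hs t ht
  have h2 := hL s hs t ht
  have h3 := hb s hs
  have h4 := ha t ht
  rw [Real.norm_eq_abs] at h3 h4
  rw [e1]
  calc |(f s - f t) * g s + f t * (g s - g t)|
      ≤ |f s - f t| * |g s| + |f t| * |g s - g t| := by
        refine (abs_add_le _ _).trans ?_
        rw [abs_mul, abs_mul]
    _ ≤ (K * |s - t|) * b + a * (L * |s - t|) := by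
        apply add_le_add
        · exact mul_le_mul h1 h3 (abs_nonneg _) ((abs_nonneg _).trans h1)
        · exact mul_le_mul h4 h2 (abs_nonneg _) ((abs_nonneg _).trans h4)
    _ = (K * b + a * L) * |s - t| := by ring

theorem vc_lipschitz (hF : FlowData A M N) (x0 : Fin k → ℝ) (hp : ∀ i, Continuous (p i))
    (hq : ∀ i, Continuous (q i)) (hum : Measurable u) (hub : ∀ t, |u t| ≤ 1) (i : Fin k) (T : ℝ) :
    ∃ K, LipschitzOnWith K (vc M N x0 p q u i) (Icc 0 T) := by
  have hYl : ∀ j, ∃ K, ∀ s ∈ Icc 0 T, ∀ t ∈ Icc 0 T,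
      |(x0 j + ∫ r in (0 : ℝ)..s, vg N p q u j r) - (x0 j + ∫ r in (0 : ℝ)..t, vg N p q u j r)|
        ≤ K * |s - t| := by
    intro j
    obtain ⟨a, ha⟩ := (isCompact_Icc (a := (0 : ℝ)) (b := T)).exists_bound_of_continuousOn
      (vN_cont hF hp j).continuousOn
    obtain ⟨b, hb⟩ := (isCompact_Icc (a := (0 : ℝ)) (b := T)).exists_bound_of_continuousOn
      (vN_cont hF hq j).continuousOn
    refine ⟨a + b, fun s hs t ht => ?_⟩
    rw [add_sub_add_left_eq_sub, intervalIntegral.integral_interval_sub_left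
      (vg_int hF hp hq hum hub j _ _) (vg_int hF hp hq hum hub j _ _)]
    rw [← Real.norm_eq_abs (∫ r in t..s, vg N p q u j r)]
    refine intervalIntegral.norm_integral_le_of_norm_le_const fun r hr => ?_
    have hr' : r ∈ Icc 0 T := by
      have := uIoc_subset_uIcc hr
      rw [mem_uIcc] at this
      rcases this with h | h
      · exact ⟨ht.1.trans h.1, h.2.trans hs.2⟩
      · exact ⟨hs.1.trans h.1, h.2.trans ht.2⟩
    have h1 := ha r hr'
    have h2 := hb r hr'
    rw [vg_eq]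
    refine (norm_add_le _ _).trans (add_le_add h1 ?_)
    rw [norm_mul]
    calc ‖∑ l, N j l r * q l r‖ * ‖u r‖ ≤ ‖∑ l, N j l r * q l r‖ * 1 :=
          mul_le_mul_of_nonneg_left (by rw [Real.norm_eq_abs]; exact hub r) (norm_nonneg _)
      _ ≤ b := by rw [mul_one]; exact h2
  have hMl : ∀ j, ∃ K, ∀ s ∈ Icc 0 T, ∀ t ∈ Icc 0 T, |M i j s - M i j t| ≤ K * |s - t| := by
    intro j
    obtain ⟨K, hK⟩ := ((contDiff_of_analytic (hF.Man i j) 1).contDiffOn
      (s := Icc (0 : ℝ) T)).exists_lipschitzOnWith one_ne_zero (convex_Icc 0 T) isCompact_Icc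
    refine ⟨K, fun s hs t ht => ?_⟩
    have := hK.dist_le_mul s hs t ht
    rwa [Real.dist_eq, Real.dist_eq] at this
  have hj : ∀ j, ∃ K, ∀ s ∈ Icc 0 T, ∀ t ∈ Icc 0 T,
      |M i j s * (x0 j + ∫ r in (0 : ℝ)..s, vg N p q u j r) -
        M i j t * (x0 j + ∫ r in (0 : ℝ)..t, vg N p q u j r)| ≤ K * |s - t| := by
    intro j
    exact lip_mul (continuous_of_analytic (hF.Man i j))
      (continuous_const.add (vY_cont hF hp hq hum hub j)) (hMl j) (hYl j)
  choose K hK using hj
  refine ⟨(∑ j, K j).toNNReal, LipschitzOnWith.of_dist_le_mul fun s hs t ht => ?_⟩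
  rw [Real.dist_eq, Real.dist_eq, vc_eq]
  calc |∑ j, M i j s * (x0 j + ∫ r in (0 : ℝ)..s, vg N p q u j r) -
        ∑ j, M i j t * (x0 j + ∫ r in (0 : ℝ)..t, vg N p q u j r)|
      ≤ ∑ j, K j * |s - t| := by
        rw [← Finset.sum_sub_distrib]
        exact (Finset.abs_sum_le_sum_abs _ _).trans (Finset.sum_le_sum fun j _ => hK j s hs t ht)
    _ = (∑ j, K j) * |s - t| := by rw [Finset.sum_mul]
    _ ≤ ((∑ j, K j).toNNReal : ℝ) * |s - t| :=
        mul_le_mul_of_nonneg_right (Real.le_coe_toNNReal _) (abs_nonneg _)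

theorem vc_smooth (hF : FlowData A M N) (x0 : Fin k → ℝ) (hp : ∀ i, Continuous (p i))
    (hq : ∀ i, Continuous (q i)) (hum : Measurable u) (hub : ∀ t, |u t| ≤ 1) (i : Fin k)
    {α β : ℝ} (hps : ∀ i, ContDiffOn ℝ (⊤ : ℕ∞) (p i) (Ioo α β))
    (hqs : ∀ i, ContDiffOn ℝ (⊤ : ℕ∞) (q i) (Ioo α β))
    {h : ℝ → ℝ} (hh : ContDiffOn ℝ (⊤ : ℕ∞) h (Ioo α β))
    (huh : ∀ᵐ r : ℝ, r ∈ Ioo α β → u r = h r) :
    ContDiffOn ℝ (⊤ : ℕ∞) (vc M N x0 p q u i) (Ioo α β) := by
  rcases (Ioo α β).eq_empty_or_nonempty with he | ⟨t0, ht0⟩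
  · rw [he]
    exact contDiffOn_empty
  have hG : ∀ j, ContDiffOn ℝ (⊤ : ℕ∞) (vg N p q h j) (Ioo α β) := by
    intro j
    unfold vg
    apply ContDiffOn.sum
    intro l _
    exact ((contDiff_of_analytic (hF.Nan j l) _).contDiffOn).mul
      ((hps l).add (hh.mul (hqs l)))
  have hsub : ∀ t ∈ Ioo α β, ∀ x ∈ uIcc t0 t, x ∈ Ioo α β := by
    intro t ht x hx
    rw [mem_uIcc] at hx
    rcases hx with h | h
    · exact ⟨lt_of_lt_of_le ht0.1 h.1, lt_of_le_of_lt h.2 ht.2⟩
    · exact ⟨lt_of_lt_of_le ht.1 h.1, lt_of_le_of_lt h.2 ht0.2⟩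
  have hY : ∀ j, ∀ t ∈ Ioo α β, ∫ s in (0 : ℝ)..t, vg N p q u j s =
      (∫ s in (0 : ℝ)..t0, vg N p q u j s) + ∫ s in t0..t, vg N p q h j s := by
    intro j t ht
    have h1 : ∫ s in t0..t, vg N p q u j s = ∫ s in t0..t, vg N p q h j s := by
      apply intervalIntegral.integral_congr_ae
      filter_upwards [huh] with x hx hxm
      have hx' := hx (hsub t ht x (uIoc_subset_uIcc hxm))
      unfold vg
      rw [hx']
    rw [← h1, intervalIntegral.integral_add_adjacent_intervals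
      (vg_int hF hp hq hum hub j _ _) (vg_int hF hp hq hum hub j _ _)]
  have hP : ∀ j, ContDiffOn ℝ (⊤ : ℕ∞) (fun t => ∫ s in t0..t, vg N p q h j s) (Ioo α β) := by
    intro j
    have hd : ∀ t ∈ Ioo α β, HasDerivAt (fun t => ∫ s in t0..t, vg N p q h j s)
        (vg N p q h j t) t := by
      intro t ht
      apply intervalIntegral.integral_hasDerivAt_right
      · apply ContinuousOn.intervalIntegrable
        exact (hG j).continuousOn.mono (hsub t ht)
      · exact (hG j).continuousOn.stronglyMeasurableAtFilter isOpen_Ioo t ht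
      · exact (hG j).continuousOn.continuousAt (Ioo_mem_nhds ht.1 ht.2)
    rw [contDiffOn_infty_iff_deriv_of_isOpen isOpen_Ioo]
    refine ⟨fun t ht => (hd t ht).differentiableAt.differentiableWithinAt, ?_⟩
    exact (hG j).congr fun t ht => (hd t ht).deriv
  have hfin : ContDiffOn ℝ (⊤ : ℕ∞) (fun t => ∑ j, M i j t * (x0 j +
      ((∫ s in (0 : ℝ)..t0, vg N p q u j s) + ∫ s in t0..t, vg N p q h j s))) (Ioo α β) := by
    apply ContDiffOn.sum
    intro j _
    exact ((contDiff_of_analytic (hF.Man i j) _).contDiffOn).mul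
      (contDiffOn_const.add (contDiffOn_const.add (hP j)))
  refine hfin.congr fun t ht => ?_
  rw [vc_eq]
  refine Finset.sum_congr rfl fun j _ => ?_
  rw [hY j t ht]

end Pool.Agent.Lib.MP_28b8de_an
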