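import Pool.Agent.Lib.MP_28b8de_an.Core
import Pool.Agent.Lib.MP_28b8de_an.Expand
import Pool.Agent.Lib.MP_28b8de_an.VocA
import Pool.Agent.Lib.MP_28b8de_an.VocB
import Pool.Agent.Lib.MP_28b8de_an.Flow

/-!
MP_28b8de_an, module Transfer: replacing the control of a linear-quadratic system.
-/

namespace Pool.Agent.Lib.MP_28b8de_an

open Filter Topology Set MeasureTheory

/-- the free part of the y-equation along the x-trajectory `X` -/
noncomputable def PP {k m : ℕ} (Q : Fin m → Fin k → Fin k → ℝ → ℝ) (l : Fin m → Fin k → ℝ → ℝ)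
    (r : Fin m → ℝ → ℝ) (X : Fin k → ℝ → ℝ) (i : Fin m) (s : ℝ) : ℝ :=
  ∑ a, ∑ a', Q i a a' s * X a s * X a' s + ∑ a, l i a s * X a s + r i s

/-- the controlled part of the y-equation along the x-trajectory `X` -/
noncomputable def RR {k m : ℕ} (kk : Fin m → Fin k → ℝ → ℝ) (ka : Fin m → ℝ → ℝ)
    (X : Fin k → ℝ → ℝ) (i : Fin m) (s : ℝ) : ℝ :=
  ∑ a, kk i a s * X a s + ka i s

section

variable {k m : ℕ} {Q : Fin m → Fin k → Fin k → ℝ → ℝ} {l : Fin m → Fin k → ℝ → ℝ}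
  {r : Fin m → ℝ → ℝ} {kk : Fin m → Fin k → ℝ → ℝ} {ka : Fin m → ℝ → ℝ} {X : Fin k → ℝ → ℝ}

theorem PP_cont (hQ : ∀ i a a', Continuous (Q i a a')) (hl : ∀ i a, Continuous (l i a))
    (hr : ∀ i, Continuous (r i)) (hX : ∀ a, Continuous (X a)) (i : Fin m) :
    Continuous (PP Q l r X i) := by
  unfold PP
  apply Continuous.add
  · apply Continuous.add
    · apply continuous_finsetSum
      intro a _
      apply continuous_finsetSum
      intro a' _
      exact ((hQ i a a').mul (hX a)).mul (hX a')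
    · apply continuous_finsetSum
      intro a _
      exact (hl i a).mul (hX a)
  · exact hr i

theorem RR_cont (hkk : ∀ i a, Continuous (kk i a)) (hka : ∀ i, Continuous (ka i))
    (hX : ∀ a, Continuous (X a)) (i : Fin m) : Continuous (RR kk ka X i) := by
  unfold RR
  apply Continuous.add
  · apply continuous_finsetSum
    intro a _
    exact (hkk i a).mul (hX a)
  · exact hka i

theorem PP_smooth {I : Set ℝ} (hQ : ∀ i a a', ContDiffOn ℝ (⊤ : ℕ∞) (Q i a a') I)
    (hl : ∀ i a, ContDiffOn ℝ (⊤ : ℕ∞) (l i a) I)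
    (hr : ∀ i, ContDiffOn ℝ (⊤ : ℕ∞) (r i) I) (hX : ∀ a, ContDiffOn ℝ (⊤ : ℕ∞) (X a) I)
    (i : Fin m) : ContDiffOn ℝ (⊤ : ℕ∞) (PP Q l r X i) I := by
  unfold PP
  apply ContDiffOn.add
  · apply ContDiffOn.add
    · apply ContDiffOn.sum
      intro a _
      apply ContDiffOn.sum
      intro a' _
      exact ((hQ i a a').mul (hX a)).mul (hX a')
    · apply ContDiffOn.sum
      intro a _
      exact (hl i a).mul (hX a)
  · exact hr i

theorem RR_smooth {I : Set ℝ} (hkk : ∀ i a, ContDiffOn ℝ (⊤ : ℕ∞) (kk i a) I)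
    (hka : ∀ i, ContDiffOn ℝ (⊤ : ℕ∞) (ka i) I) (hX : ∀ a, ContDiffOn ℝ (⊤ : ℕ∞) (X a) I)
    (i : Fin m) : ContDiffOn ℝ (⊤ : ℕ∞) (RR kk ka X i) I := by
  unfold RR
  apply ContDiffOn.add
  · apply ContDiffOn.sum
    intro a _
    exact (hkk i a).mul (hX a)
  · exact hka i

end

/-- the end point of the x-part depends on the control through `ξ(T)` only -/
theorem vc_end {k : ℕ} {M N : Fin k → Fin k → ℝ → ℝ} (hN : ∀ i j, AnalyticOnNhd ℝ (N i j) univ)
    {c b : Fin k → ℝ → ℝ} (hc : ∀ i, AnalyticOnNhd ℝ (c i) univ)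
    (hb : ∀ i, AnalyticOnNhd ℝ (b i) univ) (x0 : Fin k → ℝ) {u : ℝ → ℝ} (hum : Measurable u)
    (hub : ∀ t, |u t| ≤ 1) (i : Fin k) (T : ℝ) :
    vc M N x0 c b u i T = ∑ j, M i j T * (x0 j + ((∫ s in (0 : ℝ)..T, ∑ a, N j a s * c a s)
      + xi (fun i s => ∑ a, N i a s * b a s) u j T)) := by
  unfold vc
  apply Finset.sum_congr rfl
  intro j _
  congr 2
  unfold xi
  have hcc : Continuous fun s => ∑ a, N j a s * c a s := by
    apply continuous_finsetSum
    intro a _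
    exact (continuous_of_analytic (hN j a)).mul (continuous_of_analytic (hc a))
  have hcb : Continuous fun s => ∑ a, N j a s * b a s := by
    apply continuous_finsetSum
    intro a _
    exact (continuous_of_analytic (hN j a)).mul (continuous_of_analytic (hb a))
  rw [← intervalIntegral.integral_add (hcc.intervalIntegrable 0 T) (intInt hcb hum hub 0 T)]
  congr 1
  ext s
  rw [Finset.sum_mul, ← Finset.sum_add_distrib]
  apply Finset.sum_congr rfl
  intro a _
  ring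

/-- **Transfer.** The control of a linear-quadratic system can be replaced, keeping the end
point, by a control with a countable switching set. -/
theorem transfer {k m : ℕ} {A : Matrix (Fin k) (Fin k) ℝ} {M N : Fin k → Fin k → ℝ → ℝ}
    (hF : FlowData A M N) {A' : Matrix (Fin m) (Fin m) ℝ} {M' N' : Fin m → Fin m → ℝ → ℝ}
    (hF' : FlowData A' M' N')
    {c b : Fin k → ℝ → ℝ} (hc : ∀ i, AnalyticOnNhd ℝ (c i) univ)
    (hb : ∀ i, AnalyticOnNhd ℝ (b i) univ)
    {Q : Fin m → Fin k → Fin k → ℝ → ℝ} (hQ : ∀ i a a', AnalyticOnNhd ℝ (Q i a a') univ)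
    {l : Fin m → Fin k → ℝ → ℝ} (hl : ∀ i a, AnalyticOnNhd ℝ (l i a) univ)
    {r : Fin m → ℝ → ℝ} (hr : ∀ i, AnalyticOnNhd ℝ (r i) univ)
    {kk : Fin m → Fin k → ℝ → ℝ} (hkk : ∀ i a, AnalyticOnNhd ℝ (kk i a) univ)
    {ka : Fin m → ℝ → ℝ} (hka : ∀ i, AnalyticOnNhd ℝ (ka i) univ)
    (x0 : Fin k → ℝ) (y0 : Fin m → ℝ) (T : ℝ) {u : ℝ → ℝ} (hum : Measurable u)
    (hub : ∀ t, |u t| ≤ 1) :
    ∃ v : ℝ → ℝ, Measurable v ∧ (∀ t, |v t| ≤ 1) ∧ (SwSet T v).Countable ∧
      (∀ a, vc M N x0 c b v a T = vc M N x0 c b u a T) ∧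
      ∀ i, vc M' N' y0 (PP Q l r (vc M N x0 c b v)) (RR kk ka (vc M N x0 c b v)) v i T
        = vc M' N' y0 (PP Q l r (vc M N x0 c b u)) (RR kk ka (vc M N x0 c b u)) u i T := by
  obtain ⟨D, C0, hD, hexp⟩ := expand hF.Man hF.Nan hF'.Nan hc hb hQ hl hr hkk hka x0 T
  have hb' : ∀ i, AnalyticOnNhd ℝ (fun s => ∑ a, N i a s * b a s) univ := by
    intro i t ht
    apply Finset.analyticAt_fun_sum
    intro a _
    exact (hF.Nan i a t ht).mul (hb a t ht)
  obtain ⟨v, hvU, hvS, hvx, hvJ⟩ := core (T := T) hb' hD (u := ⟨u, hum, 1, hub⟩) hub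
  refine ⟨v.1, BM_meas v, hvU, hvS, ?_, ?_⟩
  · intro a
    rw [vc_end hF.Nan hc hb x0 (BM_meas v) hvU, vc_end hF.Nan hc hb x0 hum hub]
    apply Finset.sum_congr rfl
    intro j _
    rw [hvx j]
  · intro i
    have h1 : ∀ (w : ℝ → ℝ) (i : Fin m), vc M' N' y0 (PP Q l r (vc M N x0 c b w))
        (RR kk ka (vc M N x0 c b w)) w i T
        = ∑ j, M' i j T * (y0 j + ∫ s in (0 : ℝ)..T, ∑ i, N' j i s *
          ((∑ a, ∑ a', Q i a a' s * vc M N x0 c b w a s * vc M N x0 c b w a' s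
              + ∑ a, l i a s * vc M N x0 c b w a s + r i s)
            + w s * (∑ a, kk i a s * vc M N x0 c b w a s + ka i s))) := fun _ _ => rfl
    rw [h1, h1]
    apply Finset.sum_congr rfl
    intro j _
    rw [hexp v.1 (BM_meas v) hvU j, hexp u hum hub j]
    congr 2
    have := hvJ j
    simp only [add_assoc]
    rw [this]

end Pool.Agent.Lib.MP_28b8de_an
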