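import Pool.Agent.Lib.MP_28b8de_an.LQDefs

/-!
MP_28b8de_an, module LQVar: first variation of a linear-quadratic functional.
-/

namespace Pool.Agent.Lib.MP_28b8de_an

open Filter Topology Set MeasureTheory

variable {k : ℕ} {b : Fin k → ℝ → ℝ} {D : Dat k}

private theorem LQVar_prim {G : ℝ → ℝ} (hG : LocallyIntegrable G volume) (T : ℝ) :
    AbsolutelyContinuousOnInterval (fun t => ∫ s in t..T, G s) 0 T ∧
      ∀ᵐ t, HasDerivAt (fun t => ∫ s in t..T, G s) (- G t) t := by
  have hint : ∀ p q : ℝ, IntervalIntegrable G volume p q := fun p q => by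
    rw [intervalIntegrable_iff]
    exact (hG.integrableOn_isCompact isCompact_uIcc).mono_set uIoc_subset_uIcc
  have h1 : (fun t => ∫ s in t..T, G s) = fun t => (∫ s in (0 : ℝ)..T, G s) - ∫ s in (0 : ℝ)..t, G s := by
    ext t
    rw [← intervalIntegral.integral_interval_sub_left (hint 0 T) (hint 0 t)]
  rw [h1]
  constructor
  · have h2 : AbsolutelyContinuousOnInterval (fun x => ∫ v in (0 : ℝ)..x, G v) 0 T :=
      IntervalIntegrable.absolutelyContinuousOnInterval_intervalIntegral (hint 0 T)
        left_mem_uIcc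
    have h3 : AbsolutelyContinuousOnInterval (fun _ : ℝ => ∫ s in (0 : ℝ)..T, G s) 0 T :=
      ac_of_analytic (fun _ _ => analyticAt_const) 0 T
    exact h3.sub h2
  · filter_upwards [LocallyIntegrable.ae_hasDerivAt_integral hG] with t ht
    exact (ht 0).const_sub _

theorem first_var (hb : ∀ i, AnalyticOnNhd ℝ (b i) univ) (hD : D.An) (T : ℝ) (u w : BM) :
    linJ b D T w.1 + bilJ b D T u.1 w.1 + bilJ b D T w.1 u.1
      = ∫ t in (0 : ℝ)..T, phiJ b D T u.1 t * w.1 t := by
  obtain ⟨K, -, hK⟩ := BM_bdd u
  obtain ⟨K', -, hK'⟩ := BM_bdd w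
  have hum := BM_meas u
  have hwm := BM_meas w
  have hxu : ∀ i, Continuous (xi b u.1 i) := fun i => xi_cont hb hum hK i
  have hxw : ∀ i, Continuous (xi b w.1 i) := fun i => xi_cont hb hwm hK' i
  have hbc : ∀ i, Continuous (b i) := fun i => continuous_of_analytic (hb i)
  have hQc : ∀ i i', Continuous (D.Q i i') := fun i i' => continuous_of_analytic (hD.Q i i')
  have hlc : ∀ i, Continuous (D.l i) := fun i => continuous_of_analytic (hD.l i)
  have hkc : ∀ i, Continuous (D.kk i) := fun i => continuous_of_analytic (hD.kk i)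
  have hkac : Continuous D.ka := continuous_of_analytic hD.ka
  -- the functions G_i
  have hG1 : ∀ i, Continuous fun t => ∑ i', (D.Q i i' t + D.Q i' i t) * xi b u.1 i' t + D.l i t := by
    intro i
    apply Continuous.add _ (hlc i)
    apply continuous_finsetSum
    intro i' _
    exact ((hQc i i').add (hQc i' i)).mul (hxu i')
  have hGloc : ∀ i, LocallyIntegrable (gJ b D u.1 i) volume := by
    intro i
    have h1 := (hG1 i).locallyIntegrable (μ := volume)
    have h2 := locInt (hkc i) hum hK
    have h3 := h1.add h2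
    apply h3.congr
    apply Eventually.of_forall
    intro t
    show (∑ i', (D.Q i i' t + D.Q i' i t) * xi b u.1 i' t + D.l i t) + D.kk i t * u.1 t
      = gJ b D u.1 i t
    unfold gJ
    ring
  have hGx : ∀ i, IntervalIntegrable (fun t => gJ b D u.1 i t * xi b w.1 i t) volume 0 T := by
    intro i
    have h1 : IntervalIntegrable (gJ b D u.1 i) volume 0 T := by
      rw [intervalIntegrable_iff]
      exact ((hGloc i).integrableOn_isCompact isCompact_uIcc).mono_set uIoc_subset_uIcc
    exact h1.mul_continuousOn (hxw i).continuousOn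
  -- integration by parts
  have hparts : ∀ i, ∫ t in (0 : ℝ)..T, gJ b D u.1 i t * xi b w.1 i t
      = ∫ t in (0 : ℝ)..T, (∫ s in t..T, gJ b D u.1 i s) * (b i t * w.1 t) := by
    intro i
    obtain ⟨hac, hd⟩ := LQVar_prim (hGloc i) T
    have h1 := ibp_zero (f := fun t => ∫ s in t..T, gJ b D u.1 i s) (g := xi b w.1 i)
      (f' := fun t => - gJ b D u.1 i t) (g' := fun t => b i t * w.1 t) (s := 0) (s' := T)
      hac (xi_ac hb hwm hK' i 0 T) (hd.mono fun t ht _ => ht)
      ((xi_ae hb hwm hK' i).mono fun t ht _ => ht)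
      (by simp [xi]) (by simp)
    rw [h1, ← intervalIntegral.integral_neg]
    congr 1
    ext t
    ring
  -- left side
  have hcL : Continuous fun t => ∑ i, D.l i t * xi b w.1 i t := by
    apply continuous_finsetSum
    intro i _
    exact (hlc i).mul (hxw i)
  have hI1 : IntervalIntegrable (fun t => ∑ i, D.l i t * xi b w.1 i t + D.ka t * w.1 t)
      volume 0 T := (hcL.intervalIntegrable 0 T).add (intInt hkac hwm hK' 0 T)
  have hcQ : ∀ x y : Fin k → ℝ → ℝ, (∀ i, Continuous (x i)) → (∀ i, Continuous (y i)) →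
      Continuous fun t => ∑ i, ∑ i', D.Q i i' t * x i t * y i' t := by
    intro x y hx hy
    apply continuous_finsetSum
    intro i _
    apply continuous_finsetSum
    intro i' _
    exact ((hQc i i').mul (hx i)).mul (hy i')
  have hck : ∀ x : Fin k → ℝ → ℝ, (∀ i, Continuous (x i)) →
      Continuous fun t => ∑ i, D.kk i t * x i t := by
    intro x hx
    apply continuous_finsetSum
    intro i _
    exact (hkc i).mul (hx i)
  have hI2 : IntervalIntegrable (fun t => ∑ i, ∑ i', D.Q i i' t * xi b u.1 i t * xi b w.1 i' t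
      + u.1 t * ∑ i, D.kk i t * xi b w.1 i t) volume 0 T := by
    apply ((hcQ _ _ hxu hxw).intervalIntegrable 0 T).add
    have := intInt (hck _ hxw) hum hK 0 T
    apply this.congr
    intro t _
    exact mul_comm _ _
  have hI3 : IntervalIntegrable (fun t => ∑ i, ∑ i', D.Q i i' t * xi b w.1 i t * xi b u.1 i' t
      + w.1 t * ∑ i, D.kk i t * xi b u.1 i t) volume 0 T := by
    apply ((hcQ _ _ hxw hxu).intervalIntegrable 0 T).add
    have := intInt (hck _ hxu) hwm hK' 0 T
    apply this.congr
    intro t _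
    exact mul_comm _ _
  have hPc : ∀ i, Continuous fun t => ∫ s in t..T, gJ b D u.1 i s := by
    intro i
    have hint : ∀ p q : ℝ, IntervalIntegrable (gJ b D u.1 i) volume p q := fun p q => by
      rw [intervalIntegrable_iff]
      exact ((hGloc i).integrableOn_isCompact isCompact_uIcc).mono_set uIoc_subset_uIcc
    have h1 : (fun t => ∫ s in t..T, gJ b D u.1 i s)
        = fun t => - ∫ s in T..t, gJ b D u.1 i s := by
      ext t
      rw [intervalIntegral.integral_symm]
    rw [h1]
    exact (intervalIntegral.continuous_primitive hint T).neg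
  have hI4 : ∀ i, IntervalIntegrable (fun t => (∫ s in t..T, gJ b D u.1 i s) * (b i t * w.1 t))
      volume 0 T := by
    intro i
    have := intInt ((hPc i).mul (hbc i)) hwm hK' 0 T
    apply this.congr
    intro t _
    show (∫ s in t..T, gJ b D u.1 i s) * b i t * w.1 t = _
    ring
  have hI5 : IntervalIntegrable (fun t => (∑ i, D.kk i t * xi b u.1 i t + D.ka t) * w.1 t)
      volume 0 T := intInt ((hck _ hxu).add hkac) hwm hK' 0 T
  unfold linJ bilJ
  rw [← intervalIntegral.integral_add hI1 hI2, ← intervalIntegral.integral_add (hI1.add hI2) hI3]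
  have hleft : ∀ t, (∑ i, D.l i t * xi b w.1 i t + D.ka t * w.1 t)
      + (∑ i, ∑ i', D.Q i i' t * xi b u.1 i t * xi b w.1 i' t
        + u.1 t * ∑ i, D.kk i t * xi b w.1 i t)
      + (∑ i, ∑ i', D.Q i i' t * xi b w.1 i t * xi b u.1 i' t
        + w.1 t * ∑ i, D.kk i t * xi b u.1 i t)
      = (∑ i, gJ b D u.1 i t * xi b w.1 i t)
        + (∑ i, D.kk i t * xi b u.1 i t + D.ka t) * w.1 t := by
    intro t
    have e1 : ∑ i, gJ b D u.1 i t * xi b w.1 i t
        = ∑ i, ∑ i', D.Q i i' t * xi b u.1 i' t * xi b w.1 i t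
          + ∑ i, ∑ i', D.Q i' i t * xi b u.1 i' t * xi b w.1 i t
          + ∑ i, D.l i t * xi b w.1 i t + u.1 t * ∑ i, D.kk i t * xi b w.1 i t := by
      unfold gJ
      rw [Finset.mul_sum, ← Finset.sum_add_distrib, ← Finset.sum_add_distrib,
        ← Finset.sum_add_distrib]
      apply Finset.sum_congr rfl
      intro i _
      rw [add_mul, add_mul, Finset.sum_mul, ← Finset.sum_add_distrib]
      have : ∑ i', (D.Q i i' t + D.Q i' i t) * xi b u.1 i' t * xi b w.1 i t
          = ∑ i', (D.Q i i' t * xi b u.1 i' t * xi b w.1 i t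
            + D.Q i' i t * xi b u.1 i' t * xi b w.1 i t) := by
        apply Finset.sum_congr rfl
        intro i' _
        ring
      rw [this]
      ring
    have e2 : ∑ i, ∑ i', D.Q i' i t * xi b u.1 i' t * xi b w.1 i t
        = ∑ i, ∑ i', D.Q i i' t * xi b u.1 i t * xi b w.1 i' t := by
      rw [Finset.sum_comm]
    have e3 : ∑ i, ∑ i', D.Q i i' t * xi b u.1 i' t * xi b w.1 i t
        = ∑ i, ∑ i', D.Q i i' t * xi b w.1 i t * xi b u.1 i' t := by
      apply Finset.sum_congr rfl
      intro i _
      apply Finset.sum_congr rfl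
      intro i' _
      ring
    rw [e1, e2, e3]
    ring
  have hright : ∀ t, phiJ b D T u.1 t * w.1 t
      = (∑ i, (∫ s in t..T, gJ b D u.1 i s) * (b i t * w.1 t))
        + (∑ i, D.kk i t * xi b u.1 i t + D.ka t) * w.1 t := by
    intro t
    unfold phiJ
    rw [add_assoc, add_mul, Finset.sum_mul]
    congr 1
    apply Finset.sum_congr rfl
    intro i _
    ring
  rw [intervalIntegral.integral_congr (fun t _ => hleft t),
    intervalIntegral.integral_congr (fun t _ => hright t)]
  have hS1 : IntervalIntegrable (fun t => ∑ i, gJ b D u.1 i t * xi b w.1 i t) volume 0 T := by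
    have h9 := IntervalIntegrable.sum Finset.univ fun i _ => hGx i
    rw [Finset.sum_fn] at h9
    exact h9
  have hS2 : IntervalIntegrable
      (fun t => ∑ i, (∫ s in t..T, gJ b D u.1 i s) * (b i t * w.1 t)) volume 0 T := by
    have h9 := IntervalIntegrable.sum Finset.univ fun i _ => hI4 i
    rw [Finset.sum_fn] at h9
    exact h9
  rw [intervalIntegral.integral_add hS1 hI5, intervalIntegral.integral_add hS2 hI5,
    intervalIntegral.integral_finsetSum (fun i _ => hGx i),
    intervalIntegral.integral_finsetSum (fun i _ => hI4 i)]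
  congr 1
  apply Finset.sum_congr rfl
  intro i _
  exact hparts i

end Pool.Agent.Lib.MP_28b8de_an
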