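import Mathlib

/-!
MP_28b8de_an, module Pohozaev: the Pohozaev type identity for functions with vanishing Cauchy
data at both end points, and the resulting exclusion of short loops.
-/

namespace Pool.Agent.Lib.MP_28b8de_an

open Filter Topology Set MeasureTheory

/-- `g 0, ..., g (N-1)` are absolutely continuous, vanish at both end points, and `g (j+1)` is
the almost everywhere derivative of `g j`. -/
structure Chain (N : ℕ) (g : ℕ → ℝ → ℝ) (s s' : ℝ) : Prop where
  ac : ∀ j < N, AbsolutelyContinuousOnInterval (g j) s s'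
  der : ∀ j < N, ∀ᵐ t, t ∈ uIoc s s' → HasDerivAt (g j) (g (j + 1) t) t
  left : ∀ j < N, g j s = 0
  right : ∀ j < N, g j s' = 0

theorem Chain.shift {N : ℕ} {g : ℕ → ℝ → ℝ} {s s' : ℝ} (h : Chain (N + 1) g s s') :
    Chain N (fun j => g (j + 1)) s s' where
  ac j hj := h.ac (j + 1) (by omega)
  der j hj := h.der (j + 1) (by omega)
  left j hj := h.left (j + 1) (by omega)
  right j hj := h.right (j + 1) (by omega)

/-- Integration by parts with vanishing boundary terms. -/
theorem ibp_zero {f g f' g' : ℝ → ℝ} {s s' : ℝ} (hf : AbsolutelyContinuousOnInterval f s s')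
    (hg : AbsolutelyContinuousOnInterval g s s')
    (hf' : ∀ᵐ t, t ∈ uIoc s s' → HasDerivAt f (f' t) t)
    (hg' : ∀ᵐ t, t ∈ uIoc s s' → HasDerivAt g (g' t) t)
    (h1 : f s * g s = 0) (h2 : f s' * g s' = 0) :
    ∫ t in s..s', f t * g' t = - ∫ t in s..s', f' t * g t := by
  have h := hf.integral_mul_deriv_eq_deriv_mul hg
  have e1 : ∫ t in s..s', f t * deriv g t = ∫ t in s..s', f t * g' t := by
    apply intervalIntegral.integral_congr_ae
    filter_upwards [hg'] with t ht htm
    rw [(ht htm).deriv]
  have e2 : ∫ t in s..s', deriv f t * g t = ∫ t in s..s', f' t * g t := by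
    apply intervalIntegral.integral_congr_ae
    filter_upwards [hf'] with t ht htm
    rw [(ht htm).deriv]
  rw [e1, e2, h1, h2] at h
  rw [h]
  ring

theorem ac_id_sub (s s' : ℝ) : AbsolutelyContinuousOnInterval (fun t : ℝ => t - s) s s' := by
  apply ContDiffOn.absolutelyContinuousOnInterval
  fun_prop

theorem der_id_sub (s t : ℝ) : HasDerivAt (fun t : ℝ => t - s) 1 t :=
  (hasDerivAt_id t).sub_const s

theorem chain_odd (q : ℕ) : ∀ {g : ℕ → ℝ → ℝ} {s s' : ℝ}, Chain (2 * q + 1) g s s' →
    ∫ t in s..s', g (2 * q + 1) t * g 0 t = 0 := by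
  induction q with
  | zero =>
    intro g s s' h
    have h1 := ibp_zero (h.ac 0 (by omega)) (h.ac 0 (by omega)) (h.der 0 (by omega))
      (h.der 0 (by omega)) (by rw [h.left 0 (by omega)]; ring) (by rw [h.right 0 (by omega)]; ring)
    have h2 : ∫ t in s..s', g 0 t * g (0 + 1) t = ∫ t in s..s', g (0 + 1) t * g 0 t := by
      congr 1
      ext t
      ring
    simp only [Nat.mul_zero, Nat.zero_add] at *
    linarith
  | succ q ih =>
    intro g s s' h
    have hs : Chain (2 * q + 1) (fun j => g (j + 1)) s s' := by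
      have : Chain (2 * q + 2 + 1) g s s' := h
      have h3 := this.shift
      exact ⟨fun j hj => h3.ac j (by omega), fun j hj => h3.der j (by omega),
        fun j hj => h3.left j (by omega), fun j hj => h3.right j (by omega)⟩
    have h1 := ibp_zero (h.ac 0 (by omega)) (h.ac (2 * q + 2) (by omega)) (h.der 0 (by omega))
      (h.der (2 * q + 2) (by omega)) (by rw [h.left 0 (by omega)]; ring)
      (by rw [h.right 0 (by omega)]; ring)
    have h2 := ih hs
    have h3 : ∫ t in s..s', g (2 * (q + 1) + 1) t * g 0 t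
        = ∫ t in s..s', g 0 t * g (2 * q + 2 + 1) t := by
      congr 1
      ext t
      rw [show 2 * (q + 1) + 1 = 2 * q + 2 + 1 by ring]
      ring
    have h4 : ∫ t in s..s', g (0 + 1) t * g (2 * q + 2) t
        = ∫ t in s..s', g (2 * q + 1 + 1) t * g (0 + 1) t := by
      congr 1
      ext t
      ring
    rw [h3, h1, h4, h2, neg_zero]

theorem chain_even (q : ℕ) : ∀ {g : ℕ → ℝ → ℝ} {s s' : ℝ}, Chain (2 * q + 2) g s s' →
    ∫ t in s..s', ((t - s) * g 1 t + (1 / 2 - ((q : ℝ) + 1)) * g 0 t) * g (2 * q + 2) t = 0 := by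
  induction q with
  | zero =>
    intro g s s' h
    have ha1 : AbsolutelyContinuousOnInterval (fun t => (t - s) * g 1 t) s s' :=
      (ac_id_sub s s').mul (h.ac 1 (by omega))
    have hd1 : ∀ᵐ t, t ∈ uIoc s s' → HasDerivAt (fun t => (t - s) * g 1 t)
        (g 1 t + (t - s) * g 2 t) t := by
      filter_upwards [h.der 1 (by omega)] with t ht htm
      have := (der_id_sub s t).mul (ht htm)
      have e : 1 * g 1 t + (t - s) * g (1 + 1) t = g 1 t + (t - s) * g 2 t := by ring
      rw [e] at this
      exact this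
    have h1 := ibp_zero ha1 (h.ac 1 (by omega)) hd1 (h.der 1 (by omega))
      (by rw [h.left 1 (by omega)]; ring) (by rw [h.right 1 (by omega)]; ring)
    have h2 := ibp_zero (h.ac 0 (by omega)) (h.ac 1 (by omega)) (h.der 0 (by omega))
      (h.der 1 (by omega)) (by rw [h.left 0 (by omega)]; ring)
      (by rw [h.right 0 (by omega)]; ring)
    -- integrability
    have i1 : IntervalIntegrable (fun t => deriv (g 1) t) volume s s' :=
      (h.ac 1 (by omega)).intervalIntegrable_deriv
    have i2 : IntervalIntegrable (g 2) volume s s' := by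
      apply i1.congr_ae
      rw [Filter.EventuallyEq, ae_restrict_iff' measurableSet_uIoc]
      filter_upwards [h.der 1 (by omega)] with t ht htm
      exact (ht htm).deriv
    have c1 : ContinuousOn (g 1) (uIcc s s') := (h.ac 1 (by omega)).continuousOn
    have c0 : ContinuousOn (g 0) (uIcc s s') := (h.ac 0 (by omega)).continuousOn
    have cs : ContinuousOn (fun t : ℝ => t - s) (uIcc s s') := by fun_prop
    have i3 : IntervalIntegrable (fun t => (t - s) * g 1 t * g 2 t) volume s s' :=
      i2.continuousOn_mul (cs.mul c1)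
    have i4 : IntervalIntegrable (fun t => g 0 t * g 2 t) volume s s' :=
      i2.continuousOn_mul c0
    have i5 : IntervalIntegrable (fun t => g 1 t * g 1 t) volume s s' :=
      (c1.mul c1).intervalIntegrable
    have i6 : IntervalIntegrable (fun t => (t - s) * g 2 t * g 1 t) volume s s' :=
      i3.congr (fun t _ => by ring)
    have e1 : ∫ t in s..s', (g 1 t + (t - s) * g 2 t) * g 1 t =
        (∫ t in s..s', g 1 t * g 1 t) + ∫ t in s..s', (t - s) * g 1 t * g 2 t := by
      rw [← intervalIntegral.integral_add i5 i3]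
      congr 1
      ext t
      ring
    have e2 : ∫ t in s..s', ((t - s) * g 1 t + (1 / 2 - (((0 : ℕ) : ℝ) + 1)) * g 0 t) * g 2 t =
        (∫ t in s..s', (t - s) * g 1 t * g 2 t) + (1 / 2 - (((0 : ℕ) : ℝ) + 1)) *
          ∫ t in s..s', g 0 t * g 2 t := by
      rw [← intervalIntegral.integral_const_mul, ← intervalIntegral.integral_add i3
        (i4.const_mul _)]
      congr 1
      ext t
      ring
    simp only [Nat.mul_zero, Nat.zero_add] at *
    rw [e2]
    rw [e1] at h1
    have h3 : (2 : ℕ) = 1 + 1 := rfl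
    simp only [← h3] at h1 h2
    push_cast
    have h4 : ∫ t in s..s', (t - s) * g 1 t * g 2 t = -(1 / 2) * ∫ t in s..s', g 1 t * g 1 t := by
      linarith
    rw [h4, h2]
    ring
  | succ q ih =>
    intro g s s' h
    have hs : Chain (2 * q + 2) (fun j => g (j + 1)) s s' := by
      have : Chain (2 * q + 3 + 1) g s s' := h
      have h3 := this.shift
      exact ⟨fun j hj => h3.ac j (by omega), fun j hj => h3.der j (by omega),
        fun j hj => h3.left j (by omega), fun j hj => h3.right j (by omega)⟩
    set c : ℝ := 1 / 2 - ((((q + 1 : ℕ) : ℝ)) + 1) with hc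
    have ha1 : AbsolutelyContinuousOnInterval (fun t => (t - s) * g 1 t + c * g 0 t) s s' := by
      exact ((ac_id_sub s s').mul (h.ac 1 (by omega))).add ((h.ac 0 (by omega)).const_mul c)
    have hd1 : ∀ᵐ t, t ∈ uIoc s s' → HasDerivAt (fun t => (t - s) * g 1 t + c * g 0 t)
        ((t - s) * g 2 t + (1 + c) * g 1 t) t := by
      filter_upwards [h.der 1 (by omega), h.der 0 (by omega)] with t ht ht0 htm
      have := ((der_id_sub s t).mul (ht htm)).add ((ht0 htm).const_mul c)
      have e : 1 * g 1 t + (t - s) * g (1 + 1) t + c * g (0 + 1) t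
          = (t - s) * g 2 t + (1 + c) * g 1 t := by ring_nf
      rw [e] at this
      exact this
    have h1 := ibp_zero ha1 (h.ac (2 * q + 3) (by omega)) hd1 (h.der (2 * q + 3) (by omega))
      (by rw [h.left (2 * q + 3) (by omega)]; ring) (by rw [h.right (2 * q + 3) (by omega)]; ring)
    have h2 := ih hs
    have h5 : (2 * (q + 1) + 2) = 2 * q + 3 + 1 := by ring
    rw [h5, h1]
    rw [neg_eq_zero]
    rw [← h2]
    congr 1
    ext t
    have h6 : 1 + c = 1 / 2 - ((q : ℝ) + 1) := by
      rw [hc]
      push_cast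
      ring
    rw [h6]

end Pool.Agent.Lib.MP_28b8de_an
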