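import Mathlib

/-!
MP_28b8de_an, module Prim: a primitive of a real analytic function is real analytic;
zeros of real analytic functions on compact intervals.
-/

namespace Pool.Agent.Lib.MP_28b8de_an

open Filter Topology Set MeasureTheory

/-- A function whose derivative near a point is real analytic is real analytic at the point. -/
theorem analyticAt_of_hasDerivAt {F f : ℝ → ℝ} {t₀ : ℝ}
    (hF : ∀ᶠ t in 𝓝 t₀, HasDerivAt F (f t) t) (hf : AnalyticAt ℝ f t₀) : AnalyticAt ℝ F t₀ := by
  obtain ⟨p, r, hp⟩ := hf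
  obtain ⟨ε, hε, hFε⟩ := Metric.eventually_nhds_iff.1 hF
  -- a radius
  obtain ⟨ρ, hρ0, hρr⟩ : ∃ ρ : NNReal, 0 < ρ ∧ (ρ : ENNReal) < r := by
    rcases ENNReal.lt_iff_exists_nnreal_btwn.1 hp.r_pos with ⟨ρ, h1, h2⟩
    exact ⟨ρ, by exact_mod_cast h1, h2⟩
  set a : ℕ → ℝ := fun n => p.coeff n with ha
  have hsum : Summable fun n => ‖a n‖ * (ρ : ℝ) ^ n := by
    have := p.summable_norm_mul_pow (lt_of_lt_of_le hρr hp.r_le)
    refine this.congr (fun n => ?_)
    rw [FormalMultilinearSeries.norm_apply_eq_norm_coef]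
  set b : ℕ → ℝ := fun n => Nat.casesOn n (F t₀) (fun m => a m / (m + 1)) with hb
  have hb0 : b 0 = F t₀ := rfl
  have hbs : ∀ n, b (n + 1) = a n / (n + 1) := fun n => rfl
  set q : FormalMultilinearSeries ℝ ℝ ℝ := FormalMultilinearSeries.ofScalars ℝ b with hq
  have hqn : ∀ n, ‖q n‖ = ‖b n‖ := by
    intro n
    rw [FormalMultilinearSeries.norm_apply_eq_norm_coef, hq,
      FormalMultilinearSeries.coeff_ofScalars]
  have hbb : ∀ n, ‖b (n + 1)‖ * (ρ : ℝ) ^ (n + 1) ≤ ρ * (‖a n‖ * (ρ : ℝ) ^ n) := by
    intro n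
    rw [hbs, norm_div, pow_succ]
    have h1 : ‖a n‖ / ‖((n : ℝ) + 1)‖ ≤ ‖a n‖ := by
      apply div_le_self (norm_nonneg _)
      rw [Real.norm_of_nonneg (by positivity)]
      have : (0 : ℝ) ≤ n := Nat.cast_nonneg n
      linarith
    calc ‖a n‖ / ‖((n : ℝ) + 1)‖ * ((ρ : ℝ) ^ n * ρ) ≤ ‖a n‖ * ((ρ : ℝ) ^ n * ρ) := by
          gcongr
      _ = ρ * (‖a n‖ * (ρ : ℝ) ^ n) := by ring
  have hsq : Summable fun n => ‖q n‖ * (ρ : ℝ) ^ n := by
    simp only [hqn]
    rw [← summable_nat_add_iff 1]
    exact (hsum.mul_left (ρ : ℝ)).of_nonneg_of_le (fun n => by positivity) hbb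
  have hrad : (ρ : ENNReal) ≤ q.radius := q.le_radius_of_summable_norm hsq
  have hqpos : 0 < q.radius := lt_of_lt_of_le (by exact_mod_cast hρ0) hrad
  have hG := q.hasFPowerSeriesOnBall hqpos
  have hGsum : ∀ y : ℝ, q.sum y = ∑' n, b n * y ^ n := by
    intro y
    unfold FormalMultilinearSeries.sum
    congr 1
    ext n
    rw [FormalMultilinearSeries.apply_eq_pow_smul_coeff, hq,
      FormalMultilinearSeries.coeff_ofScalars, smul_eq_mul, mul_comm]
  have hρ0' : (0 : ℝ) < ρ := by exact_mod_cast hρ0
  -- derivative of the sum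
  have hderiv : ∀ y : ℝ, y ∈ Metric.ball (0 : ℝ) ρ → HasDerivAt q.sum (f (t₀ + y)) y := by
    intro y hy
    have hu : Summable fun n : ℕ => ‖b n‖ * n * (ρ : ℝ) ^ (n - 1) := by
      rw [← summable_nat_add_iff 1]
      refine hsum.congr (fun n => ?_)
      rw [hbs, norm_div]
      have h1 : ‖((n : ℝ) + 1)‖ = (n : ℝ) + 1 := Real.norm_of_nonneg (by positivity)
      rw [h1]
      have h2 : ((n : ℝ) + 1) ≠ 0 := by positivity
      push_cast
      field_simp
    have h3 := hasDerivAt_tsum_of_isPreconnected (g := fun n y => b n * y ^ n)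
      (g' := fun n y => b n * (n * y ^ (n - 1))) hu Metric.isOpen_ball
      (convex_ball (0 : ℝ) (ρ : ℝ)).isPreconnected
      (fun n y _ => (hasDerivAt_pow n y).const_mul (b n))
      (fun n y hy' => by
        have hy2 : |y| ≤ ρ := by
          have := mem_ball_zero_iff.1 hy'
          rw [Real.norm_eq_abs] at this
          exact this.le
        rw [norm_mul, norm_mul, norm_pow, Real.norm_eq_abs y, mul_assoc]
        have : ‖((n : ℕ) : ℝ)‖ = n := Real.norm_of_nonneg (Nat.cast_nonneg n)
        rw [this]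
        gcongr)
      (Metric.mem_ball_self hρ0')
      (by
        apply summable_of_ne_finset_zero (s := {0})
        intro n hn
        have : n ≠ 0 := by simpa using hn
        simp [this])
      hy
    have h4 : (fun z => ∑' n, b n * z ^ n) = q.sum := by
      ext z
      rw [hGsum]
    rw [h4] at h3
    have h5 : ∑' n : ℕ, b n * (n * y ^ (n - 1)) = f (t₀ + y) := by
      have h6 : HasSum (fun n => a n * y ^ n) (f (t₀ + y)) := by
        have h7 := hp.hasSum (y := y) (by
          have := mem_ball_zero_iff.1 hy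
          rw [mem_eball_zero_iff]
          refine lt_trans ?_ hρr
          rw [enorm_eq_nnnorm]
          exact_mod_cast this)
        refine h7.congr_fun ?_ |> fun h => h
        intro n
        rw [FormalMultilinearSeries.apply_eq_pow_smul_coeff, smul_eq_mul, mul_comm]
      rw [← h6.tsum_eq]
      have h8 : Summable fun n : ℕ => b n * (n * y ^ (n - 1)) := by
        rw [← summable_nat_add_iff 1]
        refine h6.summable.congr (fun n => ?_)
        rw [hbs]
        have h2 : ((n : ℝ) + 1) ≠ 0 := by positivity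
        push_cast
        field_simp
      rw [h8.tsum_eq_zero_add]
      simp only [Nat.cast_zero, zero_mul, mul_zero, zero_add]
      congr 1
      ext n
      rw [hbs]
      have h2 : ((n : ℝ) + 1) ≠ 0 := by positivity
      push_cast
      field_simp
    rw [h5] at h3
    exact h3
  have hG0 : q.sum 0 = F t₀ := by
    rw [hGsum, tsum_eq_single 0]
    · simp [hb0]
    · intro n hn
      simp [hn]
  -- compare
  set δ : ℝ := min ε ρ with hδ
  have hδ0 : 0 < δ := lt_min hε hρ0'
  have hcomp : ∀ t, t ∈ Metric.ball t₀ δ → F t = q.sum (t - t₀) := by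
    intro t ht
    have hd : ∀ s ∈ Metric.ball t₀ δ, HasDerivAt (fun s => F s - q.sum (s - t₀)) 0 s := by
      intro s hs
      have h1 : HasDerivAt F (f s) s :=
        hFε (lt_of_lt_of_le (Metric.mem_ball.1 hs) (min_le_left _ _))
      have h2 : HasDerivAt q.sum (f (t₀ + (s - t₀))) (s - t₀) := by
        apply hderiv
        rw [mem_ball_zero_iff, Real.norm_eq_abs]
        have := lt_of_lt_of_le (Metric.mem_ball.1 hs) (min_le_right ε ρ)
        rwa [Real.dist_eq] at this
      have h3 : HasDerivAt (fun s => s - t₀) 1 s := (hasDerivAt_id s).sub_const t₀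
      have h4 := h1.sub (h2.comp s h3)
      have h5 : f s - f (t₀ + (s - t₀)) * 1 = 0 := by
        rw [add_sub_cancel, mul_one, sub_self]
      rw [h5] at h4
      exact h4
    have hdiff : DifferentiableOn ℝ (fun s => F s - q.sum (s - t₀)) (Metric.ball t₀ δ) :=
      fun s hs => (hd s hs).differentiableAt.differentiableWithinAt
    have := (Metric.isOpen_ball (x := t₀) (ε := δ)).is_const_of_deriv_eq_zero
      (convex_ball t₀ δ).isPreconnected hdiff (fun s hs => (hd s hs).deriv) ht
      (Metric.mem_ball_self hδ0)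
    simp only [sub_self, hG0] at this
    linarith
  have hA : AnalyticAt ℝ (fun t => q.sum (t - t₀)) t₀ := by
    have h1 : AnalyticAt ℝ q.sum (t₀ - t₀) := by
      rw [sub_self]
      exact hG.analyticAt
    exact h1.comp (f := fun t => t - t₀) (analyticAt_id.sub analyticAt_const)
  refine hA.congr ?_
  filter_upwards [Metric.ball_mem_nhds t₀ hδ0] with t ht
  exact (hcomp t ht).symm

/-- The integral of a real analytic function is a real analytic function of the end point. -/
theorem analyticOnNhd_integral {f : ℝ → ℝ} (hf : AnalyticOnNhd ℝ f univ) (a : ℝ) :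
    AnalyticOnNhd ℝ (fun t => ∫ s in a..t, f s) univ := by
  intro t _
  apply analyticAt_of_hasDerivAt (f := f) _ (hf t (mem_univ t))
  have hc : Continuous f := by
    rw [continuous_iff_continuousAt]
    exact fun s => (hf s (mem_univ s)).continuousAt
  exact Eventually.of_forall fun s => hc.integral_hasStrictDerivAt a s |>.hasDerivAt

/-- A real analytic function on the line which does not vanish identically has finitely many
zeros in a compact interval. -/
theorem finite_zeros {f : ℝ → ℝ} (hf : AnalyticOnNhd ℝ f univ) (h0 : ∃ t, f t ≠ 0) (a b : ℝ) :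
    {t ∈ Icc a b | f t = 0}.Finite := by
  by_contra hinf
  rw [← Set.Infinite] at hinf
  obtain ⟨z, -, hz⟩ := hinf.exists_accPt_of_subset_isCompact isCompact_Icc (fun t ht => ht.1)
  have h1 : ∃ᶠ t in 𝓝[≠] z, f t = 0 := by
    rw [accPt_iff_frequently_nhdsNE] at hz
    exact hz.mono fun t ht => ht.2
  have h2 := hf.eqOn_zero_of_preconnected_of_frequently_eq_zero isPreconnected_univ
    (mem_univ z) h1
  obtain ⟨t, ht⟩ := h0
  exact ht (h2 (mem_univ t))

/-- A real analytic function on the line which vanishes at all points of an open interval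
vanishes. -/
theorem analytic_eq_zero_of_interval {f : ℝ → ℝ} (hf : AnalyticOnNhd ℝ f univ) {a b : ℝ}
    (hab : a < b) (h : ∀ t ∈ Ioo a b, f t = 0) (t : ℝ) : f t = 0 := by
  have h1 : f =ᶠ[𝓝 ((a + b) / 2)] 0 := by
    filter_upwards [Ioo_mem_nhds (show a < (a + b) / 2 by linarith)
      (show (a + b) / 2 < b by linarith)] with s hs
    exact h s hs
  exact hf.eqOn_zero_of_preconnected_of_eventuallyEq_zero isPreconnected_univ
    (mem_univ _) h1 (mem_univ t)

end Pool.Agent.Lib.MP_28b8de_an
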