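import Pool.Agent.Lib.MP_28b8de_an.RelayTwo

/-!
MP_28b8de_an, module RelayThree: in the extremal case the control is constant between two close
points of the perfect set.
-/

namespace Pool.Agent.Lib.MP_28b8de_an

open Filter Topology Set MeasureTheory

variable {ι : Type*} [Fintype ι] {a c : ι → ℝ → ℝ} {ψ u : ℝ → ℝ}

theorem sq_one_of_abs {τ : ℝ} (hτ : |τ| = 1) : τ * τ = 1 := by
  have := congrArg (fun x => x * x) hτ
  simp only [abs_mul_abs_self, mul_one] at this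
  exact this

theorem Df_zero {M : ℕ} {τ t : ℝ} (hτ : |τ| = 1) (hβ : Wd a c M t ≠ 0)
    (h : Phi a c ψ u (M + 1) t = - τ * Wd a c M t) : Df a c ψ u M τ t = 0 := by
  unfold Df
  rw [h]
  field_simp
  have := sq_one_of_abs hτ
  linarith [sq τ]

variable (ha : ∀ i, AnalyticOnNhd ℝ (a i) univ) (hc : ∀ i, AnalyticOnNhd ℝ (c i) univ)
  (hψ : AnalyticOnNhd ℝ ψ univ) (hum : Measurable u) (hub : ∀ t, |u t| ≤ 1)

include ha hc hψ hum hub

theorem Ds_eventually {M : ℕ} {τ σ : ℝ} (hτ : |τ| = 1) (hσ : |σ| = 1) {p q β0 B : ℝ}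
    (hβ0 : 0 < β0) (hB0 : 0 ≤ B)
    (hβ : ∀ t ∈ Icc p q, β0 ≤ σ * Wd a c M t)
    (hB : ∀ i, ∀ t ∈ Icc p q, |iteratedDeriv (M + 1) (a i) t| ≤ B ∧ |c i t| ≤ B)
    (hBβ : ∀ t ∈ Icc p q, |Wd a c M t| ≤ B)
    {K : Set ℝ} (hK0 : ∀ t ∈ K, Phi a c ψ u M t = 0)
    (hKτ : ∀ t ∈ K, t ∈ Icc p q → Phi a c ψ u (M + 1) t = - τ * Wd a c M t)
    {s : ℝ} (hsK : s ∈ K) (hs : s ∈ Ioo p q) (hacc : AccPt s (𝓟 K)) :
    ∀ᶠ t in 𝓝 s, Ds a c ψ u M τ s t = 0 := by
  have habsβ : ∀ t ∈ Icc p q, β0 ≤ |Wd a c M t| := by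
    intro t ht
    have h1 := hβ t ht
    have h2 := le_abs_self (σ * Wd a c M t)
    rw [abs_mul, hσ, one_mul] at h2
    linarith
  have hne : ∀ t ∈ Icc p q, Wd a c M t ≠ 0 := by
    intro t ht h0
    have := habsβ t ht
    rw [h0, abs_zero] at this
    linarith
  have hsI : s ∈ Icc p q := Ioo_subset_Icc_self hs
  have hf : AnalyticAt ℝ (Ds a c ψ u M τ s) s := Ds_analytic ha hc hψ (hne s hsI)
  by_contra hcon
  obtain ⟨k, g, hg, hgs, hfg⟩ := hf.exists_eventuallyEq_pow_smul_nonzero_iff.mpr hcon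
  set γ : ℝ := |g s| with hγ
  have hγ0 : 0 < γ := abs_pos.2 hgs
  have hgc : ContinuousAt (fun r => |g r|) s := hg.continuousAt.abs
  have h1 : ∀ᶠ r in 𝓝 s, γ / 2 < |g r| := hgc.eventually (lt_mem_nhds (by
    show γ / 2 < |g s|
    linarith))
  have h2 : ∀ᶠ r in 𝓝 s, |g r| < 2 * γ := hgc.eventually (gt_mem_nhds (by
    show |g s| < 2 * γ
    linarith))
  have h3 : ∀ᶠ r in 𝓝 s, r ∈ Ioo p q := Ioo_mem_nhds hs.1 hs.2
  obtain ⟨δ, hδ, hall⟩ := Metric.eventually_nhds_iff.1 (h1.and (h2.and (h3.and hfg)))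
  set C1 : ℝ := Fintype.card ι * B * B / β0 with hC1
  have hC10 : 0 ≤ C1 := by positivity
  -- pick a close point of `K`
  have hpos : 0 < min δ (β0 / (5 * B * C1 + 1)) := by positivity
  rw [accPt_iff_frequently_nhdsNE] at hacc
  have h4 : ∀ᶠ r in 𝓝[≠] s, r ≠ s ∧ |r - s| < min δ (β0 / (5 * B * C1 + 1)) := by
    have h5 : ∀ᶠ r in 𝓝[≠] s, r ≠ s := eventually_mem_nhdsWithin
    have h6 : ∀ᶠ r in 𝓝[≠] s, r ∈ Metric.ball s (min δ (β0 / (5 * B * C1 + 1))) :=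
      mem_nhdsWithin_of_mem_nhds (Metric.ball_mem_nhds s hpos)
    filter_upwards [h5, h6] with r h7 h8
    exact ⟨h7, by rwa [Metric.mem_ball, Real.dist_eq] at h8⟩
  obtain ⟨t, htK, hts, htd⟩ := (hacc.and_eventually h4).exists
  set h : ℝ := |t - s| with hh
  have hh0 : 0 < h := abs_pos.2 (sub_ne_zero.2 hts)
  have hhδ : h < δ := lt_of_lt_of_le htd (min_le_left _ _)
  have hhβ : h < β0 / (5 * B * C1 + 1) := lt_of_lt_of_le htd (min_le_right _ _)
  have hr_in : ∀ r ∈ uIcc s t, |r - s| ≤ h := by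
    intro r hr
    rw [hh]
    rw [mem_uIcc] at hr
    rcases hr with hr | hr
    · rw [abs_of_nonneg (by linarith [hr.1]), abs_of_nonneg (by linarith [hr.1, hr.2])]
      linarith [hr.2]
    · rw [abs_of_nonpos (by linarith [hr.2]), abs_of_nonpos (by linarith [hr.1, hr.2])]
      linarith [hr.1]
  have hr_Icc : ∀ r ∈ uIcc s t, r ∈ Icc p q := by
    intro r hr
    have h5 := hall (y := r) (by rw [Real.dist_eq]; exact lt_of_le_of_lt (hr_in r hr) hhδ)
    exact Ioo_subset_Icc_self h5.2.2.1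
  set m : ℝ := mass τ u s t with hm
  have hm0 : 0 ≤ m := mass_nonneg hτ hub s t
  have htI : t ∈ Icc p q := hr_Icc t right_mem_uIcc
  have hDt : Df a c ψ u M τ t = 0 := Df_zero hτ (hne t htI) (hKτ t htK htI)
  have hft : |Ds a c ψ u M τ s t| ≤ C1 * m := by
    have := Df_sub_Ds (ψ := ψ) hc hum hub hτ hβ0 habsβ hB hsI htI
    rwa [hDt, zero_sub, abs_neg] at this
  have ht_all := hall (y := t) (by rw [Real.dist_eq]; exact hhδ)
  have hlow : γ / 2 * h ^ k ≤ C1 * m := by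
    refine le_trans ?_ hft
    rw [ht_all.2.2.2, smul_eq_mul, abs_mul, abs_pow, ← hh, mul_comm]
    exact mul_le_mul_of_nonneg_left ht_all.1.le (by positivity)
  have hup : ∀ r ∈ uIcc s t, |Df a c ψ u M τ r| ≤ 5 * C1 * m := by
    intro r hr
    have h5 := hall (y := r) (by rw [Real.dist_eq]; exact lt_of_le_of_lt (hr_in r hr) hhδ)
    have h6 := Df_sub_Ds (ψ := ψ) hc hum hub hτ hβ0 habsβ hB hsI (hr_Icc r hr)
    have h7 : mass τ u s r ≤ m := mass_mono hτ hum hub hr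
    have h8 : |Ds a c ψ u M τ s r| ≤ 2 * γ * h ^ k := by
      rw [h5.2.2.2, smul_eq_mul, abs_mul, abs_pow, mul_comm]
      apply mul_le_mul h5.2.1.le _ (by positivity) (by positivity)
      exact pow_le_pow_left₀ (abs_nonneg _) (hr_in r hr) k
    have h9 : |Df a c ψ u M τ r| ≤ |Df a c ψ u M τ r - Ds a c ψ u M τ s r|
        + |Ds a c ψ u M τ s r| := by
      have := abs_add_le (Df a c ψ u M τ r - Ds a c ψ u M τ s r) (Ds a c ψ u M τ s r)
      rwa [sub_add_cancel] at this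
    have h10 : C1 * mass τ u s r ≤ C1 * m := mul_le_mul_of_nonneg_left h7 hC10
    linarith
  have hbal := balance ha hc hψ hum hub (M := M) hτ hσ hβ0 (B := B) (m0 := 5 * C1 * m)
    (fun r hr => hβ r (hr_Icc r hr)) (fun r hr => hBβ r (hr_Icc r hr)) (hK0 s hsK) (hK0 t htK) hup
  rw [← hh, ← hm] at hbal
  have hsmall : h * (5 * B * C1 + 1) < β0 := by
    rwa [lt_div_iff₀ (by positivity)] at hhβ
  have hmz : m = 0 := by
    by_contra hne0
    have hmp : 0 < m := lt_of_le_of_ne hm0 (Ne.symm hne0)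
    have h11 : β0 * m ≤ (5 * B * C1 * h) * m := by linarith
    have h12 := le_of_mul_le_mul_right h11 hmp
    nlinarith
  rw [hmz, mul_zero] at hlow
  have : 0 < γ / 2 * h ^ k := by positivity
  linarith

theorem const_between {M : ℕ} {τ σ : ℝ} (hτ : |τ| = 1) (hσ : |σ| = 1) {p q β0 B : ℝ}
    (hβ0 : 0 < β0) (hB0 : 0 ≤ B)
    (hβ : ∀ t ∈ Icc p q, β0 ≤ σ * Wd a c M t)
    (hB : ∀ i, ∀ t ∈ Icc p q, |iteratedDeriv (M + 1) (a i) t| ≤ B ∧ |c i t| ≤ B)
    (hBβ : ∀ t ∈ Icc p q, |Wd a c M t| ≤ B)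
    {K : Set ℝ} (hK0 : ∀ t ∈ K, Phi a c ψ u M t = 0)
    (hKτ : ∀ t ∈ K, t ∈ Icc p q → Phi a c ψ u (M + 1) t = - τ * Wd a c M t)
    {s s' : ℝ} (hsK : s ∈ K) (hs'K : s' ∈ K) (hs : s ∈ Ioo p q) (hs' : s' ∈ Ioo p q)
    (hacc : AccPt s (𝓟 K)) (hss : s < s')
    (hsm : B * (Fintype.card ι * B * B / β0) * (s' - s) < β0) :
    ∀ᵐ r : ℝ, r ∈ Ioo s s' → u r = τ := by
  have habsβ : ∀ t ∈ Icc p q, β0 ≤ |Wd a c M t| := by
    intro t ht
    have h1 := hβ t ht
    have h2 := le_abs_self (σ * Wd a c M t)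
    rw [abs_mul, hσ, one_mul] at h2
    linarith
  have hne : ∀ t ∈ Icc p q, Wd a c M t ≠ 0 := by
    intro t ht h0
    have := habsβ t ht
    rw [h0, abs_zero] at this
    linarith
  have hev := Ds_eventually ha hc hψ hum hub hτ hσ hβ0 hB0 hβ hB hBβ hK0 hKτ hsK hs hacc
  have hzero : ∀ t ∈ Ioo p q, Ds a c ψ u M τ s t = 0 := by
    have han : AnalyticOnNhd ℝ (Ds a c ψ u M τ s) (Ioo p q) := fun t ht =>
      Ds_analytic ha hc hψ (hne t (Ioo_subset_Icc_self ht))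
    exact han.eqOn_zero_of_preconnected_of_eventuallyEq_zero isPreconnected_Ioo hs hev
  have hsub : ∀ r ∈ uIcc s s', r ∈ Ioo p q := by
    intro r hr
    rw [uIcc_of_le hss.le] at hr
    exact ⟨lt_of_lt_of_le hs.1 hr.1, lt_of_le_of_lt hr.2 hs'.2⟩
  set m : ℝ := mass τ u s s' with hm
  have hm0 : 0 ≤ m := mass_nonneg hτ hub s s'
  have hup : ∀ r ∈ uIcc s s', |Df a c ψ u M τ r| ≤ (Fintype.card ι * B * B / β0) * m := by
    intro r hr
    have h6 := Df_sub_Ds (ψ := ψ) hc hum hub hτ hβ0 habsβ hB (Ioo_subset_Icc_self hs)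
      (Ioo_subset_Icc_self (hsub r hr))
    rw [hzero r (hsub r hr), sub_zero] at h6
    have h7 : mass τ u s r ≤ m := mass_mono hτ hum hub hr
    exact h6.trans (mul_le_mul_of_nonneg_left h7 (by positivity))
  have hbal := balance ha hc hψ hum hub (M := M) hτ hσ hβ0 (B := B) (m0 := (Fintype.card ι * B * B / β0) * m)
    (fun r hr => hβ r (Ioo_subset_Icc_self (hsub r hr)))
    (fun r hr => hBβ r (Ioo_subset_Icc_self (hsub r hr))) (hK0 s hsK) (hK0 s' hs'K) hup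
  rw [← hm, abs_of_pos (sub_pos.2 hss)] at hbal
  have hmz : m = 0 := by
    by_contra hne0
    have hmp : 0 < m := lt_of_le_of_ne hm0 (Ne.symm hne0)
    have h11 : β0 * m ≤ (B * (Fintype.card ι * B * B / β0) * (s' - s)) * m := by linarith
    have h12 := le_of_mul_le_mul_right h11 hmp
    linarith
  rw [hm] at hmz
  unfold mass at hmz
  rw [integral_eq_zero_iff_of_nonneg (fun r => one_sub_nonneg hτ hub r)
    (one_sub_integrable hτ hum hub s s')] at hmz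
  rw [Filter.EventuallyEq, ae_restrict_iff' measurableSet_uIoc] at hmz
  filter_upwards [hmz] with r hr hrs
  have h13 : r ∈ uIoc s s' := by
    rw [uIoc_of_le hss.le]
    exact ⟨hrs.1, hrs.2.le⟩
  have h14 := hr h13
  simp only [Pi.zero_apply] at h14
  have h15 := sq_one_of_abs hτ
  have h16 : τ * u r = 1 := by linarith
  calc u r = (τ * τ) * u r := by rw [h15, one_mul]
    _ = τ * (τ * u r) := by ring
    _ = τ := by rw [h16, mul_one]

end Pool.Agent.Lib.MP_28b8de_an
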