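import Pool.Agent.Lib.MP_28b8de_an.RelaySmooth
import Pool.Agent.Lib.MP_28b8de_an.RelayThree

/-!
MP_28b8de_an, module Relay: the relay theorem.
-/

namespace Pool.Agent.Lib.MP_28b8de_an

open Filter Topology Set MeasureTheory

/-- a derivative along an accumulation of zeros vanishes -/
theorem deriv_zero_of_accPt {f : ℝ → ℝ} {K : Set ℝ} {t d : ℝ} (hf : ∀ s ∈ K, f s = 0)
    (ht : f t = 0) (hacc : AccPt t (𝓟 K)) (hd : HasDerivAt f d t) : d = 0 := by
  by_contra hne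
  rw [hasDerivAt_iff_tendsto_slope] at hd
  have h1 : ∀ᶠ s in 𝓝[≠] t, slope f t s ≠ 0 := hd.eventually_ne hne
  rw [accPt_iff_frequently_nhdsNE] at hacc
  obtain ⟨s, hs1, hs2⟩ := (hacc.and_eventually h1).exists
  apply hs2
  rw [slope_def_field, hf s hs1, ht]
  simp

theorem acc_exists {K : Set ℝ} {t : ℝ} (hacc : AccPt t (𝓟 K)) {U : Set ℝ}
    (hU : U ∈ 𝓝 t) : ∃ x ∈ K, x ∈ U ∧ x ≠ t := by
  rw [accPt_iff_frequently_nhdsNE] at hacc
  have h1 : ∀ᶠ x in 𝓝[≠] t, x ∈ U := mem_nhdsWithin_of_mem_nhds hU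
  have h2 : ∀ᶠ x in 𝓝[≠] t, x ≠ t := self_mem_nhdsWithin
  obtain ⟨x, hxK, hxU, hxt⟩ := (hacc.and_eventually (h1.and h2)).exists
  exact ⟨x, hxK, hxU, hxt⟩

/-- three points of a set, in increasing order, near an accumulation point -/
theorem exists_three {K : Set ℝ} {t : ℝ} (ht : t ∈ K) (hacc : AccPt t (𝓟 K)) {U : Set ℝ}
    (hU : U ∈ 𝓝 t) {η : ℝ} (hη : 0 < η) :
    ∃ s ∈ K, ∃ r ∈ K, ∃ s' ∈ K, s < r ∧ r < s' ∧ s' - s < η ∧ s ∈ U ∧ r ∈ U ∧ s' ∈ U := by
  have hV : U ∩ Ioo (t - η / 2) (t + η / 2) ∈ 𝓝 t :=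
    inter_mem hU (Ioo_mem_nhds (by linarith) (by linarith))
  obtain ⟨x, hxK, hxV, hxt⟩ := acc_exists hacc hV
  have hd : 0 < |x - t| := abs_pos.2 (sub_ne_zero.2 hxt)
  have hW : (U ∩ Ioo (t - η / 2) (t + η / 2)) ∩ Ioo (t - |x - t|) (t + |x - t|) ∈ 𝓝 t :=
    inter_mem hV (Ioo_mem_nhds (by linarith) (by linarith))
  obtain ⟨y, hyK, hyW, hyt⟩ := acc_exists hacc hW
  have hxy : x ≠ y := by
    intro h
    have h1 := hyW.2
    rw [← h] at h1
    rcases abs_cases (x - t) with h2 | h2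
    · linarith [h1.1, h1.2]
    · linarith [h1.1, h1.2]
  have htU : t ∈ U ∩ Ioo (t - η / 2) (t + η / 2) := mem_of_mem_nhds hV
  have hyV := hyW.1
  have key : ∀ a b c : ℝ, a ∈ K → b ∈ K → c ∈ K → a ∈ U ∩ Ioo (t - η / 2) (t + η / 2) →
      b ∈ U ∩ Ioo (t - η / 2) (t + η / 2) → c ∈ U ∩ Ioo (t - η / 2) (t + η / 2) →
      a < b → b < c → ∃ s ∈ K, ∃ r ∈ K, ∃ s' ∈ K, s < r ∧ r < s' ∧ s' - s < η ∧ s ∈ U ∧ r ∈ U
        ∧ s' ∈ U := by
    intro a b c ha hb hc ha' hb' hc' hab hbc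
    exact ⟨a, ha, b, hb, c, hc, hab, hbc, by linarith [ha'.2.1, hc'.2.2], ha'.1, hb'.1, hc'.1⟩
  rcases lt_or_gt_of_ne hxt with h1 | h1 <;> rcases lt_or_gt_of_ne hyt with h2 | h2 <;>
    rcases lt_or_gt_of_ne hxy with h3 | h3
  · exact key x y t hxK hyK ht hxV hyV htU h3 h2
  · exact key y x t hyK hxK ht hyV hxV htU h3 h1
  · exact key x t y hxK ht hyK hxV htU hyV h1 h2
  · exact absurd (h1.trans h2) (not_lt.2 h3.le)
  · exact absurd (h2.trans h1) (not_lt.2 h3.le)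
  · exact key y t x hyK ht hxK hyV htU hxV h2 h1
  · exact key t x y ht hxK hyK htU hxV hyV h1 h3
  · exact key t y x ht hyK hxK htU hyV hxV h2 h3

variable {ι : Type*} [Fintype ι] {a c : ι → ℝ → ℝ} {ψ u : ℝ → ℝ}

theorem iteratedDeriv_ker (ha : ∀ i, AnalyticOnNhd ℝ (a i) univ) (κ : ι → ℝ) (j : ℕ) :
    iteratedDeriv j (fun t => ∑ i, a i t * κ i) = fun t => ∑ i, iteratedDeriv j (a i) t * κ i := by
  induction j with
  | zero => simp [iteratedDeriv_zero]
  | succ j ih =>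
    rw [iteratedDeriv_succ, ih]
    ext t
    apply HasDerivAt.deriv
    apply HasDerivAt.fun_sum
    intro i _
    exact (hasDerivAt_iteratedDeriv (ha i) j t).mul_const (κ i)

theorem ker_zero (ha : ∀ i, AnalyticOnNhd ℝ (a i) univ) (hW : ∀ j t, Wd a c j t = 0) (t s : ℝ) :
    ∑ i, a i t * c i s = 0 := by
  have han : AnalyticOnNhd ℝ (fun t => ∑ i, a i t * c i s) univ := by
    intro t _
    apply Finset.analyticAt_fun_sum
    intro i _
    exact (ha i t (mem_univ t)).mul analyticAt_const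
  apply analytic_eq_zero_of_iteratedDeriv han (s := s) _ t
  intro j
  rw [iteratedDeriv_ker ha (fun i => c i s) j]
  exact hW j s

section

variable (ha : ∀ i, AnalyticOnNhd ℝ (a i) univ) (hc : ∀ i, AnalyticOnNhd ℝ (c i) univ)
  (hψ : AnalyticOnNhd ℝ ψ univ) (hum : Measurable u) (hub : ∀ t, |u t| ≤ 1)

omit hub hψ ha in
include hc hum in
theorem ker_sum {K : ℝ} (hub : ∀ t, |u t| ≤ K) (t : ℝ) :
    ∑ i, a i t * xi c u i t = ∫ s in (0 : ℝ)..t, (∑ i, a i t * c i s) * u s := by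
  have h1 : ∀ i, a i t * xi c u i t = ∫ s in (0 : ℝ)..t, a i t * (c i s * u s) := by
    intro i
    rw [intervalIntegral.integral_const_mul]
    rfl
  rw [Finset.sum_congr rfl (fun i _ => h1 i), ← intervalIntegral.integral_finsetSum]
  · congr 1
    ext s
    rw [Finset.sum_mul]
    apply Finset.sum_congr rfl
    intro i _
    ring
  · intro i _
    exact (intInt (continuous_of_analytic (hc i)) hum hub 0 t).const_mul _

include ha hc hψ hum hub

/-- on the switching set the switching function vanishes -/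
theorem swSet_zero {T : ℝ}
    (hu : ∀ᵐ t, t ∈ Icc 0 T → u t * Phi a c ψ u 0 t = |Phi a c ψ u 0 t|) {t : ℝ}
    (ht : t ∈ SwSet T u) : Phi a c ψ u 0 t = 0 := by
  by_contra hne
  apply ht.2
  have hcont := Phi_cont ha hc hψ hum hub 0
  rcases lt_or_gt_of_ne hne with h | h
  · have h1 : {r | Phi a c ψ u 0 r < 0} ∈ 𝓝 t := (isOpen_lt hcont continuous_const).mem_nhds h
    obtain ⟨ε, hε, hsub⟩ := Metric.mem_nhds_iff.1 h1
    refine ⟨ε, hε, fun _ => -1, contDiffOn_const, ?_⟩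
    filter_upwards [hu] with r hr h2 h3
    have h4 : Phi a c ψ u 0 r < 0 := by
      apply hsub
      rw [Metric.mem_ball, Real.dist_eq, abs_lt]
      constructor <;> linarith [h2.1, h2.2]
    have h5 := hr h3
    rw [abs_of_neg h4] at h5
    have h6 : (u r + 1) * Phi a c ψ u 0 r = 0 := by linarith
    rcases mul_eq_zero.1 h6 with h7 | h7
    · linarith
    · exact absurd h7 h4.ne
  · have h1 : {r | 0 < Phi a c ψ u 0 r} ∈ 𝓝 t := (isOpen_lt continuous_const hcont).mem_nhds h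
    obtain ⟨ε, hε, hsub⟩ := Metric.mem_nhds_iff.1 h1
    refine ⟨ε, hε, fun _ => 1, contDiffOn_const, ?_⟩
    filter_upwards [hu] with r hr h2 h3
    have h4 : 0 < Phi a c ψ u 0 r := by
      apply hsub
      rw [Metric.mem_ball, Real.dist_eq, abs_lt]
      constructor <;> linarith [h2.1, h2.2]
    have h5 := hr h3
    rw [abs_of_pos h4] at h5
    have h6 : (u r - 1) * Phi a c ψ u 0 r = 0 := by linarith
    rcases mul_eq_zero.1 h6 with h7 | h7
    · linarith
    · exact absurd h7 h4.ne'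

/-- the formal derivatives up to order `M` vanish on a perfect set of zeros -/
theorem Phi_zero_acc {M : ℕ} (hW : ∀ j < M, ∀ t, Wd a c j t = 0) {K : Set ℝ}
    (hK0 : ∀ t ∈ K, Phi a c ψ u 0 t = 0) (hK : ∀ t ∈ K, AccPt t (𝓟 K)) :
    ∀ j ≤ M, ∀ t ∈ K, Phi a c ψ u j t = 0 := by
  intro j
  induction j with
  | zero => exact fun _ => hK0
  | succ j ih =>
    intro hj t ht
    exact deriv_zero_of_accPt (ih (by omega)) (ih (by omega) t ht) (hK t ht)
      (Phi_hasDeriv ha hc hψ hum hub j (hW j (by omega)) t)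

/-- the singular control is admissible on a perfect set of zeros -/
theorem Phi_le_acc {M : ℕ} {K : Set ℝ} (hK0 : ∀ t ∈ K, Phi a c ψ u M t = 0) {t : ℝ}
    (ht : t ∈ K) (hacc : AccPt t (𝓟 K)) : |Phi a c ψ u (M + 1) t| ≤ |Wd a c M t| := by
  by_contra hlt
  push Not at hlt
  obtain ⟨σ, hσ, hσ2⟩ : ∃ σ : ℝ, |σ| = 1 ∧ σ * Phi a c ψ u (M + 1) t = |Phi a c ψ u (M + 1) t| := by
    rcases abs_cases (Phi a c ψ u (M + 1) t) with h | h
    · exact ⟨1, by simp, by rw [h.1]; ring⟩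
    · exact ⟨-1, by simp, by rw [h.1]; ring⟩
  rw [← hσ2] at hlt
  have hcont1 := Phi_cont ha hc hψ hum hub (M + 1)
  have hcont2 := continuous_of_analytic (Wd_analytic ha hc M)
  have hopen : {r | |Wd a c M r| < σ * Phi a c ψ u (M + 1) r} ∈ 𝓝 t :=
    (isOpen_lt hcont2.abs (continuous_const.mul hcont1)).mem_nhds hlt
  obtain ⟨ε, hε, hsub⟩ := Metric.mem_nhds_iff.1 hopen
  obtain ⟨x, hxK, hxU, hxt⟩ := acc_exists hacc (Metric.ball_mem_nhds t hε)
  -- positivity of the integrand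
  have hpos : ∀ r ∈ uIcc t x, 0 < σ * (Phi a c ψ u (M + 1) r + Wd a c M r * u r) := by
    intro r hr
    have h1 : r ∈ Metric.ball t ε := by
      rw [Metric.mem_ball, Real.dist_eq] at hxU ⊢
      rw [abs_lt] at hxU ⊢
      rw [mem_uIcc] at hr
      rcases hr with h | h
      · constructor <;> linarith [h.1, h.2, hxU.1, hxU.2]
      · constructor <;> linarith [h.1, h.2, hxU.1, hxU.2]
    have h2 : |Wd a c M r| < σ * Phi a c ψ u (M + 1) r := hsub h1
    have h3 : |σ * (Wd a c M r * u r)| ≤ |Wd a c M r| := by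
      rw [abs_mul, hσ, one_mul, abs_mul]
      calc |Wd a c M r| * |u r| ≤ |Wd a c M r| * 1 :=
            mul_le_mul_of_nonneg_left (hub r) (abs_nonneg _)
        _ = |Wd a c M r| := mul_one _
    have h4 := (abs_le.1 h3).1
    linarith
  have hint : ∀ p q : ℝ, IntervalIntegrable
      (fun r => σ * (Phi a c ψ u (M + 1) r + Wd a c M r * u r)) volume p q := by
    intro p q
    apply IntervalIntegrable.const_mul
    exact (hcont1.intervalIntegrable p q).add (intInt hcont2 hum hub p q)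
  have hzero : ∫ r in t..x, σ * (Phi a c ψ u (M + 1) r + Wd a c M r * u r) = 0 := by
    rw [intervalIntegral.integral_const_mul, ← Phi_sub ha hc hψ hum hub M t x, hK0 t ht, hK0 x hxK]
    ring
  rcases lt_or_gt_of_ne hxt with h | h
  · have h1 := intervalIntegral.intervalIntegral_pos_of_pos_on (hint x t) (fun r hr =>
      hpos r (by rw [uIcc_comm, uIcc_of_le h.le]; exact Ioo_subset_Icc_self hr)) h
    rw [intervalIntegral.integral_symm] at h1
    linarith
  · have h1 := intervalIntegral.intervalIntegral_pos_of_pos_on (hint t x) (fun r hr =>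
      hpos r (by rw [uIcc_of_le h.le]; exact Ioo_subset_Icc_self hr)) h
    linarith

end

end Pool.Agent.Lib.MP_28b8de_an
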