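import Pool.Agent.Lib.MP_28b8de_an.Prim
import Pool.Agent.Lib.MP_28b8de_an.Gap

/-!
MP_28b8de_an, module RelayDefs: the switching function `φ(t) = ψ(t) + ∑ a_i(t) ∫_0^t c_i u` and
its formal derivatives.
-/

namespace Pool.Agent.Lib.MP_28b8de_an

open Filter Topology Set MeasureTheory

/-- near `t` the function `u` is almost everywhere on `[0,T]` equal to a smooth function -/
def SmoothNear (T : ℝ) (u : ℝ → ℝ) (t : ℝ) : Prop :=
  ∃ ε > 0, ∃ h : ℝ → ℝ, ContDiffOn ℝ (⊤ : ℕ∞) h (Ioo (t - ε) (t + ε)) ∧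
    ∀ᵐ r : ℝ, r ∈ Ioo (t - ε) (t + ε) → r ∈ Icc 0 T → u r = h r

/-- the switching set of a control on `[0,T]` -/
def SwSet (T : ℝ) (u : ℝ → ℝ) : Set ℝ := {t ∈ Icc 0 T | ¬ SmoothNear T u t}

theorem isOpen_smoothNear (T : ℝ) (u : ℝ → ℝ) : IsOpen {t | SmoothNear T u t} := by
  rw [Metric.isOpen_iff]
  rintro t ⟨ε, hε, h, hh, hae⟩
  refine ⟨ε / 2, by positivity, fun s hs => ?_⟩
  rw [Metric.mem_ball, Real.dist_eq, abs_lt] at hs
  have hsub : Ioo (s - ε / 2) (s + ε / 2) ⊆ Ioo (t - ε) (t + ε) := by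
    apply Ioo_subset_Ioo <;> linarith [hs.1, hs.2]
  refine ⟨ε / 2, by positivity, h, hh.mono hsub, ?_⟩
  filter_upwards [hae] with r hr h1 h2
  exact hr (hsub h1) h2

theorem isClosed_swSet (T : ℝ) (u : ℝ → ℝ) : IsClosed (SwSet T u) := by
  have : SwSet T u = Icc 0 T ∩ {t | SmoothNear T u t}ᶜ := rfl
  rw [this]
  exact isClosed_Icc.inter (isOpen_smoothNear T u).isClosed_compl

section

variable {ι : Type*} (a c : ι → ℝ → ℝ) (ψ u : ℝ → ℝ)

/-- `ξ_i(t) = ∫_0^t c_i u` -/
noncomputable def xi (i : ι) (t : ℝ) : ℝ := ∫ s in (0 : ℝ)..t, c i s * u s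

variable [Fintype ι]

/-- the formal derivatives of the switching function -/
noncomputable def Phi (j : ℕ) (t : ℝ) : ℝ :=
  iteratedDeriv j ψ t + ∑ i, iteratedDeriv j (a i) t * xi c u i t

/-- the jump coefficients -/
noncomputable def Wd (j : ℕ) (t : ℝ) : ℝ := ∑ i, iteratedDeriv j (a i) t * c i t

end

theorem analytic_iteratedDeriv {f : ℝ → ℝ} (hf : AnalyticOnNhd ℝ f univ) (j : ℕ) :
    AnalyticOnNhd ℝ (iteratedDeriv j f) univ := by
  induction j with
  | zero => simpa [iteratedDeriv_zero] using hf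
  | succ j ih =>
    rw [iteratedDeriv_succ]
    exact ih.deriv

theorem hasDerivAt_iteratedDeriv {f : ℝ → ℝ} (hf : AnalyticOnNhd ℝ f univ) (j : ℕ) (t : ℝ) :
    HasDerivAt (iteratedDeriv j f) (iteratedDeriv (j + 1) f t) t := by
  rw [iteratedDeriv_succ]
  exact ((analytic_iteratedDeriv hf j t (mem_univ t)).differentiableAt).hasDerivAt

theorem continuous_of_analytic {f : ℝ → ℝ} (hf : AnalyticOnNhd ℝ f univ) : Continuous f := by
  rw [continuous_iff_continuousAt]
  exact fun s => (hf s (mem_univ s)).continuousAt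

theorem contDiff_of_analytic {f : ℝ → ℝ} (hf : AnalyticOnNhd ℝ f univ) (m : WithTop ℕ∞) :
    ContDiff ℝ m f := by
  rw [← contDiffOn_univ]
  exact hf.contDiffOn uniqueDiffOn_univ

theorem ac_of_analytic {f : ℝ → ℝ} (hf : AnalyticOnNhd ℝ f univ) (s s' : ℝ) :
    AbsolutelyContinuousOnInterval f s s' :=
  ((contDiff_of_analytic hf 1).contDiffOn).absolutelyContinuousOnInterval

/-- a real analytic function all whose derivatives vanish at a point vanishes -/
theorem analytic_eq_zero_of_iteratedDeriv {f : ℝ → ℝ} (hf : AnalyticOnNhd ℝ f univ) {s : ℝ}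
    (h : ∀ j, iteratedDeriv j f s = 0) (t : ℝ) : f t = 0 := by
  have h1 : analyticOrderAt f s = ⊤ := by
    rw [ENat.eq_top_iff_forall_ge]
    intro m
    rw [natCast_le_analyticOrderAt_iff_iteratedDeriv_eq_zero (hf s (mem_univ s))]
    exact fun i _ => h i
  rw [analyticOrderAt_eq_top] at h1
  exact hf.eqOn_zero_of_preconnected_of_eventuallyEq_zero isPreconnected_univ
    (mem_univ s) h1 (mem_univ t)

section

variable {ι : Type*} {a c : ι → ℝ → ℝ} {ψ u : ℝ → ℝ} {K : ℝ}

theorem locInt (hf : Continuous ψ) (hum : Measurable u) (hub : ∀ t, |u t| ≤ K) :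
    LocallyIntegrable (fun s => ψ s * u s) volume := by
  apply ((hf.mul continuous_const).locallyIntegrable (μ := volume)
    (f := fun s => ψ s * K)).mono (hf.measurable.mul hum).aestronglyMeasurable
  apply Eventually.of_forall
  intro s
  show ‖ψ s * u s‖ ≤ ‖ψ s * K‖
  rw [norm_mul, norm_mul]
  have h1 : ‖u s‖ ≤ ‖K‖ := by
    rw [Real.norm_eq_abs, Real.norm_eq_abs]
    exact (hub s).trans (le_abs_self K)
  gcongr

theorem intInt (hf : Continuous ψ) (hum : Measurable u) (hub : ∀ t, |u t| ≤ K) (s t : ℝ) :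
    IntervalIntegrable (fun s => ψ s * u s) volume s t := by
  have h := locInt hf hum hub
  rw [intervalIntegrable_iff]
  exact (LocallyIntegrable.integrableOn_isCompact h isCompact_uIcc).mono_set uIoc_subset_uIcc

theorem xi_ae (hc : ∀ i, AnalyticOnNhd ℝ (c i) univ) (hum : Measurable u)
    (hub : ∀ t, |u t| ≤ K) (i : ι) :
    ∀ᵐ t, HasDerivAt (xi c u i) (c i t * u t) t := by
  have h := LocallyIntegrable.ae_hasDerivAt_integral
    (locInt (continuous_of_analytic (hc i)) hum hub)
  filter_upwards [h] with t ht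
  exact ht 0

theorem xi_sub (hc : ∀ i, AnalyticOnNhd ℝ (c i) univ) (hum : Measurable u)
    (hub : ∀ t, |u t| ≤ K) (i : ι) (s t : ℝ) :
    xi c u i t - xi c u i s = ∫ r in s..t, c i r * u r := by
  unfold xi
  rw [intervalIntegral.integral_interval_sub_left]
  · exact intInt (continuous_of_analytic (hc i)) hum hub _ _
  · exact intInt (continuous_of_analytic (hc i)) hum hub _ _

theorem xi_ac (hc : ∀ i, AnalyticOnNhd ℝ (c i) univ) (hum : Measurable u)
    (hub : ∀ t, |u t| ≤ K) (i : ι) (s s' : ℝ) :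
    AbsolutelyContinuousOnInterval (xi c u i) s s' := by
  have h1 : AbsolutelyContinuousOnInterval (fun x => ∫ v in (0 : ℝ)..x, c i v * u v)
      (min s (min s' 0)) (max s (max s' 0)) := by
    apply IntervalIntegrable.absolutelyContinuousOnInterval_intervalIntegral
    · exact intInt (continuous_of_analytic (hc i)) hum hub _ _
    · rw [mem_uIcc]
      left
      constructor
      · exact (min_le_right _ _).trans (min_le_right _ _)
      · exact (le_max_right _ _).trans (le_max_right _ _)
  apply h1.mono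
  apply uIcc_subset_uIcc
  · rw [mem_uIcc]
    left
    exact ⟨min_le_left _ _, le_max_left _ _⟩
  · rw [mem_uIcc]
    left
    exact ⟨(min_le_right _ _).trans (min_le_left _ _), (le_max_left _ _).trans (le_max_right _ _)⟩

theorem xi_cont (hc : ∀ i, AnalyticOnNhd ℝ (c i) univ) (hum : Measurable u)
    (hub : ∀ t, |u t| ≤ K) (i : ι) : Continuous (xi c u i) := by
  unfold xi
  exact intervalIntegral.continuous_primitive
    (fun s t => intInt (continuous_of_analytic (hc i)) hum hub s t) 0

variable [Fintype ι]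

variable (ha : ∀ i, AnalyticOnNhd ℝ (a i) univ) (hc : ∀ i, AnalyticOnNhd ℝ (c i) univ)
  (hψ : AnalyticOnNhd ℝ ψ univ) (hum : Measurable u) (hub : ∀ t, |u t| ≤ K)

include ha hc hψ hum hub

theorem Phi_cont (j : ℕ) : Continuous (Phi a c ψ u j) := by
  unfold Phi
  apply Continuous.add
  · exact continuous_of_analytic (analytic_iteratedDeriv hψ j)
  · apply continuous_finsetSum
    intro i _
    exact (continuous_of_analytic (analytic_iteratedDeriv (ha i) j)).mul (xi_cont hc hum hub i)

theorem Phi_ae (j : ℕ) :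
    ∀ᵐ t, HasDerivAt (Phi a c ψ u j) (Phi a c ψ u (j + 1) t + Wd a c j t * u t) t := by
  have h1 : ∀ᵐ t, ∀ i, HasDerivAt (xi c u i) (c i t * u t) t := by
    rw [ae_all_iff]
    exact fun i => xi_ae hc hum hub i
  filter_upwards [h1] with t ht
  have h2 := hasDerivAt_iteratedDeriv hψ j t
  have h3 : HasDerivAt (fun t => ∑ i, iteratedDeriv j (a i) t * xi c u i t)
      (∑ i, (iteratedDeriv (j + 1) (a i) t * xi c u i t
        + iteratedDeriv j (a i) t * (c i t * u t))) t := by
    apply HasDerivAt.fun_sum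
    intro i _
    exact (hasDerivAt_iteratedDeriv (ha i) j t).mul (ht i)
  have h4 := h2.add h3
  have h5 : iteratedDeriv (j + 1) ψ t + ∑ i, (iteratedDeriv (j + 1) (a i) t * xi c u i t
        + iteratedDeriv j (a i) t * (c i t * u t))
      = Phi a c ψ u (j + 1) t + Wd a c j t * u t := by
    unfold Phi Wd
    rw [Finset.sum_add_distrib, Finset.sum_mul, add_assoc]
    congr 2
    apply Finset.sum_congr rfl
    intro i _
    ring
  rw [h5] at h4
  exact h4

theorem Phi_ac (j : ℕ) (s s' : ℝ) : AbsolutelyContinuousOnInterval (Phi a c ψ u j) s s' := by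
  have h1 : AbsolutelyContinuousOnInterval (fun t => ∑ i, iteratedDeriv j (a i) t * xi c u i t)
      s s' := by
    have : ∀ S : Finset ι, AbsolutelyContinuousOnInterval
        (fun t => ∑ i ∈ S, iteratedDeriv j (a i) t * xi c u i t) s s' := by
      classical
      intro S
      induction S using Finset.induction_on with
      | empty =>
        simp only [Finset.sum_empty]
        exact ac_of_analytic (fun _ _ => analyticAt_const) s s'
      | insert i S hi ih =>
        have : (fun t => ∑ i ∈ insert i S, iteratedDeriv j (a i) t * xi c u i t)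
            = (fun t => iteratedDeriv j (a i) t * xi c u i t
              + ∑ i ∈ S, iteratedDeriv j (a i) t * xi c u i t) := by
          ext t
          rw [Finset.sum_insert hi]
        rw [this]
        exact ((ac_of_analytic (analytic_iteratedDeriv (ha i) j) s s').mul
          (xi_ac hc hum hub i s s')).add ih
    exact this Finset.univ
  exact (ac_of_analytic (analytic_iteratedDeriv hψ j) s s').add h1

omit hψ hum hub in
theorem Wd_analytic (j : ℕ) : AnalyticOnNhd ℝ (Wd a c j) univ := by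
  unfold Wd
  intro t _
  apply Finset.analyticAt_fun_sum
  intro i _
  exact (analytic_iteratedDeriv (ha i) j t (mem_univ t)).mul (hc i t (mem_univ t))

theorem Phi_sub (j : ℕ) (s t : ℝ) :
    Phi a c ψ u j t - Phi a c ψ u j s
      = ∫ r in s..t, (Phi a c ψ u (j + 1) r + Wd a c j r * u r) := by
  rw [← (Phi_ac ha hc hψ hum hub j s t).integral_deriv_eq_sub]
  apply intervalIntegral.integral_congr_ae
  filter_upwards [Phi_ae ha hc hψ hum hub j] with r hr _
  exact hr.deriv

theorem Phi_hasDeriv (j : ℕ) (hW : ∀ t, Wd a c j t = 0) (t : ℝ) :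
    HasDerivAt (Phi a c ψ u j) (Phi a c ψ u (j + 1) t) t := by
  have h1 : Phi a c ψ u j = fun t => Phi a c ψ u j 0 + ∫ r in (0 : ℝ)..t, Phi a c ψ u (j + 1) r := by
    ext t
    have := Phi_sub ha hc hψ hum hub j 0 t
    have h2 : ∫ r in (0 : ℝ)..t, (Phi a c ψ u (j + 1) r + Wd a c j r * u r)
        = ∫ r in (0 : ℝ)..t, Phi a c ψ u (j + 1) r := by
      congr 1
      ext r
      rw [hW, zero_mul, add_zero]
    rw [h2] at this
    linarith
  rw [h1]
  have h3 := ((Phi_cont ha hc hψ hum hub (j + 1)).integral_hasStrictDerivAt 0 t).hasDerivAt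
  exact h3.const_add _

end

end Pool.Agent.Lib.MP_28b8de_an
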