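import Pool.Agent.Lib.MP_28b8de_an.Relay

/-!
MP_28b8de_an, module RelayMain: the relay theorem (a relay `u = sign φ` with an analytic Volterra
feedback `φ = ψ + ∑ a_i ∫ c_i u` has a countable switching set, unless `φ = 0` on `[0,T]` and the
kernel vanishes identically).
-/

namespace Pool.Agent.Lib.MP_28b8de_an

open Filter Topology Set MeasureTheory

variable {ι : Type*} [Fintype ι] {a c : ι → ℝ → ℝ} {ψ u : ℝ → ℝ}

/-- a continuous function is bounded on a compact interval -/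
theorem exists_bd {f : ℝ → ℝ} (hf : Continuous f) (p q : ℝ) :
    ∃ B : ℝ, 0 ≤ B ∧ ∀ t ∈ Icc p q, |f t| ≤ B := by
  obtain ⟨B, hB⟩ := (isCompact_Icc (a := p) (b := q)).exists_bound_of_continuousOn hf.continuousOn
  refine ⟨|B|, abs_nonneg _, fun t ht => ?_⟩
  have := hB t ht
  rw [Real.norm_eq_abs] at this
  exact this.trans (le_abs_self B)

/-- sign of a nonzero number -/
theorem exists_sign {x : ℝ} (hx : x ≠ 0) : ∃ σ : ℝ, |σ| = 1 ∧ σ * x = |x| ∧ 0 < |x| := by
  rcases abs_cases x with h | h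
  · exact ⟨1, by simp, by rw [h.1]; ring, abs_pos.2 hx⟩
  · exact ⟨-1, by simp, by rw [h.1]; ring, abs_pos.2 hx⟩

/-- a.e. smooth representation gives `SmoothNear` -/
theorem smoothNear_of_Ioo {T : ℝ} {s t s' : ℝ} (hst : s < t) (hts : t < s') {v : ℝ → ℝ}
    (hv : ContDiffOn ℝ (⊤ : ℕ∞) v (Ioo s s')) (hae : ∀ᵐ r : ℝ, r ∈ Ioo s s' → u r = v r) :
    SmoothNear T u t := by
  refine ⟨min (t - s) (s' - t), lt_min (by linarith) (by linarith), v, ?_, ?_⟩
  · apply hv.mono
    apply Ioo_subset_Ioo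
    · linarith [min_le_left (t - s) (s' - t)]
    · linarith [min_le_right (t - s) (s' - t)]
  · filter_upwards [hae] with r hr h1 _
    apply hr
    constructor
    · linarith [h1.1, min_le_left (t - s) (s' - t)]
    · linarith [h1.2, min_le_right (t - s) (s' - t)]

variable (ha : ∀ i, AnalyticOnNhd ℝ (a i) univ) (hc : ∀ i, AnalyticOnNhd ℝ (c i) univ)
  (hψ : AnalyticOnNhd ℝ ψ univ) (hum : Measurable u) (hub : ∀ t, |u t| ≤ 1)

include ha hc hψ hum hub

/-- Case 1: at some point of `K` the singular control is strictly admissible. -/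
theorem relay_case1 {T : ℝ} (hu : ∀ᵐ t, t ∈ Icc 0 T → u t * Phi a c ψ u 0 t = |Phi a c ψ u 0 t|)
    {M : ℕ} (hW : ∀ j < M, ∀ t, Wd a c j t = 0) {K : Set ℝ} (hKT : K ⊆ Icc 0 T)
    (hKM : ∀ j ≤ M, ∀ t ∈ K, Phi a c ψ u j t = 0) {t₁ : ℝ} (ht₁ : t₁ ∈ K)
    (hacc : AccPt t₁ (𝓟 K)) (hlt : |Phi a c ψ u (M + 1) t₁| < |Wd a c M t₁|) :
    ∃ r ∈ K, SmoothNear T u r := by
  have hne : Wd a c M t₁ ≠ 0 := by
    intro h
    rw [h, abs_zero] at hlt
    exact absurd hlt (not_lt.2 (abs_nonneg _))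
  obtain ⟨σ, hσ, hσβ, hβpos⟩ := exists_sign hne
  have hcβ := continuous_of_analytic (Wd_analytic ha hc M)
  have hcβ1 := continuous_of_analytic (Wd_analytic ha hc (M + 1))
  have hcN := Phi_cont ha hc hψ hum hub (M + 1)
  have hcN2 := Phi_cont ha hc hψ hum hub (M + 2)
  -- the constants
  set b₁ : ℝ := |Wd a c M t₁| with hb₁
  set P : ℝ := |Phi a c ψ u (M + 1) t₁| with hP
  have hP0 : 0 ≤ P := abs_nonneg _
  set e : ℝ := (b₁ - P) / (2 * b₁) with he
  have he0 : 0 < e := by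
    rw [he]
    apply div_pos (by linarith) (by linarith)
  have hkey : P < (1 - e) * b₁ := by
    have h1 : e * b₁ = (b₁ - P) / 2 := by
      rw [he]
      field_simp
    nlinarith
  -- the neighbourhood
  have hU1 : {r | b₁ / 2 < σ * Wd a c M r} ∈ 𝓝 t₁ := by
    apply (isOpen_lt continuous_const (continuous_const.mul hcβ)).mem_nhds
    show b₁ / 2 < σ * Wd a c M t₁
    rw [hσβ]
    linarith
  have hU2 : {r | |Phi a c ψ u (M + 1) r| < (1 - e) * (σ * Wd a c M r)} ∈ 𝓝 t₁ := by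
    apply (isOpen_lt hcN.abs (continuous_const.mul (continuous_const.mul hcβ))).mem_nhds
    show |Phi a c ψ u (M + 1) t₁| < (1 - e) * (σ * Wd a c M t₁)
    rw [hσβ]
    exact hkey
  obtain ⟨ε, hε, hball⟩ := Metric.mem_nhds_iff.1 (inter_mem hU1 hU2)
  -- bounds on the derivatives
  obtain ⟨B1, hB1, hB1'⟩ := exists_bd (f := Wd a c (M + 1)) hcβ1 (t₁ - ε) (t₁ + ε)
  obtain ⟨B2, hB2, hB2'⟩ := exists_bd (f := Phi a c ψ u (M + 2)) hcN2 (t₁ - ε) (t₁ + ε)
  have hdβ : ∀ t, HasDerivAt (Wd a c M) (deriv (Wd a c M) t) t := fun t =>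
    ((Wd_analytic ha hc M t (mem_univ t)).differentiableAt).hasDerivAt
  have hcdβ : Continuous (deriv (Wd a c M)) :=
    continuous_of_analytic (Wd_analytic ha hc M).deriv
  obtain ⟨B3, hB3, hB3'⟩ := exists_bd hcdβ (t₁ - ε) (t₁ + ε)
  set C : ℝ := B1 + B2 + B3 + 1 with hC
  have hCpos : 0 < C := by linarith
  have hη : 0 < e * (b₁ / 2) / (2 * C) := by positivity
  obtain ⟨s, hsK, r, hrK, s', hs'K, hsr, hrs', hlen, hsU, hrU, hs'U⟩ :=
    exists_three ht₁ hacc (Metric.ball_mem_nhds t₁ hε) hη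
  have hss : s < s' := hsr.trans hrs'
  have hin : ∀ t ∈ Icc s s', t ∈ Metric.ball t₁ ε := by
    intro t ht
    rw [Metric.mem_ball, Real.dist_eq, abs_lt] at hsU hs'U ⊢
    constructor <;> linarith [ht.1, ht.2, hsU.1, hs'U.2]
  have hinc : ∀ t ∈ Icc s s', t ∈ Icc (t₁ - ε) (t₁ + ε) := by
    intro t ht
    have := hin t ht
    rw [Metric.mem_ball, Real.dist_eq, abs_lt] at this
    constructor <;> linarith [this.1, this.2]
  have hIoc : ∀ t, t ∈ uIoc s s' → t ∈ Icc s s' := by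
    intro t ht
    have := uIoc_subset_uIcc ht
    rwa [uIcc_of_le hss.le] at this
  have hgap : ∀ t ∈ Icc s s', Phi a c ψ u 0 t = 0 := by
    apply gap (N := M + 1) (by omega) (g := Phi a c ψ u) (β := Wd a c M)
      (β' := deriv (Wd a c M)) (h' := fun t => Phi a c ψ u (M + 2) t + Wd a c (M + 1) t * u t)
      (u := u) (σ := σ) (β0 := b₁ / 2) (e := e) (C := C) hss (by linarith) he0
    · exact fun j _ => Phi_ac ha hc hψ hum hub j s s'
    · intro j hj
      apply Eventually.of_forall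
      exact fun t _ => Phi_hasDeriv ha hc hψ hum hub j (hW j (by omega)) t
    · intro j hj
      have : j = M := by omega
      subst this
      filter_upwards [Phi_ae ha hc hψ hum hub j] with t ht _
      exact ht
    · exact fun j hj => hKM j (by omega) s hsK
    · exact fun j hj => hKM j (by omega) s' hs'K
    · exact Phi_ac ha hc hψ hum hub (M + 1) s s'
    · filter_upwards [Phi_ae ha hc hψ hum hub (M + 1)] with t ht _
      exact ht
    · exact ac_of_analytic (Wd_analytic ha hc M) s s'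
    · exact Eventually.of_forall fun t _ => hdβ t
    · filter_upwards [hu] with t ht htm
      apply ht
      have h1 := hIoc t htm
      exact ⟨(hKT hsK).1.trans h1.1, h1.2.trans (hKT hs'K).2⟩
    · intro t ht
      exact (hball (hin t ht)).1.le
    · exact hσ
    · intro t ht
      exact (hball (hin t ht)).2.le
    · apply Eventually.of_forall
      intro t ht
      have := hB3' t (hinc t (hIoc t ht))
      linarith
    · apply Eventually.of_forall
      intro t ht
      have h1 := hB1' t (hinc t (hIoc t ht))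
      have h2 := hB2' t (hinc t (hIoc t ht))
      have h3 : |Wd a c (M + 1) t * u t| ≤ B1 := by
        rw [abs_mul]
        calc |Wd a c (M + 1) t| * |u t| ≤ B1 * 1 :=
              mul_le_mul h1 (hub t) (abs_nonneg _) hB1
          _ = B1 := mul_one _
      calc |Phi a c ψ u (M + 2) t + Wd a c (M + 1) t * u t|
          ≤ |Phi a c ψ u (M + 2) t| + |Wd a c (M + 1) t * u t| := abs_add_le _ _
        _ ≤ C := by linarith
    · have h1 := (lt_div_iff₀ (by linarith : (0 : ℝ) < 2 * C)).1 hlen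
      linarith
  refine ⟨r, hrK, ?_⟩
  obtain ⟨v, hv, hae⟩ := smooth_of_zero ha hc hψ hum hub (M := M) hW (s := s) (s' := s')
    (fun t ht => hgap t (Ioo_subset_Icc_self ht)) (fun t ht h0 => by
      have h1 : b₁ / 2 < σ * Wd a c M t := (hball (hin t (Ioo_subset_Icc_self ht))).1
      rw [h0, mul_zero] at h1
      linarith)
  exact smoothNear_of_Ioo hsr hrs' hv hae

/-- Case 2: on `K` the singular control has absolute value one. -/
theorem relay_case2 {T : ℝ} {M : ℕ} {K : Set ℝ}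
    (hK : ∀ t ∈ K, AccPt t (𝓟 K)) (hKM : ∀ t ∈ K, Phi a c ψ u M t = 0)
    (heq : ∀ t ∈ K, Wd a c M t ≠ 0 → |Phi a c ψ u (M + 1) t| = |Wd a c M t|) {t₁ : ℝ}
    (ht₁ : t₁ ∈ K) (hne : Wd a c M t₁ ≠ 0) : ∃ r ∈ K, SmoothNear T u r := by
  obtain ⟨σ, hσ, hσβ, hβpos⟩ := exists_sign hne
  have hcβ := continuous_of_analytic (Wd_analytic ha hc M)
  have hcN := Phi_cont ha hc hψ hum hub (M + 1)
  set b₁ : ℝ := |Wd a c M t₁| with hb₁
  set τ : ℝ := - Phi a c ψ u (M + 1) t₁ / Wd a c M t₁ with hτdef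
  have hτ : |τ| = 1 := by
    rw [hτdef, abs_div, abs_neg, heq t₁ ht₁ hne]
    exact div_self (ne_of_gt hβpos)
  have hττ := sq_one_of_abs hτ
  have ht₁τ : Phi a c ψ u (M + 1) t₁ = - τ * Wd a c M t₁ := by
    rw [hτdef]
    field_simp
  have hσσ := sq_one_of_abs hσ
  -- the neighbourhood
  have hU1 : {r | b₁ / 2 < σ * Wd a c M r} ∈ 𝓝 t₁ := by
    apply (isOpen_lt continuous_const (continuous_const.mul hcβ)).mem_nhds
    show b₁ / 2 < σ * Wd a c M t₁
    rw [hσβ]
    linarith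
  have hU2 : {r | τ * (σ * Phi a c ψ u (M + 1) r) < 0} ∈ 𝓝 t₁ := by
    apply (isOpen_lt (continuous_const.mul (continuous_const.mul hcN)) continuous_const).mem_nhds
    show τ * (σ * Phi a c ψ u (M + 1) t₁) < 0
    rw [ht₁τ]
    have : τ * (σ * (-τ * Wd a c M t₁)) = - (τ * τ) * (σ * Wd a c M t₁) := by ring
    rw [this, hττ, hσβ]
    linarith
  obtain ⟨ε, hε, hball⟩ := Metric.mem_nhds_iff.1 (inter_mem hU1 hU2)
  set p : ℝ := t₁ - ε / 2 with hp
  set q : ℝ := t₁ + ε / 2 with hq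
  have hin : ∀ t ∈ Icc p q, t ∈ Metric.ball t₁ ε := by
    intro t ht
    rw [Metric.mem_ball, Real.dist_eq, abs_lt]
    constructor <;> linarith [ht.1, ht.2]
  have hKτ : ∀ t ∈ K, t ∈ Icc p q → Phi a c ψ u (M + 1) t = - τ * Wd a c M t := by
    intro t ht htpq
    have h1 : b₁ / 2 < σ * Wd a c M t := (hball (hin t htpq)).1
    have h2 : τ * (σ * Phi a c ψ u (M + 1) t) < 0 := (hball (hin t htpq)).2
    have hne' : Wd a c M t ≠ 0 := by
      intro h0
      rw [h0, mul_zero] at h1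
      linarith
    have h3 := heq t ht hne'
    rcases abs_eq_abs.1 h3 with h4 | h4
    · -- then τ = -1
      rw [h4] at h2 ⊢
      have hτ1 : τ = -1 := by
        rcases abs_eq (zero_le_one' ℝ) |>.1 hτ with h5 | h5
        · rw [h5] at h2
          linarith
        · exact h5
      rw [hτ1]
      ring
    · rw [h4] at h2 ⊢
      have hτ1 : τ = 1 := by
        rcases abs_eq (zero_le_one' ℝ) |>.1 hτ with h5 | h5
        · exact h5
        · rw [h5] at h2
          linarith
      rw [hτ1]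
      ring
  -- bounds
  have hbd : ∀ i, ∃ B : ℝ, 0 ≤ B ∧ ∀ t ∈ Icc p q, |iteratedDeriv (M + 1) (a i) t| ≤ B
      ∧ |c i t| ≤ B := by
    intro i
    obtain ⟨B1, hB1, h1⟩ := exists_bd
      (continuous_of_analytic (analytic_iteratedDeriv (ha i) (M + 1))) p q
    obtain ⟨B2, hB2, h2⟩ := exists_bd (continuous_of_analytic (hc i)) p q
    exact ⟨B1 + B2, by linarith, fun t ht => ⟨by linarith [h1 t ht], by linarith [h2 t ht]⟩⟩
  choose Bi hBi0 hBi using hbd
  obtain ⟨B0, hB0, hB0'⟩ := exists_bd hcβ p q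
  set B : ℝ := B0 + ∑ i, Bi i with hB
  have hsum0 : 0 ≤ ∑ i, Bi i := Finset.sum_nonneg fun i _ => hBi0 i
  have hBnn : 0 ≤ B := by linarith
  have hBle : ∀ i, Bi i ≤ B := by
    intro i
    have := Finset.single_le_sum (f := Bi) (fun i _ => hBi0 i) (Finset.mem_univ i)
    linarith
  have hb2 : 0 < b₁ / 2 := by linarith
  set C1 : ℝ := B * (Fintype.card ι * B * B / (b₁ / 2)) with hC1
  have hC1nn : 0 ≤ C1 := by positivity
  have hη : 0 < (b₁ / 2) / (C1 + 1) := by positivity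
  obtain ⟨s, hsK, r, hrK, s', hs'K, hsr, hrs', hlen, hsU, hrU, hs'U⟩ :=
    exists_three ht₁ (hK t₁ ht₁) (Ioo_mem_nhds (show p < t₁ by linarith)
      (show t₁ < q by linarith)) hη
  have hss : s < s' := hsr.trans hrs'
  have hconst := const_between ha hc hψ hum hub (M := M) hτ hσ hb2 hBnn
    (fun t ht => (hball (hin t ht)).1.le)
    (fun i t ht => ⟨((hBi i t ht).1).trans (hBle i), ((hBi i t ht).2).trans (hBle i)⟩)
    (fun t ht => by linarith [hB0' t ht]) hKM hKτ hsK hs'K hsU hs'U (hK s hsK) hss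
    (by
      rw [← hC1]
      have h1 := (lt_div_iff₀ (by linarith : (0 : ℝ) < C1 + 1)).1 hlen
      nlinarith [sub_pos.2 hss])
  exact ⟨r, hrK, smoothNear_of_Ioo hsr hrs' contDiffOn_const hconst⟩

/-- **Relay theorem.** -/
theorem relay {T : ℝ} (hu : ∀ᵐ t, t ∈ Icc 0 T → u t * Phi a c ψ u 0 t = |Phi a c ψ u 0 t|)
    (hne : (∃ t ∈ Icc 0 T, Phi a c ψ u 0 t ≠ 0) ∨ ∃ t s, ∑ i, a i t * c i s ≠ 0) :
    (SwSet T u).Countable := by
  by_cases hW : ∀ j t, Wd a c j t = 0
  · -- the kernel vanishes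
    have hker := ker_zero ha hW (c := c)
    have hPhi : ∀ t, Phi a c ψ u 0 t = ψ t := by
      intro t
      unfold Phi
      simp only [iteratedDeriv_zero]
      rw [ker_sum hc hum hub t]
      have : (fun s => (∑ i, a i t * c i s) * u s) = fun _ => (0 : ℝ) := by
        ext s
        rw [hker t s, zero_mul]
      rw [this]
      simp
    have hψne : ∃ t, ψ t ≠ 0 := by
      rcases hne with ⟨t, _, ht⟩ | ⟨t, s, hts⟩
      · exact ⟨t, by rwa [hPhi t] at ht⟩
      · exact absurd (hker t s) hts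
    apply ((finite_zeros hψ hψne 0 T).subset _).countable
    intro t ht
    refine ⟨ht.1, ?_⟩
    rw [← hPhi t]
    exact swSet_zero ha hc hψ hum hub hu ht
  · push Not at hW
    classical
    set M := Nat.find hW with hM
    obtain ⟨t₀, ht₀⟩ := Nat.find_spec hW
    have hW0 : ∀ j < M, ∀ t, Wd a c j t = 0 := by
      intro j hj t
      have := Nat.find_min hW hj
      push Not at this
      exact this t
    by_contra hunc
    obtain ⟨K, hKperf, hKne, hKsub⟩ :=
      exists_perfect_nonempty_of_isClosed_of_not_countable (isClosed_swSet T u) hunc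
    have hKacc : ∀ t ∈ K, AccPt t (𝓟 K) := fun t ht => hKperf.acc t ht
    have hKT : K ⊆ Icc 0 T := fun t ht => (hKsub ht).1
    have hKM := Phi_zero_acc ha hc hψ hum hub hW0
      (fun t ht => swSet_zero ha hc hψ hum hub hu (hKsub ht)) hKacc
    -- a point with β ≠ 0
    have hfin := finite_zeros (Wd_analytic ha hc M) ⟨t₀, ht₀⟩ 0 T
    have hex : ∃ t ∈ K, Wd a c M t ≠ 0 := by
      by_contra hall
      push Not at hall
      have hKfin : K.Finite := hfin.subset fun t ht => ⟨hKT ht, hall t ht⟩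
      obtain ⟨t, ht⟩ := hKne
      have h1 : (K \ {t})ᶜ ∈ 𝓝 t := by
        apply (hKfin.subset sdiff_subset).isClosed.isOpen_compl.mem_nhds
        simp
      obtain ⟨x, hxK, hxU, hxt⟩ := acc_exists (hKacc t ht) h1
      exact hxU ⟨hxK, hxt⟩
    obtain ⟨t₁, ht₁, hne₁⟩ := hex
    have hcontra : ∃ r ∈ K, SmoothNear T u r := by
      by_cases hcase : ∃ t ∈ K, |Phi a c ψ u (M + 1) t| < |Wd a c M t|
      · obtain ⟨t₂, ht₂, hlt⟩ := hcase
        exact relay_case1 ha hc hψ hum hub hu hW0 hKT hKM ht₂ (hKacc t₂ ht₂) hlt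
      · push Not at hcase
        exact relay_case2 ha hc hψ hum hub hKacc (hKM M le_rfl)
          (fun t ht _ => le_antisymm
            (Phi_le_acc ha hc hψ hum hub (hKM M le_rfl) ht (hKacc t ht)) (hcase t ht)) ht₁ hne₁
    obtain ⟨r, hrK, hr⟩ := hcontra
    exact (hKsub hrK).2 hr

end Pool.Agent.Lib.MP_28b8de_an
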