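import Pool.Agent.Lib.MP_28b8de_an.RelayDefs

/-!
MP_28b8de_an, module RelaySmooth: where the switching function vanishes on an interval the control
is smooth.
-/

namespace Pool.Agent.Lib.MP_28b8de_an

open Filter Topology Set MeasureTheory

variable {ι : Type*} [Fintype ι] {a c : ι → ℝ → ℝ} {ψ u : ℝ → ℝ}

/-- derivative of a function vanishing on an open interval -/
theorem deriv_zero_of_zero {f : ℝ → ℝ} {s s' t d : ℝ} (ht : t ∈ Ioo s s')
    (h0 : ∀ r ∈ Ioo s s', f r = 0) (hd : HasDerivAt f d t) : d = 0 := by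
  have h1 : HasDerivAt f 0 t := by
    apply (hasDerivAt_const t (0 : ℝ)).congr_of_eventuallyEq
    filter_upwards [Ioo_mem_nhds ht.1 ht.2] with r hr
    exact h0 r hr
  exact hd.unique h1

variable (ha : ∀ i, AnalyticOnNhd ℝ (a i) univ) (hc : ∀ i, AnalyticOnNhd ℝ (c i) univ)
  (hψ : AnalyticOnNhd ℝ ψ univ) (hum : Measurable u) (hub : ∀ t, |u t| ≤ 1)

include ha hc hψ hum hub

theorem Phi_zero_on {M : ℕ} (hW : ∀ j < M, ∀ t, Wd a c j t = 0) {s s' : ℝ}
    (h0 : ∀ t ∈ Ioo s s', Phi a c ψ u 0 t = 0) :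
    ∀ j ≤ M, ∀ t ∈ Ioo s s', Phi a c ψ u j t = 0 := by
  intro j
  induction j with
  | zero => exact fun _ => h0
  | succ j ih =>
    intro hj t ht
    exact deriv_zero_of_zero ht (ih (by omega))
      (Phi_hasDeriv ha hc hψ hum hub j (hW j (by omega)) t)

theorem smooth_of_zero {M : ℕ} (hW : ∀ j < M, ∀ t, Wd a c j t = 0) {s s' : ℝ}
    (h0 : ∀ t ∈ Ioo s s', Phi a c ψ u 0 t = 0) (hβ : ∀ t ∈ Ioo s s', Wd a c M t ≠ 0) :
    ∃ v : ℝ → ℝ, ContDiffOn ℝ (⊤ : ℕ∞) v (Ioo s s') ∧ ∀ᵐ r : ℝ, r ∈ Ioo s s' → u r = v r := by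
  set v : ℝ → ℝ := fun t => - Phi a c ψ u (M + 1) t / Wd a c M t with hv
  have hae : ∀ᵐ r : ℝ, r ∈ Ioo s s' → u r = v r := by
    filter_upwards [Phi_ae ha hc hψ hum hub M] with r hr hrs
    have h1 := deriv_zero_of_zero hrs (Phi_zero_on ha hc hψ hum hub hW h0 M le_rfl) hr
    have h2 := hβ r hrs
    rw [hv]
    field_simp
    linarith
  refine ⟨v, ?_, hae⟩
  have hβc : ContDiff ℝ (⊤ : ℕ∞) (Wd a c M) := contDiff_of_analytic (Wd_analytic ha hc M) _
  -- `v` has the regularity of the functions `ξ_i`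
  have hvm : ∀ m : ℕ, (∀ i, ContDiffOn ℝ m (xi c u i) (Ioo s s')) →
      ContDiffOn ℝ m v (Ioo s s') := by
    intro m hm
    apply ContDiffOn.div _ _ hβ
    · apply ContDiffOn.neg
      unfold Phi
      apply ContDiffOn.add
      · exact (contDiff_of_analytic (analytic_iteratedDeriv hψ (M + 1)) _).contDiffOn
      · apply ContDiffOn.sum
        intro i _
        exact ((contDiff_of_analytic (analytic_iteratedDeriv (ha i) (M + 1)) _).contDiffOn).mul
          (hm i)
    · exact (hβc.of_le (by exact_mod_cast le_top)).contDiffOn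
  have hvc : ContinuousOn v (Ioo s s') := by
    have := hvm 0 (fun i => by
      rw [Nat.cast_zero, contDiffOn_zero]
      exact (xi_cont hc hum hub i).continuousOn)
    rw [Nat.cast_zero, contDiffOn_zero] at this
    exact this
  -- derivative of `ξ_i`
  have hxid : ∀ i, ∀ t ∈ Ioo s s', HasDerivAt (xi c u i) (c i t * v t) t := by
    intro i t ht
    have h1 : ∀ r ∈ Ioo s s', xi c u i r = xi c u i t + ∫ x in t..r, c i x * v x := by
      intro r hr
      have h2 := xi_sub hc hum hub i t r
      have h3 : ∫ x in t..r, c i x * u x = ∫ x in t..r, c i x * v x := by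
        apply intervalIntegral.integral_congr_ae
        filter_upwards [hae] with x hx hxm
        have hx' : x ∈ Ioo s s' := by
          have := uIoc_subset_uIcc hxm
          rw [mem_uIcc] at this
          rcases this with h | h
          · exact ⟨lt_of_lt_of_le ht.1 h.1, lt_of_le_of_lt h.2 hr.2⟩
          · exact ⟨lt_of_lt_of_le hr.1 h.1, lt_of_le_of_lt h.2 ht.2⟩
        rw [hx hx']
      rw [h3] at h2
      linarith
    have hcv : ContinuousOn (fun x => c i x * v x) (Ioo s s') :=
      (continuous_of_analytic (hc i)).continuousOn.mul hvc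
    have h4 : HasDerivAt (fun r => ∫ x in t..r, c i x * v x) (c i t * v t) t := by
      apply intervalIntegral.integral_hasDerivAt_right
      · exact IntervalIntegrable.refl
      · exact hcv.stronglyMeasurableAtFilter isOpen_Ioo t ht
      · exact hcv.continuousAt (Ioo_mem_nhds ht.1 ht.2)
    have h5 := h4.const_add (xi c u i t)
    apply h5.congr_of_eventuallyEq
    filter_upwards [Ioo_mem_nhds ht.1 ht.2] with r hr
    exact h1 r hr
  have hxim : ∀ m : ℕ, ∀ i, ContDiffOn ℝ m (xi c u i) (Ioo s s') := by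
    intro m
    induction m with
    | zero =>
      intro i
      rw [Nat.cast_zero, contDiffOn_zero]
      exact (xi_cont hc hum hub i).continuousOn
    | succ m ih =>
      intro i
      rw [Nat.cast_add, Nat.cast_one, contDiffOn_succ_iff_deriv_of_isOpen isOpen_Ioo]
      refine ⟨fun t ht => (hxid i t ht).differentiableAt.differentiableWithinAt, ?_, ?_⟩
      · intro h
        exact absurd h (by exact_mod_cast WithTop.coe_ne_top)
      · have h1 : ContDiffOn ℝ m (fun t => c i t * v t) (Ioo s s') :=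
          (contDiff_of_analytic (hc i) _).contDiffOn.mul (hvm m ih)
        apply h1.congr
        intro t ht
        exact (hxid i t ht).deriv
  rw [contDiffOn_infty]
  intro m
  exact hvm m (hxim m)

end Pool.Agent.Lib.MP_28b8de_an
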