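import Pool.Agent.Lib.MP_28b8de_an.RelayDefs

/-!
MP_28b8de_an, module RelayTwo: the case where the singular control has absolute value one.
-/

namespace Pool.Agent.Lib.MP_28b8de_an

open Filter Topology Set MeasureTheory

variable {ι : Type*} [Fintype ι] {a c : ι → ℝ → ℝ} {ψ u : ℝ → ℝ}

/-- `∫ (1 - τ u)` over the interval between `s` and `t` -/
noncomputable def mass (τ : ℝ) (u : ℝ → ℝ) (s t : ℝ) : ℝ := ∫ r in uIoc s t, (1 - τ * u r)

theorem one_sub_nonneg {τ : ℝ} (hτ : |τ| = 1) (hub : ∀ t, |u t| ≤ 1) (r : ℝ) :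
    0 ≤ 1 - τ * u r := by
  have h1 : |τ * u r| ≤ 1 := by
    rw [abs_mul, hτ, one_mul]
    exact hub r
  linarith [(abs_le.1 h1).2]

theorem one_sub_integrable {τ : ℝ} (hτ : |τ| = 1) (hum : Measurable u) (hub : ∀ t, |u t| ≤ 1)
    (s t : ℝ) : IntegrableOn (fun r => 1 - τ * u r) (uIoc s t) volume := by
  have h : IntegrableOn (fun _ : ℝ => (2 : ℝ)) (uIoc s t) volume :=
    (continuous_const (y := (2 : ℝ))).integrableOn_uIoc
  apply h.mono'
  · exact (measurable_const.sub (hum.const_mul τ)).aestronglyMeasurable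
  · apply Eventually.of_forall
    intro r
    have h1 : |τ * u r| ≤ 1 := by
      rw [abs_mul, hτ, one_mul]
      exact hub r
    rw [Real.norm_eq_abs, abs_le]
    constructor <;> linarith [(abs_le.1 h1).1, (abs_le.1 h1).2]

theorem mass_nonneg {τ : ℝ} (hτ : |τ| = 1) (hub : ∀ t, |u t| ≤ 1) (s t : ℝ) :
    0 ≤ mass τ u s t :=
  integral_nonneg fun r => one_sub_nonneg hτ hub r

theorem mass_mono {τ : ℝ} (hτ : |τ| = 1) (hum : Measurable u) (hub : ∀ t, |u t| ≤ 1)
    {s r t : ℝ} (hr : r ∈ uIcc s t) : mass τ u s r ≤ mass τ u s t := by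
  apply setIntegral_mono_set (one_sub_integrable hτ hum hub s t)
  · exact Eventually.of_forall fun r => one_sub_nonneg hτ hub r
  · apply Eventually.of_forall
    intro x hx
    rw [mem_uIcc] at hr
    change x ∈ uIoc s r at hx
    change x ∈ uIoc s t
    rw [mem_uIoc] at hx ⊢
    rcases hx with h1 | h1 <;> rcases hr with h2 | h2
    · exact Or.inl ⟨h1.1, h1.2.trans h2.2⟩
    · exact absurd (lt_of_lt_of_le h1.1 h1.2) (not_lt.2 h2.2)
    · exact absurd (lt_of_lt_of_le h1.1 h1.2) (not_lt.2 h2.1)
    · exact Or.inr ⟨lt_of_le_of_lt h2.1 h1.1, h1.2⟩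

/-- the continuation function -/
noncomputable def Ds (a c : ι → ℝ → ℝ) (ψ u : ℝ → ℝ) (M : ℕ) (τ s t : ℝ) : ℝ :=
  1 + τ * (iteratedDeriv (M + 1) ψ t
    + ∑ i, iteratedDeriv (M + 1) (a i) t * (xi c u i s + τ * ∫ r in s..t, c i r)) / Wd a c M t

/-- the defect of the singular control -/
noncomputable def Df (a c : ι → ℝ → ℝ) (ψ u : ℝ → ℝ) (M : ℕ) (τ t : ℝ) : ℝ :=
  1 + τ * Phi a c ψ u (M + 1) t / Wd a c M t

variable (ha : ∀ i, AnalyticOnNhd ℝ (a i) univ) (hc : ∀ i, AnalyticOnNhd ℝ (c i) univ)
  (hψ : AnalyticOnNhd ℝ ψ univ) (hum : Measurable u) (hub : ∀ t, |u t| ≤ 1)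

include ha hc hψ in
theorem Ds_analytic {M : ℕ} {τ s t : ℝ} (hβ : Wd a c M t ≠ 0) :
    AnalyticAt ℝ (Ds a c ψ u M τ s) t := by
  unfold Ds
  apply AnalyticAt.add analyticAt_const
  apply AnalyticAt.div _ (Wd_analytic ha hc M t (mem_univ t)) hβ
  apply AnalyticAt.mul analyticAt_const
  apply AnalyticAt.add (analytic_iteratedDeriv hψ (M + 1) t (mem_univ t))
  apply Finset.analyticAt_fun_sum
  intro i _
  apply AnalyticAt.mul (analytic_iteratedDeriv (ha i) (M + 1) t (mem_univ t))
  exact analyticAt_const.add (analyticAt_const.mul (analyticOnNhd_integral (hc i) s t (mem_univ t)))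

include hc hum hub in
theorem Df_sub_Ds {M : ℕ} {τ : ℝ} (hτ : |τ| = 1) {p q β0 B : ℝ} (hβ0 : 0 < β0)
    (hβ : ∀ t ∈ Icc p q, β0 ≤ |Wd a c M t|)
    (hB : ∀ i, ∀ t ∈ Icc p q, |iteratedDeriv (M + 1) (a i) t| ≤ B ∧ |c i t| ≤ B)
    {s t : ℝ} (hs : s ∈ Icc p q) (ht : t ∈ Icc p q) :
    |Df a c ψ u M τ t - Ds a c ψ u M τ s t| ≤ (Fintype.card ι * B * B / β0) * mass τ u s t := by
  have hττ : τ * τ = 1 := by
    have := congrArg (fun x => x * x) hτ
    simp only [abs_mul_abs_self, mul_one] at this
    exact this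
  have h1 : Df a c ψ u M τ t - Ds a c ψ u M τ s t
      = (∑ i, iteratedDeriv (M + 1) (a i) t * ∫ r in s..t, c i r * (τ * u r - 1)) / Wd a c M t := by
    unfold Df Ds Phi
    have h2 : ∀ i, ∫ r in s..t, c i r * (τ * u r - 1)
        = τ * (xi c u i t - xi c u i s) - ∫ r in s..t, c i r := by
      intro i
      rw [xi_sub hc hum hub i s t, ← intervalIntegral.integral_const_mul,
        ← intervalIntegral.integral_sub]
      · congr 1
        ext r
        ring
      · exact (intInt (continuous_of_analytic (hc i)) hum hub s t).const_mul τ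
      · exact (continuous_of_analytic (hc i)).intervalIntegrable s t
    simp only [h2]
    rw [show ∀ x y : ℝ, 1 + x - (1 + y) = x - y from fun x y => by ring, ← sub_div]
    congr 1
    rw [← mul_sub, add_sub_add_left_eq_sub, ← Finset.sum_sub_distrib, Finset.mul_sum]
    apply Finset.sum_congr rfl
    intro i _
    linear_combination (-(iteratedDeriv (M + 1) (a i) t) * ∫ r in s..t, c i r) * hττ
  rw [h1, abs_div]
  have hm0 : 0 ≤ mass τ u s t := mass_nonneg hτ hub s t
  have hst : uIoc s t ⊆ Icc p q := by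
    intro r hr
    have := uIoc_subset_uIcc hr
    rw [mem_uIcc] at this
    rcases this with h | h
    · exact ⟨hs.1.trans h.1, h.2.trans ht.2⟩
    · exact ⟨ht.1.trans h.1, h.2.trans hs.2⟩
  have h3 : ∀ i, |∫ r in s..t, c i r * (τ * u r - 1)| ≤ B * mass τ u s t := by
    intro i
    have h4 := intervalIntegral.norm_integral_le_integral_norm_uIoc
      (f := fun r => c i r * (τ * u r - 1)) (a := s) (b := t) (μ := volume)
    rw [Real.norm_eq_abs] at h4
    refine h4.trans ?_
    unfold mass
    rw [← integral_const_mul]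
    apply setIntegral_mono_on
    · have h5 : IntervalIntegrable (fun r => c i r * (τ * u r - 1)) volume s t := by
        have h6 := ((intInt (continuous_of_analytic (hc i)) hum hub s t).const_mul τ).sub
          ((continuous_of_analytic (hc i)).intervalIntegrable s t)
        apply h6.congr
        intro r _
        ring
      rw [intervalIntegrable_iff] at h5
      exact h5.norm
    · exact (one_sub_integrable hτ hum hub s t).const_mul B
    · exact measurableSet_uIoc
    · intro r hr
      rw [norm_mul, Real.norm_eq_abs, Real.norm_eq_abs]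
      have h7 := one_sub_nonneg hτ hub r
      have h8 : |τ * u r - 1| = 1 - τ * u r := by
        rw [abs_sub_comm]
        exact abs_of_nonneg h7
      rw [h8]
      exact mul_le_mul_of_nonneg_right (hB i r (hst hr)).2 h7
  have h9 : |∑ i, iteratedDeriv (M + 1) (a i) t * ∫ r in s..t, c i r * (τ * u r - 1)|
      ≤ Fintype.card ι * B * B * mass τ u s t := by
    calc |∑ i, iteratedDeriv (M + 1) (a i) t * ∫ r in s..t, c i r * (τ * u r - 1)|
        ≤ ∑ i, |iteratedDeriv (M + 1) (a i) t * ∫ r in s..t, c i r * (τ * u r - 1)| :=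
          Finset.abs_sum_le_sum_abs _ _
      _ ≤ ∑ _i : ι, B * (B * mass τ u s t) := by
          apply Finset.sum_le_sum
          intro i _
          rw [abs_mul]
          exact mul_le_mul (hB i t ht).1 (h3 i) (abs_nonneg _)
            ((abs_nonneg _).trans (hB i t ht).1)
      _ = Fintype.card ι * B * B * mass τ u s t := by
          rw [Finset.sum_const, Finset.card_univ, nsmul_eq_mul]
          ring
  have h10 := hβ t ht
  calc |∑ i, iteratedDeriv (M + 1) (a i) t * ∫ r in s..t, c i r * (τ * u r - 1)| / |Wd a c M t|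
      ≤ (Fintype.card ι * B * B * mass τ u s t) / β0 := by
        apply div_le_div₀ ((abs_nonneg _).trans h9) h9 hβ0 h10
    _ = (Fintype.card ι * B * B / β0) * mass τ u s t := by ring

include ha hc hψ hum hub in
/-- The balance between two zeros of `Phi M`. -/
theorem balance {M : ℕ} {τ σ : ℝ} (hτ : |τ| = 1) (hσ : |σ| = 1) {β0 B m0 : ℝ} (hβ0 : 0 < β0)
    {s t : ℝ} (hβ : ∀ r ∈ uIcc s t, β0 ≤ σ * Wd a c M r) (hB : ∀ r ∈ uIcc s t, |Wd a c M r| ≤ B)
    (hs0 : Phi a c ψ u M s = 0) (ht0 : Phi a c ψ u M t = 0)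
    (hD : ∀ r ∈ uIcc s t, |Df a c ψ u M τ r| ≤ m0) :
    β0 * mass τ u s t ≤ B * m0 * |t - s| := by
  have hττ : τ * τ = 1 := by
    have := congrArg (fun x => x * x) hτ
    simp only [abs_mul_abs_self, mul_one] at this
    exact this
  have hne : ∀ r ∈ uIcc s t, Wd a c M r ≠ 0 := by
    intro r hr h0
    have := hβ r hr
    rw [h0, mul_zero] at this
    linarith
  have hβc : Continuous (Wd a c M) := continuous_of_analytic (Wd_analytic ha hc M)
  have hPc : Continuous (Phi a c ψ u (M + 1)) := Phi_cont ha hc hψ hum hub (M + 1)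
  have hDc : ContinuousOn (Df a c ψ u M τ) (uIcc s t) := by
    unfold Df
    apply continuousOn_const.add
    exact (continuous_const.mul hPc).continuousOn.div hβc.continuousOn hne
  have i1 : IntervalIntegrable (fun r => Wd a c M r * (1 - τ * u r)) volume s t := by
    have h6 := (hβc.intervalIntegrable s t).sub ((intInt hβc hum hub s t).const_mul τ)
    apply h6.congr
    intro r _
    ring
  have i2 : IntervalIntegrable (fun r => Wd a c M r * Df a c ψ u M τ r) volume s t :=
    (hβc.continuousOn.mul hDc).intervalIntegrable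
  have h1 : ∫ r in s..t, Wd a c M r * (1 - τ * u r)
      = ∫ r in s..t, Wd a c M r * Df a c ψ u M τ r := by
    have h2 := Phi_sub ha hc hψ hum hub M s t
    rw [hs0, ht0, sub_zero] at h2
    have h3 : ∫ r in s..t, (Phi a c ψ u (M + 1) r + Wd a c M r * u r)
        = τ * ((∫ r in s..t, Wd a c M r * Df a c ψ u M τ r)
          - ∫ r in s..t, Wd a c M r * (1 - τ * u r)) := by
      rw [← intervalIntegral.integral_sub i2 i1, ← intervalIntegral.integral_const_mul]
      apply intervalIntegral.integral_congr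
      intro r hr
      have hr0 := hne r hr
      simp only [Df]
      field_simp
      linear_combination (-(Phi a c ψ u (M + 1) r) - Wd a c M r * u r) * hττ
    rw [h3] at h2
    have hτ0 : τ ≠ 0 := by
      intro h0
      rw [h0, abs_zero] at hτ
      norm_num at hτ
    rcases mul_eq_zero.1 h2.symm with h4 | h4
    · exact absurd h4 hτ0
    · linarith
  have h5 : β0 * mass τ u s t ≤ |∫ r in s..t, Wd a c M r * (1 - τ * u r)| := by
    rw [intervalIntegral.abs_intervalIntegral_eq]
    have h6 : σ * ∫ r in uIoc s t, Wd a c M r * (1 - τ * u r)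
        ≤ |∫ r in uIoc s t, Wd a c M r * (1 - τ * u r)| := by
      have := le_abs_self (σ * ∫ r in uIoc s t, Wd a c M r * (1 - τ * u r))
      rwa [abs_mul, hσ, one_mul] at this
    refine le_trans ?_ h6
    unfold mass
    rw [← integral_const_mul, ← integral_const_mul]
    rw [intervalIntegrable_iff] at i1
    apply setIntegral_mono_on ((one_sub_integrable hτ hum hub s t).const_mul β0)
      (i1.const_mul σ) measurableSet_uIoc
    intro r hr
    have h7 := one_sub_nonneg hτ hub r
    have h8 := hβ r (uIoc_subset_uIcc hr)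
    calc β0 * (1 - τ * u r) ≤ (σ * Wd a c M r) * (1 - τ * u r) :=
          mul_le_mul_of_nonneg_right h8 h7
      _ = σ * (Wd a c M r * (1 - τ * u r)) := by ring
  have h9 : |∫ r in s..t, Wd a c M r * Df a c ψ u M τ r| ≤ B * m0 * |t - s| := by
    have := intervalIntegral.norm_integral_le_of_norm_le_const (a := s) (b := t)
      (f := fun r => Wd a c M r * Df a c ψ u M τ r) (C := B * m0) (fun r hr => by
        have hr' := uIoc_subset_uIcc hr
        rw [norm_mul, Real.norm_eq_abs, Real.norm_eq_abs]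
        exact mul_le_mul (hB r hr') (hD r hr') (abs_nonneg _)
          ((abs_nonneg _).trans (hB r hr')))
    rwa [Real.norm_eq_abs] at this
  rw [← h1] at h9
  exact h5.trans h9

end Pool.Agent.Lib.MP_28b8de_an
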